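import Pool.Agent.Lib.MP_ed6410_an.Formal2

/-!
# Exact solution of the vertex equation over `ℝ[z₁, z₂]` (Artin–Rees)
-/

open Finset

namespace Pool.MP_ed6410

/-- the ring `ℝ[z₁, z₂]` -/
abbrev RR : Type := MvPolynomial (Fin 2) ℝ

/-- the augmentation ideal -/
noncomputable def II : Ideal RR := Ideal.span {1 - MvPolynomial.X 0, 1 - MvPolynomial.X 1}

lemma v_mem (i : Fin 2) : (1 - MvPolynomial.X i : RR) ∈ II := by
  apply Ideal.subset_span
  fin_cases i
  · left; rfl
  · right; rfl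

/-- real-linear functionals of polynomial functions -/
lemma pev_mem {B : Type*} [AddCommGroup B] [Module ℝ B] (L : B →ₗ[ℝ] ℝ) (m : ℕ)
    (c : ℕ → ℕ → B) : (fun X => L (pev m c X)) ∈ PolyLE m := by
  have h : (fun X => L (pev m c X)) = fun X : ℝ × ℝ => ∑ i ∈ range (m + 1),
      ∑ j ∈ range (m + 1 - i), (L (c i j)) * (X.1 ^ i * X.2 ^ j) := by
    funext X
    rw [pev_map]
    unfold pev
    refine Finset.sum_congr rfl fun i _ => Finset.sum_congr rfl fun j _ => ?_
    rw [smul_eq_mul, mul_comm]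
  rw [h]
  refine sum_mem'' _ _ fun i hi => sum_mem'' _ _ fun j hj => ?_
  rw [Finset.mem_range] at hi hj
  exact const_mul_mem (mono_mem (by omega)) _

section interp

open Polynomial

lemma coeffs_zero {k : ℕ} (a : ℕ → ℝ) (h : ∀ n ≤ k, ∑ i ∈ range (k + 1), a i * (n : ℝ) ^ i = 0) :
    ∀ i ≤ k, a i = 0 := by
  set P : ℝ[X] := ∑ i ∈ range (k + 1), C (a i) * X ^ i with hP
  have hd : P.natDegree ≤ k := by
    rw [hP]
    refine natDegree_sum_le_of_forall_le _ _ fun i hi => ?_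
    rw [Finset.mem_range] at hi
    refine (natDegree_C_mul_X_pow_le _ _).trans (by omega)
  have h0 : P = 0 := by
    refine poly_zero_of_zeros hd (fun n => n) (fun _ _ _ _ h => h) fun n hn => ?_
    rw [hP, eval_finsetSum]
    simpa using h n hn
  intro i hi
  have h1 : P.coeff i = a i := by
    rw [hP, finsetSum_coeff, Finset.sum_eq_single i]
    · simp
    · intro j _ hj
      rw [coeff_C_mul, coeff_X_pow, if_neg (Ne.symm hj), mul_zero]
    · intro h; exact absurd (Finset.mem_range.2 (by omega)) h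
  rw [← h1, h0, coeff_zero]

/-- a polynomial function of degree `≤ k` vanishing on the grid `{0..k}²` is zero -/
lemma zero_of_grid {k : ℕ} {f : ℝ × ℝ → ℝ} (hf : f ∈ PolyLE k)
    (h : ∀ a ≤ k, ∀ b ≤ k, f ((a : ℝ), (b : ℝ)) = 0) : f = 0 := by
  obtain ⟨c, hc, hc'⟩ := exists_coeff hf
  have h1 : ∀ b ≤ k, ∀ i ≤ k, ∑ j ∈ range (k + 1), c i j * (b : ℝ) ^ j = 0 := by
    intro b hb
    apply coeffs_zero
    intro a ha
    have := h a ha b hb
    rw [hc'] at this
    rw [← this]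
    refine Finset.sum_congr rfl fun i _ => ?_
    rw [Finset.sum_mul]
    refine Finset.sum_congr rfl fun j _ => ?_
    ring
  have h2 : ∀ i ≤ k, ∀ j ≤ k, c i j = 0 := by
    intro i hi
    apply coeffs_zero
    intro b hb
    exact h1 b hb i hi
  funext p
  rw [hc']
  refine Finset.sum_eq_zero fun i hi => Finset.sum_eq_zero fun j hj => ?_
  rw [Finset.mem_range] at hi hj
  rw [h2 i (by omega) j (by omega), zero_mul]

end interp

section maps

variable {A B : Type*} [CommRing A] [Algebra ℝ A] [CommRing B] [Algebra ℝ B]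

lemma pev_algHom (f : A →ₐ[ℝ] B) (m : ℕ) (c : ℕ → ℕ → A) (X : ℝ × ℝ) :
    f (pev m c X) = pev m (fun i j => f (c i j)) X :=
  pev_map f.toLinearMap m c X

lemma vtx_algHom (f : A →ₐ[ℝ] B) (m r : ℕ) (z1 z2 : A) (c : Fin 4 → ℕ → ℕ → A) (X : ℝ × ℝ) :
    f (vtx r z1 z2 (fun e => pev m (c e)) X) =
      vtx r (f z1) (f z2) (fun e => pev m (fun i j => f (c e i j))) X := by
  unfold vtx
  simp only [map_add, map_sub, map_mul, map_pow, map_smul, pev_algHom]

lemma vtx_functional (L : A →ₗ[ℝ] ℝ) (m r : ℕ) (z1 z2 : A) (c : Fin 4 → ℕ → ℕ → A) :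
    (fun X => L (vtx r z1 z2 (fun e => pev m (c e)) X)) ∈ PolyLE (m + r + 1) := by
  have key : ∀ (ζ : A) (e : ℝ × ℝ) (d : ℕ → ℕ → A) (a b : ℝ),
      (fun X : ℝ × ℝ => (a * X.1 + b * X.2 + 0) ^ (r + 1) *
        (L (pev m d X) - L (ζ * pev m d (X + e)))) ∈ PolyLE (m + r + 1) := by
    intro ζ e d a b
    have h1 : (fun X => L (pev m d X) - L (ζ * pev m d (X + e))) ∈ PolyLE m := by
      refine (PolyLE m).sub_mem (pev_mem L m d) ?_
      have := comp_add_mem (pev_mem (L.comp (LinearMap.mulLeft ℝ ζ)) m d) e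
      exact this
    have h2 := mul_mem' (linpow_mem a b 0 (r + 1)) h1
    refine PolyLE_mono (by omega) h2
  have h0 := key (z1 * z2) (0, 1) (c 0) 1 0
  have h1 := key z2 (-1, 0) (c 1) 0 1
  have h2 := key (z1 * z2 ^ 2) (-1, 1) (c 2) 1 1
  have h3 := key z1 (1, 1) (c 3) 1 (-1)
  have := (PolyLE (m + r + 1)).add_mem ((PolyLE (m + r + 1)).add_mem
    ((PolyLE (m + r + 1)).add_mem h0 h1) h2) h3
  convert this using 1
  funext X
  simp only [vtx, map_add, map_smul, map_sub, smul_eq_mul, Pi.add_apply]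
  ring

end maps

/-- the vertex map evaluated on the grid, as an `ℝ[z₁,z₂]`-linear map -/
noncomputable def Cmap (m r : ℕ) :
    (Fin 4 → ℕ → ℕ → RR) →ₗ[RR] (Fin (m + r + 2) × Fin (m + r + 2) → RR) where
  toFun c := fun p => vtx r (MvPolynomial.X 0) (MvPolynomial.X 1) (fun e => pev m (c e))
    ((p.1 : ℕ), (p.2 : ℕ))
  map_add' c d := by
    funext p
    simp only [vtx, Pi.add_apply, pev_add, smul_sub, smul_add, mul_add]
    abel
  map_smul' a c := by
    funext p
    have : ∀ (e : Fin 4) X, pev m (a • c e) X = a * pev m (c e) X := by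
      intro e X
      simp only [pev, Finset.mul_sum, mul_smul_comm, Pi.smul_apply, smul_eq_mul]
    simp only [vtx, Pi.smul_apply, this]
    simp only [smul_eq_mul, RingHom.id_apply, Algebra.smul_def]
    ring

theorem exists_exact {m r : ℕ} (hN1 : N1 m r) :
    ∃ c : Fin 4 → ℕ → ℕ → RR, (∀ e i j, c e i j ∈ II ^ (m + r + 2)) ∧
      (c 0 m 0 + c 2 m 0 + c 3 m 0 - (MvPolynomial.X 1 - 1) ^ (m + r + 2) ∈ II ^ (m + r + 3)) ∧
      ∀ X, vtx r (MvPolynomial.X 0) (MvPolynomial.X 1) (fun e => pev m (c e)) X = 0 := by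
  obtain ⟨k0, hk0⟩ := Ideal.exists_pow_inf_eq_pow_smul II (LinearMap.range (Cmap m r))
  set n : ℕ := k0 + (m + r + 3) with hn
  -- the formal solution
  set 𝔪 : Ideal (RR ⧸ II ^ n) := II.map (Ideal.Quotient.mk (II ^ n)) with h𝔪
  have hpow : ∀ j, 𝔪 ^ j = (II ^ j).map (Ideal.Quotient.mk (II ^ n)) := by
    intro j; rw [h𝔪, Ideal.map_pow]
  have h𝔪n : 𝔪 ^ n = ⊥ := by
    rw [hpow, Ideal.map_quotient_self]
  have hv : ∀ i : Fin 2, Ideal.Quotient.mk (II ^ n) (1 - MvPolynomial.X i) ∈ 𝔪 := by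
    intro i
    exact Ideal.mem_map_of_mem _ (v_mem i)
  obtain ⟨cb, hcb1, hcb2, hcb3⟩ := formal_solution hN1 𝔪 h𝔪n (by omega) (hv 0) (hv 1)
  -- lift
  have hlift : ∀ e i j, ∃ x ∈ II ^ (m + r + 2), Ideal.Quotient.mk (II ^ n) x = cb e i j := by
    intro e i j
    have := hcb1 e i j
    rw [hpow, Ideal.mem_map_iff_of_surjective _ Ideal.Quotient.mk_surjective] at this
    obtain ⟨x, hx, hx'⟩ := this
    exact ⟨x, hx, hx'⟩
  choose c hc1 hc2 using hlift
  have hctop : c 0 m 0 + c 2 m 0 + c 3 m 0 - (MvPolynomial.X 1 - 1) ^ (m + r + 2) ∈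
      II ^ (m + r + 3) := by
    have h1 : Ideal.Quotient.mk (II ^ n)
        (c 0 m 0 + c 2 m 0 + c 3 m 0 - (MvPolynomial.X 1 - 1) ^ (m + r + 2)) ∈
        𝔪 ^ (m + r + 3) := by
      have h2 : (MvPolynomial.X 1 - 1 : RR) = -(1 - MvPolynomial.X 1) := by ring
      rw [h2]
      simp only [map_sub, map_add, map_pow, map_neg, hc2]
      simpa only [map_sub] using hcb2
    rw [hpow, Ideal.mem_map_iff_of_surjective _ Ideal.Quotient.mk_surjective] at h1
    obtain ⟨y, hy, hy'⟩ := h1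
    rw [Ideal.Quotient.eq] at hy'
    have h3 : II ^ n ≤ II ^ (m + r + 3) := Ideal.pow_le_pow_right (by omega)
    have h4 := (II ^ (m + r + 3)).sub_mem hy (h3 hy')
    simpa using h4
  have hcv : ∀ X, vtx r (MvPolynomial.X 0) (MvPolynomial.X 1) (fun e => pev m (c e)) X ∈
      II ^ n := by
    intro X
    rw [← Ideal.Quotient.eq_zero_iff_mem]
    have h1 := vtx_algHom (Ideal.Quotient.mkₐ ℝ (II ^ n)) m r (MvPolynomial.X 0)
      (MvPolynomial.X 1) c X
    rw [Ideal.Quotient.mkₐ_eq_mk] at h1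
    rw [h1]
    have h2 := hcb3 X
    have h3 : (fun e => pev m (fun i j => Ideal.Quotient.mk (II ^ n) (c e i j))) =
        fun e => pev m (cb e) := by
      funext e
      congr 1
      funext i j
      exact hc2 e i j
    rw [h3]
    simpa using h2
  -- Artin–Rees
  have hmem : Cmap m r c ∈ (II ^ n • ⊤ : Submodule RR (Fin (m + r + 2) × Fin (m + r + 2) → RR)) ⊓
      LinearMap.range (Cmap m r) := by
    refine ⟨?_, LinearMap.mem_range_self _ _⟩
    have h1 : Cmap m r c = ∑ p, (Cmap m r c p) • (Pi.single p (1 : RR) :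
        Fin (m + r + 2) × Fin (m + r + 2) → RR) := by
      funext q
      simp [Finset.sum_apply, Pi.single_apply]
    rw [h1]
    exact Submodule.sum_mem _ fun p _ => Submodule.smul_mem_smul (hcv _) Submodule.mem_top
  rw [hk0 n (by omega)] at hmem
  have h2 : n - k0 = m + r + 3 := by omega
  rw [h2] at hmem
  have hmem' : Cmap m r c ∈ (II ^ (m + r + 3) • LinearMap.range (Cmap m r)) :=
    Submodule.smul_mono le_rfl inf_le_right hmem
  rw [LinearMap.range_eq_map, ← Submodule.map_smul''] at hmem'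
  obtain ⟨d, hd, hd'⟩ := hmem'
  have hdI : ∀ e i j, d e i j ∈ II ^ (m + r + 3) := by
    have hd2 : d ∈ (II ^ (m + r + 3) • ⊤ : Submodule RR (Fin 4 → ℕ → ℕ → RR)) := hd
    refine Submodule.smul_induction_on hd2 ?_ ?_
    · intro a ha x _ e i j
      exact Ideal.mul_mem_right _ _ ha
    · intro x y hx hy e i j
      exact Ideal.add_mem _ (hx e i j) (hy e i j)
  have hle : II ^ (m + r + 3) ≤ II ^ (m + r + 2) := Ideal.pow_le_pow_right (by omega)
  refine ⟨c - d, fun e i j => (II ^ (m + r + 2)).sub_mem (hc1 e i j) (hle (hdI e i j)), ?_, ?_⟩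
  · have h3 : (c - d) 0 m 0 + (c - d) 2 m 0 + (c - d) 3 m 0 -
        (MvPolynomial.X 1 - 1) ^ (m + r + 2) =
        (c 0 m 0 + c 2 m 0 + c 3 m 0 - (MvPolynomial.X 1 - 1) ^ (m + r + 2)) -
          (d 0 m 0 + d 2 m 0 + d 3 m 0) := by
      simp only [Pi.sub_apply]; ring
    rw [h3]
    exact (II ^ (m + r + 3)).sub_mem hctop
      (Ideal.add_mem _ (Ideal.add_mem _ (hdI _ _ _) (hdI _ _ _)) (hdI _ _ _))
  · have h4 : Cmap m r (c - d) = 0 := by
      rw [map_sub, hd', sub_self]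
    intro X
    ext μ
    rw [MvPolynomial.coeff_zero]
    have h5 := vtx_functional (MvPolynomial.lcoeff ℝ μ) m r
      (MvPolynomial.X 0 : RR) (MvPolynomial.X 1) (c - d)
    have h6 := zero_of_grid h5 (fun a ha b hb => by
      have h7 := congrFun h4 (⟨a, by omega⟩, ⟨b, by omega⟩)
      have h8 : vtx r (MvPolynomial.X 0) (MvPolynomial.X 1) (fun e => pev m ((c - d) e))
          ((a : ℝ), (b : ℝ)) = 0 := h7
      rw [h8, map_zero])
    exact congrFun h6 X

end Pool.MP_ed6410
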