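import Pool.Agent.Lib.MP_ed6410_an.AR

/-!
# The action of `ℝ[z₁, z₂]` on functions on the lattice
-/

open Finset

namespace Pool.MP_ed6410

/-- real point of a lattice point -/
def cL (M : ℤ × ℤ) : ℝ × ℝ := ((M.1 : ℝ), (M.2 : ℝ))

@[simp] lemma cL_add (M N : ℤ × ℤ) : cL (M + N) = cL M + cL N := by
  ext <;> simp [cL]

@[simp] lemma cL_sub (M N : ℤ × ℤ) : cL (M - N) = cL M - cL N := by
  ext <;> simp [cL]

@[simp] lemma cL_zero : cL 0 = 0 := by
  ext <;> simp [cL]

/-- the lattice shift of a monomial -/
def sh (μ : Fin 2 →₀ ℕ) : ℤ × ℤ := ((μ 0 : ℤ) - μ 1, (μ 0 : ℤ))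

/-- the lattice vectors of the two variables -/
def bvec (i : Fin 2) : ℤ × ℤ := if i = 0 then (1, 1) else (-1, 0)

/-- `act g M c` is the value at `M` of `c · g` -/
noncomputable def act (g : ℤ × ℤ → ℝ) (M : ℤ × ℤ) : RR →ₗ[ℝ] ℝ :=
  (MvPolynomial.basisMonomials (Fin 2) ℝ).constr ℝ (fun μ => g (M - sh μ))

lemma act_mono1 (g : ℤ × ℤ → ℝ) (M : ℤ × ℤ) (μ : Fin 2 →₀ ℕ) :
    act g M (MvPolynomial.monomial μ 1) = g (M - sh μ) := by
  have := (MvPolynomial.basisMonomials (Fin 2) ℝ).constr_basis ℝ (fun μ => g (M - sh μ)) μ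
  rw [MvPolynomial.coe_basisMonomials] at this
  exact this

lemma act_monomial (g : ℤ × ℤ → ℝ) (M : ℤ × ℤ) (μ : Fin 2 →₀ ℕ) (a : ℝ) :
    act g M (MvPolynomial.monomial μ a) = a * g (M - sh μ) := by
  have : MvPolynomial.monomial μ a = a • (MvPolynomial.monomial μ (1 : ℝ)) := by
    rw [MvPolynomial.smul_monomial]; simp
  rw [this, map_smul, act_mono1, smul_eq_mul]

lemma act_X_mul (g : ℤ × ℤ → ℝ) (M : ℤ × ℤ) (i : Fin 2) (c : RR) :
    act g M (MvPolynomial.X i * c) = act g (M - bvec i) c := by
  have h : (act g M).comp (LinearMap.mulLeft ℝ (MvPolynomial.X i : RR)) = act g (M - bvec i) := by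
    refine (MvPolynomial.basisMonomials (Fin 2) ℝ).ext fun μ => ?_
    rw [MvPolynomial.coe_basisMonomials]
    simp only [LinearMap.comp_apply, LinearMap.mulLeft_apply, act_mono1]
    rw [MvPolynomial.X, MvPolynomial.monomial_mul, one_mul, act_mono1]
    congr 1
    have : sh (Finsupp.single i 1 + μ) = bvec i + sh μ := by
      fin_cases i
      · simp [sh, bvec]; ring
      · simp [sh, bvec]; ring
    rw [this]
    abel
  exact LinearMap.congr_fun h c

lemma act_sub (g g' : ℤ × ℤ → ℝ) (M : ℤ × ℤ) (c : RR) :
    act (fun j => g j - g' j) M c = act g M c - act g' M c := by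
  have h : act (fun j => g j - g' j) M = act g M - act g' M := by
    refine (MvPolynomial.basisMonomials (Fin 2) ℝ).ext fun μ => ?_
    rw [MvPolynomial.coe_basisMonomials]
    simp only [LinearMap.sub_apply, act_mono1]
  rw [h]; rfl

lemma act_shift (g : ℤ × ℤ → ℝ) (M e : ℤ × ℤ) (c : RR) :
    act (fun j => g (j + e)) M c = act g (M + e) c := by
  unfold act
  have : (fun μ => (fun j => g (j + e)) (M - sh μ)) = fun μ => g (M + e - sh μ) := by
    funext μ
    show g (M - sh μ + e) = _
    congr 1
    abel
  rw [this]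

lemma act_zero (M : ℤ × ℤ) (c : RR) : act (fun _ => 0) M c = 0 := by
  have := act_sub (fun _ => 0) (fun _ => 0) M c
  simpa using this

/-- functions on the lattice all of whose `n`-fold differences vanish -/
def Dn : ℕ → Set (ℤ × ℤ → ℝ)
  | 0 => {fun _ => 0}
  | n + 1 => {g | ∀ e : ℤ × ℤ, (fun M => g M - g (M - e)) ∈ Dn n}

lemma Dn_succ {n : ℕ} {g : ℤ × ℤ → ℝ} :
    g ∈ Dn (n + 1) ↔ ∀ e : ℤ × ℤ, (fun M => g M - g (M - e)) ∈ Dn n := Iff.rfl

/-- the ideal of elements killing `Dn n` -/
noncomputable def Kid (n : ℕ) : Ideal RR where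
  carrier := {c | ∀ g ∈ Dn n, ∀ M, act g M c = 0}
  add_mem' := by
    intro a b ha hb g hg M
    rw [map_add, ha g hg M, hb g hg M, add_zero]
  zero_mem' := by
    intro g _ M
    rw [map_zero]
  smul_mem' := by
    intro a
    induction a using MvPolynomial.induction_on with
    | C r =>
      intro c hc g hg M
      have : (MvPolynomial.C r : RR) • c = r • c := by
        rw [smul_eq_mul, ← MvPolynomial.smul_eq_C_mul]
      rw [this, map_smul, hc g hg M, smul_zero]
    | add p q hp hq =>
      intro c hc g hg M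
      rw [add_smul, map_add, hp hc g hg M, hq hc g hg M, add_zero]
    | mul_X p i hp =>
      intro c hc g hg M
      have : (p * MvPolynomial.X i : RR) • c = MvPolynomial.X i * (p • c) := by
        simp only [smul_eq_mul]; ring
      rw [this, act_X_mul]
      exact hp hc g hg _

lemma II_pow_le (n : ℕ) : II ^ n ≤ Kid n := by
  induction n with
  | zero =>
    intro c _ g hg M
    have : g = fun _ => 0 := hg
    rw [this, act_zero]
  | succ n ih =>
    rw [pow_succ']
    refine (Ideal.mul_mono_right ih).trans ?_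
    rw [Ideal.mul_le]
    intro a ha s hs
    have hgen : ∀ i : Fin 2, (1 - MvPolynomial.X i) * s ∈ Kid (n + 1) := by
      intro i g hg M
      have h1 : (1 - MvPolynomial.X i : RR) * s = s - MvPolynomial.X i * s := by ring
      rw [h1, map_sub, act_X_mul]
      have h2 : act g (M - bvec i) s = act (fun j => g (j - bvec i)) M s := by
        have := act_shift g M (-bvec i) s
        simpa [sub_eq_add_neg] using this.symm
      rw [h2, ← act_sub]
      exact hs _ (hg (bvec i)) M
    unfold II at ha
    induction ha using Submodule.span_induction with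
    | mem x hx =>
      rcases hx with rfl | rfl
      · exact hgen 0
      · exact hgen 1
    | zero => rw [zero_mul]; exact Ideal.zero_mem _
    | add x y _ _ hx hy => rw [add_mul]; exact Ideal.add_mem _ hx hy
    | smul a x _ hx => rw [smul_eq_mul, mul_assoc]; exact Ideal.mul_mem_left _ _ hx

lemma act_kills {n : ℕ} {c : RR} (hc : c ∈ II ^ n) {g : ℤ × ℤ → ℝ} (hg : g ∈ Dn n) (M : ℤ × ℤ) :
    act g M c = 0 := II_pow_le n hc g hg M

/-! ### the delta function -/

/-- delta function at the origin -/
noncomputable def dl : ℤ × ℤ → ℝ := Pi.single 0 1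

lemma act_dl_finite (s : RR) : {M | act dl M s ≠ 0}.Finite := by
  induction s using MvPolynomial.induction_on' with
  | monomial μ a =>
    refine (Set.finite_singleton (sh μ)).subset ?_
    intro M hM
    simp only [Set.mem_ofPred_eq, act_monomial] at hM
    rw [Set.mem_singleton_iff]
    by_contra h
    apply hM
    have : M - sh μ ≠ 0 := sub_ne_zero.2 h
    simp [dl, this]
  | add p q hp hq =>
    refine (hp.union hq).subset ?_
    intro M hM
    simp only [Set.mem_ofPred_eq, map_add] at hM
    by_contra h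
    simp only [Set.mem_union, Set.mem_ofPred_eq, not_or, not_not] at h
    rw [h.1, h.2, add_zero] at hM
    exact hM rfl

lemma act_eq_tsum (g : ℤ × ℤ → ℝ) (M : ℤ × ℤ) (s : RR) :
    act g M s = ∑' i, g (M - i) * act dl i s := by
  induction s using MvPolynomial.induction_on' with
  | monomial μ a =>
    rw [act_monomial, tsum_eq_single (sh μ)]
    · rw [act_monomial]
      simp [dl, mul_comm]
    · intro i hi
      rw [act_monomial]
      have : i - sh μ ≠ 0 := sub_ne_zero.2 hi
      simp [dl, this]
  | add p q hp hq =>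
    simp only [map_add, mul_add]
    rw [Summable.tsum_add, hp, hq]
    · apply summable_of_hasFiniteSupport
      refine (act_dl_finite p).subset ?_
      intro i hi
      simp only [Function.mem_support] at hi
      exact right_ne_zero_of_mul hi
    · apply summable_of_hasFiniteSupport
      refine (act_dl_finite q).subset ?_
      intro i hi
      simp only [Function.mem_support] at hi
      exact right_ne_zero_of_mul hi

end Pool.MP_ed6410
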