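import Mathlib

/-!
# Splines on the four-direction mesh: definitions (problem MP_ed6410_an)
-/

open MeasureTheory Filter
open scoped ENNReal Topology

namespace Pool.MP_ed6410

/-- The real functions on the plane that are given by a real polynomial of total degree
at most `k` in the two coordinates. -/
def PolyLE (k : ℕ) : Submodule ℝ (ℝ × ℝ → ℝ) :=
  Submodule.span ℝ {f | ∃ i j : ℕ, i + j ≤ k ∧ f = fun p => p.1 ^ i * p.2 ^ j}

/-- The closed triangles of the four-direction mesh `Δ_h`: the square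
`[ih,(i+1)h] × [jh,(j+1)h]` is divided by its two diagonals into four triangles; the Boolean `a`
chooses the side of the diagonal `x - y = ih - jh`, the Boolean `b` chooses the side of the
diagonal `x + y = ih + jh + h`. -/
def tri (h : ℝ) (i j : ℤ) (a b : Bool) : Set (ℝ × ℝ) :=
  {p | i * h ≤ p.1 ∧ p.1 ≤ (i + 1) * h ∧ j * h ≤ p.2 ∧ p.2 ≤ (j + 1) * h ∧
    (if a then p.2 - j * h ≤ p.1 - i * h else p.1 - i * h ≤ p.2 - j * h) ∧
    (if b then h ≤ (p.1 - i * h) + (p.2 - j * h) else (p.1 - i * h) + (p.2 - j * h) ≤ h)}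

/-- The spline space `S_k^r(Δ_h)`: functions in `C^r(ℝ²)` whose restriction to each triangle
of `Δ_h` is a polynomial of total degree at most `k`. -/
def SplineSpace (k r : ℕ) (h : ℝ) : Set (ℝ × ℝ → ℝ) :=
  {s | ContDiff ℝ r s ∧
    ∀ (i j : ℤ) (a b : Bool), ∃ P ∈ PolyLE k, Set.EqOn s P (tri h i j a b)}

/-- The distance in `L_∞(G)` of `f` to a set `S` of functions. -/
noncomputable def distLinf (G : Set (ℝ × ℝ)) (f : ℝ × ℝ → ℝ) (S : Set (ℝ × ℝ → ℝ)) : ℝ≥0∞ :=
  ⨅ s ∈ S, eLpNorm (f - s) ⊤ (volume.restrict G)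

/-- For every bounded domain `G` and every `f` of class `C^N` on the plane, the
`L_∞(G)`-distance of `f` to `S_k^r(Δ_h)` is `O(h^m)` as `h → 0+`. -/
def ApproxOrderFor (N : ℕ∞) (k r m : ℕ) : Prop :=
  ∀ G : Set (ℝ × ℝ), IsOpen G → IsConnected G → Bornology.IsBounded G →
    ∀ f : ℝ × ℝ → ℝ, ContDiff ℝ N f →
      ∃ C : ℝ, ∀ᶠ h : ℝ in 𝓝[>] 0,
        distLinf G f (SplineSpace k r h) ≤ ENNReal.ofReal (C * h ^ m)

/-- The spline spaces `S_k^r(Δ_h)`, `h > 0`, have approximation order `m`: for every bounded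
domain `G` and every sufficiently smooth `f`, the `L_∞(G)`-distance of `f` to `S_k^r(Δ_h)` is
`O(h^m)` as `h → 0+`. -/
def HasApproxOrder (k r m : ℕ) : Prop :=
  ∃ N : ℕ, ApproxOrderFor N k r m

end Pool.MP_ed6410
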