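import Pool.Agent.Lib.MP_ed6410_an.Quasi

/-!
# Bounds for the quasi-interpolant
-/

open Finset

namespace Pool.MP_ed6410

/-- the weight -/
noncomputable def wt (n : ℕ) (j : ℤ × ℤ) : ℝ := (1 + ‖cL j‖) ^ n

lemma wt_pos (n : ℕ) (j : ℤ × ℤ) : 0 < wt n j := by unfold wt; positivity

lemma wt_add (n : ℕ) (a b : ℤ × ℤ) : wt n (a + b) ≤ wt n a * wt n b := by
  unfold wt
  rw [← mul_pow, cL_add]
  refine pow_le_pow_left₀ (by positivity) ?_ n
  have h1 := norm_add_le (cL a) (cL b)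
  have h2 := norm_nonneg (cL a)
  have h3 := norm_nonneg (cL b)
  nlinarith [mul_nonneg h2 h3]

lemma wt_change (n : ℕ) {g : ℤ × ℤ → ℝ} {M M' : ℤ × ℤ} {B : ℝ} (hB : 0 ≤ B)
    (h : ∀ j, |g j| ≤ B * wt n (j - M)) (j : ℤ × ℤ) :
    |g j| ≤ (B * wt n (M' - M)) * wt n (j - M') := by
  refine (h j).trans ?_
  rw [mul_assoc]
  refine mul_le_mul_of_nonneg_left ?_ hB
  have : j - M = (M' - M) + (j - M') := by abel
  rw [this]
  exact wt_add _ _ _

theorem conv_bound (n : ℕ) {F0 : ℤ × ℤ → ℝ × ℝ → ℝ} (hF : {i | F0 i ≠ 0}.Finite)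
    (hc : ∀ i, Continuous (F0 i)) : ∃ K, 0 ≤ K ∧ ∀ (g : ℤ × ℤ → ℝ) (M : ℤ × ℤ) (B : ℝ), 0 ≤ B →
      (∀ j, |g j| ≤ B * wt n (j - M)) → ∀ X : ℝ × ℝ, ‖X - cL M‖ ≤ 2 →
      |conv F0 g M X| ≤ K * B := by
  have h1 : ∀ i, ∃ C, 0 ≤ C ∧ ∀ Y ∈ Metric.closedBall (cL i) 2, |F0 i Y| ≤ C := by
    intro i
    obtain ⟨C, hC⟩ := (isCompact_closedBall (cL i) 2).exists_bound_of_continuousOn
      (hc i).continuousOn
    exact ⟨max C 0, le_max_right _ _, fun Y hY => (hC Y hY).trans (le_max_left _ _)⟩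
  choose C hC0 hC using h1
  refine ⟨∑ i ∈ hF.toFinset, wt n (-i) * C i,
    Finset.sum_nonneg fun i _ => mul_nonneg (wt_pos _ _).le (hC0 i), ?_⟩
  intro g M B hB hg X hX
  rw [Sten.conv_eq_sum hF, Finset.sum_mul]
  refine (Finset.abs_sum_le_sum_abs _ _).trans (Finset.sum_le_sum fun i _ => ?_)
  rw [abs_mul]
  have h2 := hg (M - i)
  have e : M - i - M = -i := by abel
  rw [e] at h2
  have h3 := hC i (X - cL M + cL i) (by
    rw [mem_closedBall_iff_norm, add_sub_cancel_right]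
    exact hX)
  calc |g (M - i)| * |F0 i (X - cL M + cL i)| ≤ (B * wt n (-i)) * C i :=
        mul_le_mul h2 h3 (abs_nonneg _) (mul_nonneg hB (wt_pos _ _).le)
    _ = wt n (-i) * C i * B := by ring

/-- bounded operators in the weighted sense -/
def WB (n : ℕ) (A : Module.End ℝ (ℤ × ℤ → ℝ)) : Prop :=
  ∃ K, 0 ≤ K ∧ ∀ (g : ℤ × ℤ → ℝ) (M : ℤ × ℤ) (B : ℝ), 0 ≤ B →
    (∀ j, |g j| ≤ B * wt n (j - M)) → ∀ j, |A g j| ≤ K * B * wt n (j - M)

lemma WB_one (n : ℕ) : WB n 1 := by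
  refine ⟨1, zero_le_one, ?_⟩
  intro g M B _ h j
  simpa using h j

lemma WB_sub {n : ℕ} {A A' : Module.End ℝ (ℤ × ℤ → ℝ)} (h : WB n A) (h' : WB n A') :
    WB n (A - A') := by
  obtain ⟨K, hK, h⟩ := h
  obtain ⟨K', hK', h'⟩ := h'
  refine ⟨K + K', add_nonneg hK hK', ?_⟩
  intro g M B hB hg j
  have h1 := h g M B hB hg j
  have h2 := h' g M B hB hg j
  rw [LinearMap.sub_apply, Pi.sub_apply]
  rw [abs_le] at h1 h2 ⊢
  constructor <;> nlinarith [h1.1, h1.2, h2.1, h2.2]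

lemma WB_add {n : ℕ} {A A' : Module.End ℝ (ℤ × ℤ → ℝ)} (h : WB n A) (h' : WB n A') :
    WB n (A + A') := by
  obtain ⟨K, hK, h⟩ := h
  obtain ⟨K', hK', h'⟩ := h'
  refine ⟨K + K', add_nonneg hK hK', ?_⟩
  intro g M B hB hg j
  have h1 := h g M B hB hg j
  have h2 := h' g M B hB hg j
  rw [LinearMap.add_apply, Pi.add_apply]
  rw [abs_le] at h1 h2 ⊢
  constructor <;> nlinarith [h1.1, h1.2, h2.1, h2.2]

lemma WB_mul {n : ℕ} {A A' : Module.End ℝ (ℤ × ℤ → ℝ)} (h : WB n A) (h' : WB n A') :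
    WB n (A * A') := by
  obtain ⟨K, hK, h⟩ := h
  obtain ⟨K', hK', h'⟩ := h'
  refine ⟨K * K', mul_nonneg hK hK', ?_⟩
  intro g M B hB hg j
  have h1 := h (A' g) M (K' * B) (mul_nonneg hK' hB) (fun j => h' g M B hB hg j) j
  rw [Module.End.mul_apply]
  calc _ ≤ _ := h1
    _ = _ := by ring

lemma WB_zero (n : ℕ) : WB n 0 := by
  refine ⟨0, le_rfl, ?_⟩
  intro g M B _ h j
  simp

lemma WB_pow {n : ℕ} {A : Module.End ℝ (ℤ × ℤ → ℝ)} (h : WB n A) (a : ℕ) : WB n (A ^ a) := by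
  induction a with
  | zero => exact WB_one n
  | succ a ih => rw [pow_succ]; exact WB_mul ih h

lemma WB_sum {n : ℕ} {A : ℕ → Module.End ℝ (ℤ × ℤ → ℝ)} (h : ∀ a, WB n (A a)) (s : Finset ℕ) :
    WB n (∑ a ∈ s, A a) := by
  induction s using Finset.induction_on with
  | empty => simpa using WB_zero n
  | insert a s ha ih =>
    rw [Finset.sum_insert ha]
    exact WB_add (h a) ih

namespace Sten

variable {m r : ℕ} (S : Sten m r)

lemma f_mem (e : Fin 4) (i : ℤ × ℤ) : S.f e i ∈ PolyLE (m + r + 1) := by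
  have h1 : conv (S.f e) dl i = S.f e i := by
    funext X
    unfold conv
    rw [tsum_eq_single i]
    · simp [dl]
    · intro j hj
      have : i - j ≠ 0 := sub_ne_zero.2 (Ne.symm hj)
      simp [dl, this]
  rw [← h1]
  exact S.convf_mem e dl i

lemma WB_T (n : ℕ) : WB n S.T := by
  obtain ⟨K, hK, h⟩ := conv_bound n S.hL (fun i => (PolyLE_contDiff (S.hLp i) (n := 0)).continuous)
  refine ⟨K, hK, ?_⟩
  intro g M B hB hg j
  have := h g j (B * wt n (j - M)) (mul_nonneg hB (wt_pos _ _).le)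
    (wt_change n hB hg) (cL j) (by simp)
  rw [T_apply]
  calc _ ≤ _ := this
    _ = _ := by ring

lemma WB_θ (n : ℕ) : WB n S.θ :=
  WB_sum (fun a => WB_pow (WB_sub (WB_one n) (S.WB_T n)) a) _

lemma norm_sub_le_of_tri {M : ℤ × ℤ} {a b : Bool} {X : ℝ × ℝ} (h : X ∈ tri 1 M.1 M.2 a b) :
    ‖X - cL M‖ ≤ 1 := by
  rw [mem_tri_iff] at h
  obtain ⟨h1, h2, h3, h4, -, -⟩ := h
  rw [Prod.norm_def, max_le_iff]
  simp only [Prod.fst_sub, Prod.snd_sub, cL, Real.norm_eq_abs]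
  constructor <;> rw [abs_le] <;> constructor <;> linarith

theorem PP_bound (n : ℕ) : ∃ K, 0 ≤ K ∧ ∀ (g : ℤ × ℤ → ℝ) (M : ℤ × ℤ) (B : ℝ), 0 ≤ B →
      (∀ j, |g j| ≤ B * wt n (j - M)) → ∀ (a b : Bool) (X : ℝ × ℝ), X ∈ tri 1 M.1 M.2 a b →
      |S.PP (S.θ g) M a b X| ≤ K * B := by
  obtain ⟨K0, hK0, h0⟩ := S.WB_θ n
  obtain ⟨K1, hK1, h1⟩ := conv_bound n S.hL
    (fun i => (PolyLE_contDiff (S.hLp i) (n := 0)).continuous)
  obtain ⟨K3, hK3, h3⟩ := conv_bound n (S.hf 3)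
    (fun i => (PolyLE_contDiff (S.f_mem 3 i) (n := 0)).continuous)
  obtain ⟨K2, hK2, h2⟩ := conv_bound n (S.hf 2)
    (fun i => (PolyLE_contDiff (S.f_mem 2 i) (n := 0)).continuous)
  refine ⟨K1 * K0 + K3 * K0 + K2 * (K0 * wt n (1, 0)), ?_, ?_⟩
  · have := (wt_pos n (1, 0)).le
    positivity
  · intro g M B hB hg a b X hX
    have hX1 := norm_sub_le_of_tri hX
    have hθ := h0 g M B hB hg
    have c1 := h1 (S.θ g) M (K0 * B) (mul_nonneg hK0 hB) hθ X (by linarith)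
    have c3 := h3 (S.θ g) M (K0 * B) (mul_nonneg hK0 hB) hθ X (by linarith)
    have hw : 0 ≤ K0 * B * wt n (M + (1, 0) - M) :=
      mul_nonneg (mul_nonneg hK0 hB) (wt_pos _ _).le
    have c2 := h2 (S.θ g) (M + (1, 0)) (K0 * B * wt n (M + (1, 0) - M)) hw
      (wt_change n (mul_nonneg hK0 hB) hθ) X (by
        have e : X - cL (M + (1, 0)) = (X - cL M) - cL (1, 0) := by
          rw [cL_add]; abel
        rw [e]
        have e2 : ‖cL (1, 0)‖ = 1 := by simp [cL, Prod.norm_def]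
        calc _ ≤ ‖X - cL M‖ + ‖cL (1, 0)‖ := norm_sub_le _ _
          _ ≤ 2 := by rw [e2]; linarith)
    rw [add_sub_cancel_left] at c2
    unfold PP
    have d3 : |if a then conv (S.f 3) (S.θ g) M X else 0| ≤ K3 * (K0 * B) := by
      cases a
      · simp; positivity
      · simpa using c3
    have d2 : |if b then conv (S.f 2) (S.θ g) (M + (1, 0)) X else 0| ≤
        K2 * (K0 * B * wt n (1, 0)) := by
      cases b
      · simp
        have := (wt_pos n (1, 0)).le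
        positivity
      · simpa using c2
    calc _ ≤ |conv S.L (S.θ g) M X| + |if a then conv (S.f 3) (S.θ g) M X else 0| +
          |if b then conv (S.f 2) (S.θ g) (M + (1, 0)) X else 0| := by
          refine (abs_add_le _ _).trans ?_
          exact add_le_add (abs_add_le _ _) le_rfl
      _ ≤ K1 * (K0 * B) + K3 * (K0 * B) + K2 * (K0 * B * wt n (1, 0)) := by
          linarith
      _ = _ := by ring

lemma PP_add (g g' : ℤ × ℤ → ℝ) (M : ℤ × ℤ) (a b : Bool) (X : ℝ × ℝ) :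
    S.PP (g + g') M a b X = S.PP g M a b X + S.PP g' M a b X := by
  unfold PP
  have e1 : conv S.L (g + g') M X = _ := conv_add S.hL g g' M X
  have e3 : conv (S.f 3) (g + g') M X = _ := conv_add (S.hf 3) g g' M X
  have e2 : conv (S.f 2) (g + g') (M + (1, 0)) X = _ := conv_add (S.hf 2) g g' (M + (1, 0)) X
  rw [e1, e2, e3]
  cases a <;> cases b <;> simp <;> ring

end Sten

/-! ### Taylor polynomials -/

open scoped Nat in
lemma multi_mem (n : ℕ) (A : (ℝ × ℝ) [×n]→L[ℝ] ℝ) :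
    (fun v : ℝ × ℝ => A (fun _ => v)) ∈ PolyLE n := by
  classical
  have h1 : (fun v : ℝ × ℝ => A (fun _ => v)) = fun v : ℝ × ℝ =>
      ∑ s : Finset (Fin n), (A (s.piecewise (fun _ => ((1, 0) : ℝ × ℝ)) (fun _ => (0, 1)))) *
        (v.1 ^ s.card * v.2 ^ (n - s.card)) := by
    funext v
    have e : (fun _ : Fin n => v) = (fun _ => v.1 • ((1, 0) : ℝ × ℝ)) +
        (fun _ => v.2 • ((0, 1) : ℝ × ℝ)) := by
      funext i
      ext <;> simp
    rw [e, A.map_add_univ]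
    refine Finset.sum_congr rfl fun s _ => ?_
    have e2 : (s.piecewise (fun _ : Fin n => v.1 • ((1, 0) : ℝ × ℝ))
        (fun _ => v.2 • ((0, 1) : ℝ × ℝ))) =
        fun i => (if i ∈ s then v.1 else v.2) •
          (s.piecewise (fun _ => ((1, 0) : ℝ × ℝ)) (fun _ => (0, 1))) i := by
      funext i
      by_cases hi : i ∈ s <;> simp [hi]
    rw [e2, A.map_smul_univ, smul_eq_mul, mul_comm, Finset.prod_ite]
    congr 1
    simp only [Finset.prod_const]
    congr 2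
    · congr 1; ext i; simp
    · have : (Finset.univ.filter fun i : Fin n => i ∉ s) = sᶜ := by ext i; simp
      rw [this, Finset.card_compl, Fintype.card_fin]
  rw [h1]
  refine sum_mem'' _ _ fun s _ => const_mul_mem (mono_mem ?_) _
  have := s.card_le_univ
  rw [Fintype.card_fin] at this
  omega

theorem exists_taylor {k : ℕ} {F : ℝ × ℝ → ℝ} (hF : ContDiff ℝ (k + 1 : ℕ) F) {C : ℝ}
    (hC : ∀ x, ‖iteratedFDeriv ℝ (k + 1) F x‖ ≤ C) (x : ℝ × ℝ) :
    ∃ p ∈ PolyLE k, p x = F x ∧ ∀ y, |F y - p y| ≤ C * ‖y - x‖ ^ (k + 1) := by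
  refine ⟨fun y => ∑ j ∈ range (k + 1), ((j.factorial : ℝ))⁻¹ *
    iteratedFDeriv ℝ j F x (fun _ => y - x), ?_, ?_, ?_⟩
  · refine sum_mem'' _ _ fun j hj => const_mul_mem ?_ _
    have h1 := comp_sub_mem (multi_mem j (iteratedFDeriv ℝ j F x)) x
    rw [Finset.mem_range] at hj
    exact PolyLE_mono (by omega) h1
  · show ∑ j ∈ range (k + 1), ((j.factorial : ℝ))⁻¹ *
      iteratedFDeriv ℝ j F x (fun _ => x - x) = F x
    rw [Finset.sum_eq_single 0]
    · simp
    · intro j _ hj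
      have : iteratedFDeriv ℝ j F x (fun _ => x - x) = 0 := by
        exact (iteratedFDeriv ℝ j F x).map_coord_zero (m := fun _ => x - x)
          (⟨0, by omega⟩ : Fin j) (by simp)
      rw [this, mul_zero]
    · intro h; exact absurd (Finset.mem_range.2 (by omega)) h
  · intro y
    have h1 := map_add_eq_sum_add_integral_iteratedFDeriv (f := F) (x := x) (y := y - x) (n := k)
      (fun t _ => by
        have : ContDiff ℝ ((k : WithTop ℕ∞) + 1) F := by exact_mod_cast hF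
        exact this.contDiffAt)
    rw [add_sub_cancel] at h1
    have h2 : F y - ∑ j ∈ range (k + 1), ((j.factorial : ℝ))⁻¹ *
        iteratedFDeriv ℝ j F x (fun _ => y - x) = ((k.factorial : ℝ))⁻¹ *
        ∫ t in (0 : ℝ)..1, (1 - t) ^ k • iteratedFDeriv ℝ (k + 1) F (x + t • (y - x))
          (fun _ => y - x) := by
      rw [sub_eq_iff_eq_add, add_comm]
      simpa only [smul_eq_mul] using h1
    show |F y - ∑ j ∈ range (k + 1), ((j.factorial : ℝ))⁻¹ *
        iteratedFDeriv ℝ j F x (fun _ => y - x)| ≤ _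
    rw [h2, abs_mul]
    have hC0 : 0 ≤ C := (norm_nonneg _).trans (hC x)
    have h3 : ‖∫ t in (0 : ℝ)..1, (1 - t) ^ k • iteratedFDeriv ℝ (k + 1) F (x + t • (y - x))
          (fun _ => y - x)‖ ≤ (C * ‖y - x‖ ^ (k + 1)) * |(1 : ℝ) - 0| := by
      refine intervalIntegral.norm_integral_le_of_norm_le_const (fun t ht => ?_)
      rw [Set.uIoc_of_le zero_le_one, Set.mem_Ioc] at ht
      rw [norm_smul, norm_pow]
      have e1 : ‖1 - t‖ ^ k ≤ 1 := by
        refine pow_le_one₀ (norm_nonneg _) ?_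
        rw [Real.norm_eq_abs, abs_le]
        constructor <;> linarith [ht.1, ht.2]
      have e2 : ‖iteratedFDeriv ℝ (k + 1) F (x + t • (y - x)) (fun _ => y - x)‖ ≤
          C * ‖y - x‖ ^ (k + 1) := by
        refine (ContinuousMultilinearMap.le_opNorm _ _).trans ?_
        rw [Finset.prod_const, Finset.card_univ, Fintype.card_fin]
        exact mul_le_mul_of_nonneg_right (hC _) (by positivity)
      calc _ ≤ 1 * (C * ‖y - x‖ ^ (k + 1)) :=
            mul_le_mul e1 e2 (norm_nonneg _) zero_le_one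
        _ = _ := one_mul _
    rw [sub_zero, abs_one, mul_one, Real.norm_eq_abs] at h3
    have h4 : |((k.factorial : ℝ))⁻¹| ≤ 1 := by
      rw [abs_of_nonneg (by positivity)]
      refine inv_le_one_of_one_le₀ ?_
      exact_mod_cast k.factorial_pos
    calc _ ≤ 1 * (C * ‖y - x‖ ^ (k + 1)) :=
          mul_le_mul h4 h3 (abs_nonneg _) zero_le_one
      _ = _ := one_mul _

/-- the main estimate -/
theorem Sten.approx {m r : ℕ} (S : Sten m r) : ∃ K, 0 ≤ K ∧ ∀ (F : ℝ × ℝ → ℝ) (C : ℝ),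
    ContDiff ℝ (m + r + 1 + 1 : ℕ) F → (∀ x, ‖iteratedFDeriv ℝ (m + r + 1 + 1) F x‖ ≤ C) →
    ∀ h : ℝ, 0 < h → ∃ s ∈ SplineSpace (m + r + 1) r h,
      ∀ x, |F x - s x| ≤ K * (C * h ^ (m + r + 1 + 1)) := by
  set k := m + r + 1 with hk
  obtain ⟨K, hK, hPP⟩ := S.PP_bound (k + 1)
  refine ⟨K * 2 ^ (k + 1), by positivity, ?_⟩
  intro F C hF hC h hh
  have hC0 : 0 ≤ C := (norm_nonneg _).trans (hC 0)
  set g : ℤ × ℤ → ℝ := fun j => F (h * (cL j).1, h * (cL j).2) with hg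
  obtain ⟨s, hs, hE⟩ := S.exists_scaled (S.θ g) hh
  refine ⟨s, hs, fun x => ?_⟩
  set X : ℝ × ℝ := (h⁻¹ * x.1, h⁻¹ * x.2) with hX
  obtain ⟨a, b, htri⟩ := Sten.exists_bool (⌊X.1⌋, ⌊X.2⌋) X (Int.floor_le _)
    (Int.lt_floor_add_one _).le (Int.floor_le _) (Int.lt_floor_add_one _).le
  set M : ℤ × ℤ := (⌊X.1⌋, ⌊X.2⌋) with hM
  have ex : x = (h * X.1, h * X.2) := by
    ext
    · simp only [hX]; field_simp
    · simp only [hX]; field_simp
  have hsx : s x = S.PP (S.θ g) M a b X := by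
    conv_lhs => rw [ex]
    exact hE M a b X htri
  obtain ⟨p, hp, hpx, hpy⟩ := exists_taylor hF hC x
  set P : ℝ × ℝ → ℝ := fun Y => p (h * Y.1, h * Y.2) with hP
  have hPm : P ∈ PolyLE k := by
    have := comp_affine_mem hp h 0 0
    simpa using this
  have hrep := S.reproduce hPm M a b X
  have hPX : P X = F x := by
    simp only [hP]
    rw [← ex, hpx]
  set R : ℤ × ℤ → ℝ := g - fun j => P (cL j) with hR
  have hgR : g = (fun j => P (cL j)) + R := by rw [hR]; abel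
  have h1 : S.PP (S.θ g) M a b X = F x + S.PP (S.θ R) M a b X := by
    conv_lhs => rw [hgR]
    rw [map_add, S.PP_add, hrep, hPX]
  have hRb : ∀ j, |R j| ≤ (C * h ^ (k + 1) * 2 ^ (k + 1)) * wt (k + 1) (j - M) := by
    intro j
    have h2 := hpy (h * (cL j).1, h * (cL j).2)
    have h3 : R j = F (h * (cL j).1, h * (cL j).2) - p (h * (cL j).1, h * (cL j).2) := rfl
    rw [h3]
    refine h2.trans ?_
    have h4 : ((h * (cL j).1, h * (cL j).2) : ℝ × ℝ) - x = h • (cL j - X) := by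
      conv_lhs => rw [ex]
      ext
      · simp; ring
      · simp; ring
    rw [h4, norm_smul, Real.norm_eq_abs, abs_of_pos hh, mul_pow]
    have h5 : ‖cL j - X‖ ≤ 2 * (1 + ‖cL (j - M)‖) := by
      have e : cL j - X = cL (j - M) - (X - cL M) := by
        rw [cL_sub]; abel
      rw [e]
      have e2 := norm_sub_le (cL (j - M)) (X - cL M)
      have e3 := Sten.norm_sub_le_of_tri htri
      have e4 := norm_nonneg (cL (j - M))
      linarith
    have h6 : ‖cL j - X‖ ^ (k + 1) ≤ 2 ^ (k + 1) * wt (k + 1) (j - M) := by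
      unfold wt
      rw [← mul_pow]
      exact pow_le_pow_left₀ (norm_nonneg _) h5 _
    calc C * (h ^ (k + 1) * ‖cL j - X‖ ^ (k + 1))
        ≤ C * (h ^ (k + 1) * (2 ^ (k + 1) * wt (k + 1) (j - M))) := by
          refine mul_le_mul_of_nonneg_left ?_ hC0
          exact mul_le_mul_of_nonneg_left h6 (by positivity)
      _ = _ := by ring
  have h7 := hPP R M _ (by positivity) hRb a b X htri
  rw [hsx, h1]
  have e : F x - (F x + S.PP (S.θ R) M a b X) = -(S.PP (S.θ R) M a b X) := by ring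
  rw [e, abs_neg]
  calc _ ≤ _ := h7
    _ = _ := by ring

end Pool.MP_ed6410
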