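import Pool.Agent.Lib.MP_ed6410_an.Jump

/-!
# The algebraic condition `N1`
-/

open Finset Polynomial
open scoped fwdDiff

namespace Pool.MP_ed6410

/-- binary form of degree `m` with coefficient sequence `a` -/
noncomputable def hom (m : ℕ) (a : ℕ → ℝ) (X : ℝ × ℝ) : ℝ :=
  ∑ j ∈ range (m + 1), a j * (X.1 ^ (m - j) * X.2 ^ j)

lemma hom_add (m : ℕ) (a b : ℕ → ℝ) (X : ℝ × ℝ) :
    hom m (a + b) X = hom m a X + hom m b X := by
  simp [hom, add_mul, Finset.sum_add_distrib]

lemma hom_smul (m : ℕ) (c : ℝ) (a : ℕ → ℝ) (X : ℝ × ℝ) :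
    hom m (c • a) X = c * hom m a X := by
  simp [hom, Finset.mul_sum, mul_assoc]

lemma hom_zero (m : ℕ) (X : ℝ × ℝ) : hom m 0 X = 0 := by simp [hom]

lemma hom_single (m j : ℕ) (hj : j ≤ m) (X : ℝ × ℝ) :
    hom m (Pi.single j 1) X = X.1 ^ (m - j) * X.2 ^ j := by
  unfold hom
  rw [Finset.sum_eq_single j]
  · simp
  · intro i _ hi; simp [hi]
  · intro h; exact absurd (Finset.mem_range.2 (by omega)) h

/-- first component of the field attached to four forms -/
noncomputable def fld1 (m r : ℕ) (q : Fin 4 → ℕ → ℝ) (X : ℝ × ℝ) : ℝ :=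
  X.1 ^ (r + 1) * hom m (q 0) X + (X.1 + X.2) ^ (r + 1) * hom m (q 2) X
    + (X.1 - X.2) ^ (r + 1) * hom m (q 3) X

/-- second component of the field attached to four forms -/
noncomputable def fld2 (m r : ℕ) (q : Fin 4 → ℕ → ℝ) (X : ℝ × ℝ) : ℝ :=
  X.2 ^ (r + 1) * hom m (q 1) X + (X.1 + X.2) ^ (r + 1) * hom m (q 2) X
    - (X.1 - X.2) ^ (r + 1) * hom m (q 3) X

/-- the submodule `J` of pairs of functions -/
noncomputable def J (m r : ℕ) : Submodule ℝ ((ℝ × ℝ → ℝ) × (ℝ × ℝ → ℝ)) where
  carrier := {F | ∃ q : Fin 4 → ℕ → ℝ, F = (fld1 m r q, fld2 m r q)}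
  zero_mem' := ⟨0, by
    ext X <;> simp [fld1, fld2, hom]⟩
  add_mem' := by
    rintro _ _ ⟨q, rfl⟩ ⟨q', rfl⟩
    refine ⟨q + q', ?_⟩
    ext X
    · simp only [fld1, Pi.add_apply, Prod.mk_add_mk, hom_add]; ring
    · simp only [fld2, Pi.add_apply, Prod.mk_add_mk, hom_add]; ring
  smul_mem' := by
    rintro c _ ⟨q, rfl⟩
    refine ⟨c • q, ?_⟩
    ext X
    · simp only [fld1, Pi.smul_apply, Prod.smul_mk, hom_smul, smul_eq_mul]; ring
    · simp only [fld2, Pi.smul_apply, Prod.smul_mk, hom_smul, smul_eq_mul]; ring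

/-- the monomial of degree `k` with `y`-exponent `n` -/
noncomputable def mon (k n : ℕ) : ℝ × ℝ → ℝ := fun X => X.1 ^ (k - n) * X.2 ^ n

/-- the target pair of functions -/
noncomputable def tgt (k i : ℕ) : (ℝ × ℝ → ℝ) × (ℝ × ℝ → ℝ) :=
  ((k.choose i : ℝ) • mon k i, if i = 0 then 0 else (k.choose (i - 1) : ℝ) • mon k (i - 1))

/-- condition `N1`: the gradients of all forms of degree `k + 1` lie in `J` -/
def N1 (m r : ℕ) : Prop := ∀ i ≤ m + r + 2, tgt (m + r + 1) i ∈ J m r

/-- a sequence with vanishing `(r+1)`-st differences agrees with a polynomial -/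
lemma poly_of_diff {k m r : ℕ} (hk : k = m + r + 1) (d : ℕ → ℝ)
    (hd : ∀ j ≤ m, ∑ i ∈ range (r + 2), (-1 : ℝ) ^ i * ((r + 1).choose i : ℝ) * d (i + j) = 0) :
    ∃ P : ℝ[X], P.natDegree ≤ r ∧ ∀ n ≤ k, d n = P.eval (n : ℝ) := by
  set P : ℝ[X] := Lagrange.interpolate (range (r + 1)) (fun n : ℕ => (n : ℝ)) d with hP
  have hinj : Set.InjOn (fun n : ℕ => (n : ℝ)) (range (r + 1) : Finset ℕ) := by
    intro a _ b _ hab
    have hab' : (a : ℝ) = b := hab
    exact_mod_cast hab'
  have hdeg : P.natDegree ≤ r := by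
    have h1 := Lagrange.degree_interpolate_lt (r := d) hinj
    rw [Finset.card_range] at h1
    have h2 : P.degree < ((r + 1 : ℕ) : WithBot ℕ) := h1
    have h3 : P.natDegree < r + 1 := by
      by_cases hP0 : P = 0
      · rw [hP0]; simp
      · exact (natDegree_lt_iff_degree_lt hP0).2 h2
    omega
  have hP0 : ∀ n < r + 1, d n = P.eval (n : ℝ) := by
    intro n hn
    rw [hP]
    exact (Lagrange.eval_interpolate_at_node d hinj (Finset.mem_range.2 hn)).symm
  have hPr : ∀ j : ℕ, ∑ i ∈ range (r + 2), (-1 : ℝ) ^ i * ((r + 1).choose i : ℝ) *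
      P.eval ((i + j : ℕ) : ℝ) = 0 := by
    intro j
    have h1 := congrFun (Polynomial.fwdDiff_iter_eq_zero_of_degree_lt (P := P) (n := r + 1)
      (by omega)) (j : ℝ)
    rw [fwdDiff_iter_eq_sum_shift] at h1
    simp only [nsmul_eq_mul, mul_one, Pi.zero_apply] at h1
    have h2 : ∑ i ∈ range (r + 2), (-1 : ℝ) ^ i * ((r + 1).choose i : ℝ) *
        P.eval ((i + j : ℕ) : ℝ) = (-1) ^ (r + 1) * ∑ i ∈ range (r + 1 + 1),
          ((-1 : ℤ) ^ (r + 1 - i) * ((r + 1).choose i : ℤ)) • P.eval ((j : ℝ) + i) := by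
      rw [Finset.mul_sum]
      refine Finset.sum_congr rfl fun i hi => ?_
      rw [Finset.mem_range] at hi
      have h3 : ((-1 : ℝ)) ^ i = (-1) ^ (r + 1) * (-1) ^ (r + 1 - i) := by
        rw [← pow_add]
        have : r + 1 + (r + 1 - i) = i + 2 * (r + 1 - i) := by omega
        rw [this, pow_add, pow_mul]; simp
      rw [h3, zsmul_eq_mul]
      push_cast
      rw [add_comm (i : ℝ) (j : ℝ)]
      ring
    rw [h2, h1, mul_zero]
  refine ⟨P, hdeg, ?_⟩
  intro n
  induction n using Nat.strong_induction_on with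
  | _ n ih =>
    intro hn
    by_cases h1 : n < r + 1
    · exact hP0 n h1
    · have hj : n - (r + 1) ≤ m := by omega
      have e1 := hd (n - (r + 1)) hj
      have e2 := hPr (n - (r + 1))
      rw [Finset.sum_range_succ] at e1 e2
      have e3 : ∑ i ∈ range (r + 1), (-1 : ℝ) ^ i * ((r + 1).choose i : ℝ) *
          d (i + (n - (r + 1))) = ∑ i ∈ range (r + 1), (-1 : ℝ) ^ i * ((r + 1).choose i : ℝ) *
          P.eval ((i + (n - (r + 1)) : ℕ) : ℝ) := by
        refine Finset.sum_congr rfl fun i hi => ?_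
        rw [Finset.mem_range] at hi
        rw [ih (i + (n - (r + 1))) (by omega) (by omega)]
      have e4 : r + 1 + (n - (r + 1)) = n := by omega
      rw [e3] at e1
      rw [e4] at e1 e2
      have e5 : (-1 : ℝ) ^ (r + 1) * ((r + 1).choose (r + 1) : ℝ) ≠ 0 := by simp
      have e6 : (-1 : ℝ) ^ (r + 1) * ((r + 1).choose (r + 1) : ℝ) * (d n - P.eval (n : ℝ)) = 0 := by
        linear_combination e1 - e2
      have e7 := (mul_eq_zero.1 e6).resolve_left e5
      linarith

/-- counting zeros: a polynomial of degree `≤ r` with `r+1` zeros `z 0, …, z r` is zero -/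
lemma poly_zero_of_zeros {r : ℕ} {P : ℝ[X]} (hP : P.natDegree ≤ r) (z : ℕ → ℕ)
    (hinj : ∀ a ≤ r, ∀ b ≤ r, z a = z b → a = b) (hz : ∀ a ≤ r, P.eval ((z a : ℕ) : ℝ) = 0) :
    P = 0 := by
  apply Polynomial.eq_zero_of_natDegree_lt_card_of_eval_eq_zero' P
    ((range (r + 1)).image (fun a => ((z a : ℕ) : ℝ)))
  · intro x hx
    rw [Finset.mem_image] at hx
    obtain ⟨a, ha, rfl⟩ := hx
    rw [Finset.mem_range] at ha
    exact hz a (by omega)
  · rw [Finset.card_image_of_injOn]
    · simp; omega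
    · intro a ha b hb hab
      simp only [Finset.coe_range, Set.mem_Iio] at ha hb
      have hab' : ((z a : ℕ) : ℝ) = ((z b : ℕ) : ℝ) := hab
      exact hinj a (by omega) b (by omega) (by exact_mod_cast hab')

/-- main case of `N1` -/
lemma N1_main {m r : ℕ} (hmr : r ≤ m) (h : r < m ∨ Odd r) : N1 m r := by
  intro i hi
  set k := m + r + 1 with hk
  rw [← Subspace.forall_mem_dualAnnihilator_apply_eq_zero_iff]
  intro φ hφ
  rw [Submodule.mem_dualAnnihilator] at hφ
  set u : ℕ → ℝ := fun n => φ (mon k n, 0) with hu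
  set v : ℕ → ℝ := fun n => φ (0, mon k n) with hv
  have hgen : ∀ q : Fin 4 → ℕ → ℝ, φ (fld1 m r q, fld2 m r q) = 0 := fun q => hφ _ ⟨q, rfl⟩
  -- vertical
  have hu0 : ∀ j ≤ m, u j = 0 := by
    intro j hj
    have h1 := hgen (fun e => if e = 0 then Pi.single j 1 else 0)
    rw [← h1, hu]
    simp only
    congr 1
    ext X
    · simp only [fld1, Fin.reduceEq, if_true, if_false, hom_single m j hj, hom_zero, mon]
      have : k - j = (r + 1) + (m - j) := by omega
      rw [this, pow_add]; ring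
    · simp [fld2, hom_zero]
  have hv0 : ∀ j ≤ m, v (j + (r + 1)) = 0 := by
    intro j hj
    have h1 := hgen (fun e => if e = 1 then Pi.single j 1 else 0)
    rw [← h1, hv]
    simp only
    congr 1
    ext X
    · simp [fld1, hom_zero]
    · simp only [fld2, Fin.reduceEq, if_true, if_false, hom_single m j hj, hom_zero, mon]
      have : k - (j + (r + 1)) = m - j := by omega
      rw [this, pow_add]; ring
  have hexp : ∀ (β : ℝ) (j : ℕ), j ≤ m → (fun X : ℝ × ℝ => (X.1 + β * X.2) ^ (r + 1) *
      (X.1 ^ (m - j) * X.2 ^ j)) = ∑ i ∈ range (r + 2),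
        (β ^ i * ((r + 1).choose i : ℝ)) • mon k (i + j) := by
    intro β j hj
    funext X
    rw [add_comm (X.1) (β * X.2), add_pow, Finset.sum_mul]
    simp only [Finset.sum_apply, Pi.smul_apply, smul_eq_mul, mon]
    refine Finset.sum_congr rfl fun i hi => ?_
    rw [Finset.mem_range] at hi
    have : k - (i + j) = (r + 1 - i) + (m - j) := by omega
    rw [this, pow_add, pow_add, mul_pow]
    ring
  have hp : ∀ j ≤ m, ∑ i ∈ range (r + 2), ((r + 1).choose i : ℝ) * (u (i + j) + v (i + j)) = 0 := by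
    intro j hj
    have h1 := hgen (fun e => if e = 2 then Pi.single j 1 else 0)
    have h2 : (fld1 m r (fun e => if e = 2 then Pi.single j 1 else 0),
        fld2 m r (fun e => if e = 2 then Pi.single j 1 else 0)) =
        ∑ i ∈ range (r + 2), ((r + 1).choose i : ℝ) • ((mon k (i + j), 0) + (0, mon k (i + j)) :
          (ℝ × ℝ → ℝ) × (ℝ × ℝ → ℝ)) := by
      have e1 := hexp 1 j hj
      have e2 : ∀ X : ℝ × ℝ, (X.1 + X.2) ^ (r + 1) * (X.1 ^ (m - j) * X.2 ^ j) =
          ∑ i ∈ range (r + 2), ((r + 1).choose i : ℝ) * mon k (i + j) X := by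
        intro X
        have := congrFun e1 X
        simpa using this
      ext X
      · simp only [fld1, Fin.reduceEq, if_true, if_false, hom_single m j hj, hom_zero,
          Prod.fst_sum, Prod.smul_fst, Prod.fst_add, add_zero, Finset.sum_apply, Pi.smul_apply,
          smul_eq_mul, mul_zero, zero_add, e2]
      · simp only [fld2, Fin.reduceEq, if_true, if_false, hom_single m j hj, hom_zero,
          Prod.snd_sum, Prod.smul_snd, Prod.snd_add, zero_add, Finset.sum_apply, Pi.smul_apply,
          smul_eq_mul, mul_zero, sub_zero, e2]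
    rw [h2, map_sum] at h1
    rw [← h1]
    refine Finset.sum_congr rfl fun i _ => ?_
    rw [map_smul, map_add, smul_eq_mul]
  have hn : ∀ j ≤ m, ∑ i ∈ range (r + 2), (-1 : ℝ) ^ i * ((r + 1).choose i : ℝ) *
      (u (i + j) - v (i + j)) = 0 := by
    intro j hj
    have h1 := hgen (fun e => if e = 3 then Pi.single j 1 else 0)
    have h2 : (fld1 m r (fun e => if e = 3 then Pi.single j 1 else 0),
        fld2 m r (fun e => if e = 3 then Pi.single j 1 else 0)) =
        ∑ i ∈ range (r + 2), ((-1 : ℝ) ^ i * ((r + 1).choose i : ℝ)) •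
          ((mon k (i + j), 0) - (0, mon k (i + j)) : (ℝ × ℝ → ℝ) × (ℝ × ℝ → ℝ)) := by
      have e1 := hexp (-1) j hj
      have e2 : ∀ X : ℝ × ℝ, (X.1 - X.2) ^ (r + 1) * (X.1 ^ (m - j) * X.2 ^ j) =
          ∑ i ∈ range (r + 2), ((-1 : ℝ) ^ i * ((r + 1).choose i : ℝ)) * mon k (i + j) X := by
        intro X
        have := congrFun e1 X
        simpa [sub_eq_add_neg] using this
      ext X
      · simp only [fld1, Fin.reduceEq, if_true, if_false, hom_single m j hj, hom_zero,
          Prod.fst_sum, Prod.smul_fst, Prod.fst_sub, sub_zero, Finset.sum_apply, Pi.smul_apply,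
          smul_eq_mul, mul_zero, zero_add, e2]
      · simp only [fld2, Fin.reduceEq, if_true, if_false, hom_single m j hj, hom_zero,
          Prod.snd_sum, Prod.smul_snd, Prod.snd_sub, zero_sub, Finset.sum_apply, Pi.smul_apply,
          smul_eq_mul, mul_zero, add_zero, e2, Pi.neg_apply, mul_neg, Finset.sum_neg_distrib]
    rw [h2, map_sum] at h1
    rw [← h1]
    refine Finset.sum_congr rfl fun i _ => ?_
    rw [map_smul, map_sub, smul_eq_mul]
  -- the two polynomials
  obtain ⟨P, hPd, hP⟩ := poly_of_diff hk (fun n => u n - v n) hn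
  obtain ⟨R, hRd, hR⟩ := poly_of_diff hk (fun n => (-1 : ℝ) ^ n * (u n + v n)) (by
    intro j hj
    have h1 := hp j hj
    have h2 : ∑ i ∈ range (r + 2), (-1 : ℝ) ^ i * ((r + 1).choose i : ℝ) *
        ((-1 : ℝ) ^ (i + j) * (u (i + j) + v (i + j))) = (-1) ^ j *
        ∑ i ∈ range (r + 2), ((r + 1).choose i : ℝ) * (u (i + j) + v (i + j)) := by
      rw [Finset.mul_sum]
      refine Finset.sum_congr rfl fun i _ => ?_
      have : (-1 : ℝ) ^ i * (-1) ^ i = 1 := by rw [← mul_pow]; simp
      rw [pow_add]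
      linear_combination (((r + 1).choose i : ℝ) * (-1) ^ j * (u (i + j) + v (i + j))) * this
    rw [h2, h1, mul_zero])
  have hA : P + R = 0 := by
    refine poly_zero_of_zeros (r := r) ((natDegree_add_le _ _).trans (max_le hPd hRd))
      (fun a => if Even a then a else if Odd r then a + r + 1 else a + r) ?_ ?_
    · intro a ha b hb hab
      split_ifs at hab <;> grind
    · intro a ha
      split_ifs with h1 h2
      · -- a even, a ≤ m
        have e1 := hP a (by omega)
        have e2 := hR a (by omega)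
        rw [hu0 a (by omega)] at e1 e2
        rw [h1.neg_one_pow] at e2
        rw [eval_add, ← e1, ← e2]; ring
      · have e0 := hv0 (a) (by omega)
        have e1 := hP (a + r + 1) (by grind)
        have e2 := hR (a + r + 1) (by grind)
        rw [← add_assoc] at e0
        have h3 : Odd (a + r + 1) := by grind
        rw [h3.neg_one_pow] at e2
        rw [e0] at e1 e2
        push_cast at e1 e2 ⊢
        rw [eval_add, ← e1, ← e2]; ring
      · have h4 : 1 ≤ a := by grind
        have e0 := hv0 (a - 1) (by omega)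
        have h5 : a - 1 + (r + 1) = a + r := by omega
        rw [h5] at e0
        have e1 := hP (a + r) (by omega)
        have e2 := hR (a + r) (by omega)
        have h3 : Odd (a + r) := by grind
        rw [h3.neg_one_pow] at e2
        rw [e0] at e1 e2
        push_cast at e1 e2 ⊢
        rw [eval_add, ← e1, ← e2]; ring
  have hB : P - R = 0 := by
    refine poly_zero_of_zeros (r := r) ((natDegree_sub_le _ _).trans (max_le hPd hRd))
      (fun a => if Odd a then a else if Odd r then a + r + 1 else a + r + 2) ?_ ?_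
    · intro a ha b hb hab
      split_ifs at hab <;> grind
    · intro a ha
      split_ifs with h1 h2
      · have e1 := hP a (by omega)
        have e2 := hR a (by omega)
        rw [hu0 a (by omega)] at e1 e2
        rw [h1.neg_one_pow] at e2
        rw [eval_sub, ← e1, ← e2]; ring
      · have e0 := hv0 (a) (by omega)
        have e1 := hP (a + r + 1) (by grind)
        have e2 := hR (a + r + 1) (by grind)
        rw [← add_assoc] at e0
        have h3 : Even (a + r + 1) := by grind
        rw [h3.neg_one_pow] at e2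
        rw [e0] at e1 e2
        push_cast at e1 e2 ⊢
        rw [eval_sub, ← e1, ← e2]; ring
      · have hrm : r < m := by
          rcases h with h | h
          · exact h
          · exact absurd h h2
        have e0 := hv0 (a + 1) (by omega)
        have h5 : a + 1 + (r + 1) = a + r + 2 := by omega
        rw [h5] at e0
        have e1 := hP (a + r + 2) (by omega)
        have e2 := hR (a + r + 2) (by omega)
        have h3 : Even (a + r + 2) := by grind
        rw [h3.neg_one_pow] at e2
        rw [e0] at e1 e2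
        push_cast at e1 e2 ⊢
        rw [eval_sub, ← e1, ← e2]; ring
  have hP0 : P = 0 := by
    have : (2 : ℝ) • P = 0 := by
      rw [two_smul]; linear_combination hA + hB
    simpa using this
  have hR0 : R = 0 := by rw [hP0, zero_add] at hA; exact hA
  have huv : ∀ n ≤ k, u n = 0 ∧ v n = 0 := by
    intro n hn
    have e1 := hP n hn
    have e2 := hR n hn
    rw [hP0] at e1
    rw [hR0] at e2
    simp only [eval_zero] at e1 e2
    have e3 : u n + v n = 0 := by
      rcases mul_eq_zero.1 e2 with h | h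
      · exact absurd h (pow_ne_zero _ (by norm_num))
      · exact h
    constructor <;> linarith
  -- conclusion
  have hfin : tgt k i = (k.choose i : ℝ) • (mon k i, 0) +
      (if i = 0 then 0 else (k.choose (i - 1) : ℝ) • (0, mon k (i - 1))) := by
    unfold tgt
    split_ifs with h1
    · ext X <;> simp
    · ext X <;> simp
  rw [hfin, map_add, map_smul]
  have e1 : (k.choose i : ℝ) • φ (mon k i, 0) = 0 := by
    by_cases h1 : i ≤ k
    · have := (huv i h1).1
      simp only [hu] at this
      rw [this]; simp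
    · rw [Nat.choose_eq_zero_of_lt (by omega)]; simp
  rw [e1, zero_add]
  split_ifs with h1
  · simp
  · rw [map_smul]
    have := (huv (i - 1) (by omega)).2
    simp only [hv] at this
    rw [this]; simp

lemma hom_m0 (a : ℕ → ℝ) (X : ℝ × ℝ) : hom 0 a X = a 0 := by simp [hom]

lemma N1_00 : N1 0 0 := by
  intro i hi
  have : i = 0 ∨ i = 1 ∨ i = 2 := by omega
  rcases this with rfl | rfl | rfl
  · refine ⟨![fun _ => 1, 0, 0, 0], ?_⟩
    ext X <;> simp [tgt, fld1, fld2, mon, hom_m0]
  · refine ⟨![fun _ => -1, fun _ => -1, fun _ => 1, 0], ?_⟩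
    ext X <;> simp [tgt, fld1, fld2, mon, hom_m0]
  · refine ⟨![0, fun _ => 1, 0, 0], ?_⟩
    ext X <;> simp [tgt, fld1, fld2, mon, hom_m0]

lemma N1_01 : N1 0 1 := by
  intro i hi
  have : i = 0 ∨ i = 1 ∨ i = 2 ∨ i = 3 := by omega
  rcases this with rfl | rfl | rfl | rfl
  · refine ⟨![fun _ => 1, 0, 0, 0], ?_⟩
    ext X <;> simp [tgt, fld1, fld2, mon, hom_m0]
  · refine ⟨![0, fun _ => -1, fun _ => 1 / 2, fun _ => - 1 / 2], ?_⟩
    ext X
    · simp [tgt, fld1, fld2, mon, hom_m0]; ring
    · simp [tgt, fld1, fld2, mon, hom_m0]; ring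
  · refine ⟨![fun _ => -1, 0, fun _ => 1 / 2, fun _ => 1 / 2], ?_⟩
    ext X
    · simp [tgt, fld1, fld2, mon, hom_m0]; ring
    · simp [tgt, fld1, fld2, mon, hom_m0]; ring
  · refine ⟨![0, fun _ => 1, 0, 0], ?_⟩
    ext X
    · simp [tgt, fld1, fld2, mon, hom_m0]; try decide
    · simp [tgt, fld1, fld2, mon, hom_m0]

/-- `N1` in all good cases -/
theorem N1_good {m r : ℕ} (h : r ≤ 1 ∨ r + 1 ≤ m ∨ (m = r ∧ Odd r)) : N1 m r := by
  by_cases h1 : r ≤ m ∧ (r < m ∨ Odd r)
  · exact N1_main h1.1 h1.2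
  · rcases h with h | h | ⟨h, h'⟩
    · have h2 : (m = 0 ∧ r = 0) ∨ (m = 0 ∧ r = 1) := by
        have : r = 0 ∨ r = 1 := by omega
        rcases this with rfl | rfl
        · left
          refine ⟨?_, rfl⟩
          by_contra h3
          exact h1 ⟨by omega, Or.inl (by omega)⟩
        · right
          refine ⟨?_, rfl⟩
          by_contra h3
          exact h1 ⟨by omega, Or.inr odd_one⟩
      rcases h2 with ⟨rfl, rfl⟩ | ⟨rfl, rfl⟩
      · exact N1_00
      · exact N1_01
    · exact absurd ⟨by omega, Or.inl (by omega)⟩ h1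
    · exact absurd ⟨by omega, Or.inr h'⟩ h1

end Pool.MP_ed6410
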