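import Pool.Agent.Lib.MP_ed6410_an.Pev
import Pool.Agent.Lib.MP_ed6410_an.N1

/-!
# Formal solution of the vertex equation over a nilpotent thickening
-/

open Finset Polynomial
open scoped fwdDiff

namespace Pool.MP_ed6410

section formal

variable {A : Type*} [CommRing A] [Algebra ℝ A]

/-- `F` is a polynomial function of degree `≤ m` with coefficients in the ideal `S` and
`x^m`-coefficient `top` -/
def IsP (S : Ideal A) (m : ℕ) (F : ℝ × ℝ → A) (top : A) : Prop :=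
  ∃ c : ℕ → ℕ → A, (∀ i j, c i j ∈ S) ∧ c m 0 = top ∧ ∀ X, F X = pev m c X

lemma IsP.add {S : Ideal A} {m : ℕ} {F G : ℝ × ℝ → A} {a b : A} (hF : IsP S m F a)
    (hG : IsP S m G b) : IsP S m (fun X => F X + G X) (a + b) := by
  obtain ⟨c, hc, hc', hc''⟩ := hF
  obtain ⟨d, hd, hd', hd''⟩ := hG
  exact ⟨c + d, fun i j => S.add_mem (hc i j) (hd i j), by rw [← hc', ← hd']; rfl,
    fun X => by
      show F X + G X = _
      rw [hc'', hd'', pev_add]⟩

lemma IsP.sub {S : Ideal A} {m : ℕ} {F G : ℝ × ℝ → A} {a b : A} (hF : IsP S m F a)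
    (hG : IsP S m G b) : IsP S m (fun X => F X - G X) (a - b) := by
  obtain ⟨c, hc, hc', hc''⟩ := hF
  obtain ⟨d, hd, hd', hd''⟩ := hG
  exact ⟨c - d, fun i j => S.sub_mem (hc i j) (hd i j), by rw [← hc', ← hd']; rfl,
    fun X => by
      show F X - G X = _
      rw [hc'', hd'', pev_sub]⟩

lemma IsP.mul {S : Ideal A} {m : ℕ} {F : ℝ × ℝ → A} {a : A} (hF : IsP S m F a) (b : A) :
    IsP S m (fun X => b * F X) (b * a) := by
  obtain ⟨c, hc, hc', hc''⟩ := hF
  refine ⟨fun i j => b * c i j, fun i j => S.mul_mem_left _ (hc i j), by rw [← hc'],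
    fun X => ?_⟩
  show b * F X = _
  rw [hc'']
  simp only [pev, Finset.mul_sum, mul_smul_comm]

lemma IsP.smul {S : Ideal A} {m : ℕ} {F : ℝ × ℝ → A} {a : A} (hF : IsP S m F a) (b : ℝ) :
    IsP S m (fun X => b • F X) (b • a) := by
  have := hF.mul (algebraMap ℝ A b)
  simpa [Algebra.smul_def] using this

lemma IsP.zero {S : Ideal A} {m : ℕ} : IsP S m (fun _ => 0) 0 :=
  ⟨0, fun _ _ => S.zero_mem, rfl, fun X => (pev_zero m X).symm⟩

lemma IsP.sum {S : Ideal A} {m : ℕ} {ι : Type*} (s : Finset ι) (F : ι → ℝ × ℝ → A) (a : ι → A)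
    (h : ∀ i ∈ s, IsP S m (F i) (a i)) : IsP S m (fun X => ∑ i ∈ s, F i X) (∑ i ∈ s, a i) := by
  classical
  induction s using Finset.induction_on with
  | empty => simpa using IsP.zero
  | insert i s hi ih =>
    simp only [Finset.sum_insert hi]
    exact (h i (Finset.mem_insert_self _ _)).add (ih fun j hj => h j (Finset.mem_insert_of_mem hj))

lemma IsP.shift {S : Ideal A} {m : ℕ} {F : ℝ × ℝ → A} {a : A} (hF : IsP S m F a) (e : ℝ × ℝ) :
    IsP S m (fun X => F (X + e)) a := by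
  obtain ⟨c, hc, hc', hc''⟩ := hF
  refine ⟨shiftArr m e c, fun i j => ?_, ?_, fun X => ?_⟩
  · unfold shiftArr
    refine S.sum_mem fun i' _ => S.sum_mem fun j' _ => ?_
    rw [Algebra.smul_def]
    exact S.mul_mem_left _ (hc _ _)
  · rw [shiftArr_top, hc']
  · show F (X + e) = _
    rw [hc'', pev_shift]

/-- the operator `1 - Z_e` -/
def TT (ζ : A) (e : ℝ × ℝ) (F : ℝ × ℝ → A) : ℝ × ℝ → A := fun X => F X - ζ * F (X + e)

lemma IsP.TT {S : Ideal A} {m : ℕ} {F : ℝ × ℝ → A} {a : A} (hF : IsP S m F a) (ζ : A)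
    (e : ℝ × ℝ) : IsP S m (TT ζ e F) ((1 - ζ) * a) := by
  have := hF.sub ((hF.shift e).mul ζ)
  have h : a - ζ * a = (1 - ζ) * a := by ring
  rw [h] at this
  exact this

lemma IsP.TT_iter {S : Ideal A} {m : ℕ} {F : ℝ × ℝ → A} {a : A} (hF : IsP S m F a) (ζ : A)
    (e : ℝ × ℝ) (j : ℕ) : IsP S m ((Pool.MP_ed6410.TT ζ e)^[j] F) ((1 - ζ) ^ j * a) := by
  induction j with
  | zero => simpa using hF
  | succ j ih =>
    rw [Function.iterate_succ_apply']
    have := ih.TT ζ e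
    rw [← mul_assoc, ← pow_succ'] at this
    exact this

omit [Algebra ℝ A] in
lemma TT_iter_eq (ζ : A) (e : ℝ × ℝ) (j : ℕ) (F : ℝ × ℝ → A) (X : ℝ × ℝ) :
    (TT ζ e)^[j] F X = (-1) ^ j *
      Δ_[(1 : ℕ)] ^[j] (fun l : ℕ => ζ ^ l * F (X + (l : ℝ) • e)) 0 := by
  induction j generalizing F with
  | zero => simp
  | succ j ih =>
    rw [Function.iterate_succ_apply, Function.iterate_succ_apply, ih]
    have h1 : (fun l : ℕ => ζ ^ l * TT ζ e F (X + (l : ℝ) • e)) =
        (-1 : ℤ) • Δ_[(1 : ℕ)] (fun l : ℕ => ζ ^ l * F (X + (l : ℝ) • e)) := by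
      funext l
      simp only [TT, fwdDiff, Pi.smul_apply, pow_succ]
      have : X + (l : ℝ) • e + e = X + ((l + 1 : ℕ) : ℝ) • e := by
        push_cast; rw [add_smul, one_smul]; abel
      rw [this]
      simp
      ring
    rw [h1, fwdDiff_iter_const_smul]
    simp only [Pi.smul_apply]
    rw [pow_succ]
    simp

/-- the operator `∑_{j<K} (1 - Z_e)^j / (j+1)` -/
noncomputable def QF (ζ : A) (e : ℝ × ℝ) (K : ℕ) (F : ℝ × ℝ → A) : ℝ × ℝ → A :=
  fun X => ∑ j ∈ range K, (1 / ((j : ℝ) + 1)) • (TT ζ e)^[j] F X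

lemma QF_TT (ζ : A) (e : ℝ × ℝ) (K : ℕ) (F : ℝ × ℝ → A) (X : ℝ × ℝ) :
    QF ζ e K F X - ζ * QF ζ e K F (X + e) = NJ K (fun l : ℕ => ζ ^ l * F (X + (l : ℝ) • e)) := by
  unfold QF NJ
  rw [Finset.mul_sum, ← Finset.sum_sub_distrib]
  refine Finset.sum_congr rfl fun j _ => ?_
  rw [← TT_iter_eq, Function.iterate_succ_apply']
  simp only [TT, mul_smul_comm, smul_sub]

lemma QF_IsP {S : Ideal A} {m : ℕ} {F : ℝ × ℝ → A} {a : A} (hF : IsP S m F a) (ζ : A)
    (e : ℝ × ℝ) (K : ℕ) :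
    IsP S m (QF ζ e K F) (∑ j ∈ range K, (1 / ((j : ℝ) + 1)) • ((1 - ζ) ^ j * a)) :=
  IsP.sum _ _ _ fun j _ => (hF.TT_iter ζ e j).smul _

/-! ### the powers of `1 - v` as polynomials in the exponent -/

/-- `l ↦ (1 - v)^l` as a polynomial in `l` -/
noncomputable def zP (N : ℕ) (v : A) : A[X] :=
  ∑ b ∈ range N, C ((-v) ^ b) * (binP b).map (algebraMap ℝ A)

lemma zP_eval (N : ℕ) (v : A) (hv : v ^ N = 0) (l : ℕ) :
    (zP N v).eval (l : A) = (1 - v) ^ l := by
  have h0 : ∀ b, (eval (l : A) ((binP b).map (algebraMap ℝ A))) = (l.choose b : A) := by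
    intro b
    have h1 : (l : A) = algebraMap ℝ A (l : ℝ) := by simp
    rw [h1, eval_map_algebraMap, aeval_algebraMap_apply]
    have := binP_eval b l
    rw [coe_aeval_eq_eval, this]
    simp
  unfold zP
  rw [eval_finsetSum]
  simp only [eval_mul, eval_C, h0]
  rw [sub_eq_add_neg, add_comm, add_pow]
  simp only [one_pow, mul_one]
  have h2 : ∑ b ∈ range N, (-v) ^ b * (l.choose b : A) =
      ∑ b ∈ range (N + l + 1), (-v) ^ b * (l.choose b : A) := by
    apply Finset.sum_subset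
    · intro x; simp only [Finset.mem_range]; omega
    · intro x _ hx
      rw [Finset.mem_range] at hx
      have : (-v) ^ x = 0 := by
        rw [neg_pow, pow_eq_zero_of_le (by omega) hv, mul_zero]
      rw [this, zero_mul]
  have h3 : ∑ b ∈ range (l + 1), (-v) ^ b * (l.choose b : A) =
      ∑ b ∈ range (N + l + 1), (-v) ^ b * (l.choose b : A) := by
    apply Finset.sum_subset
    · intro x; simp only [Finset.mem_range]; omega
    · intro x _ hx
      rw [Finset.mem_range] at hx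
      rw [Nat.choose_eq_zero_of_lt (by omega)]; simp
  rw [h2, h3]

lemma zP_natDegree (N : ℕ) (v : A) : (zP N v).natDegree ≤ N := by
  unfold zP
  refine natDegree_sum_le_of_forall_le _ _ fun b hb => ?_
  rw [Finset.mem_range] at hb
  refine (natDegree_C_mul_le _ _).trans ?_
  refine natDegree_map_le.trans ((binP_natDegree b).trans hb.le)

lemma zP_coeff_zero (N : ℕ) (hN : 0 < N) (v : A) : (zP N v).coeff 0 = 1 := by
  unfold zP
  rw [finsetSum_coeff, Finset.sum_eq_single 0]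
  · rw [coeff_C_mul, coeff_map, binP_coeff_zero]; simp
  · intro b _ hb
    rw [coeff_C_mul, coeff_map, binP_coeff_zero, if_neg hb]; simp
  · intro h; exact absurd (Finset.mem_range.2 hN) h

/-- the logarithm `om = v + v²/2 + …` -/
noncomputable def om (N : ℕ) (v : A) : A := -(zP N v).coeff 1

lemma om_eq (N : ℕ) (v : A) : om N v =
    ∑ b ∈ range N, -((-v) ^ b * algebraMap ℝ A ((binP b).coeff 1)) := by
  unfold om zP
  rw [finsetSum_coeff, ← Finset.sum_neg_distrib]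
  refine Finset.sum_congr rfl fun b _ => ?_
  rw [coeff_C_mul, coeff_map]

lemma om_mem {𝔪 : Ideal A} (N : ℕ) {v : A} (hv : v ∈ 𝔪) : om N v ∈ 𝔪 := by
  rw [om_eq]
  refine 𝔪.sum_mem fun b _ => ?_
  by_cases hb : b = 0
  · subst hb
    have h2 : (binP 0).coeff 1 = 0 := by
      apply coeff_eq_zero_of_natDegree_lt
      have := binP_natDegree 0
      omega
    rw [h2]; simp
  · rw [𝔪.neg_mem_iff]
    refine 𝔪.mul_mem_right _ ?_
    exact Ideal.pow_mem_of_mem _ (𝔪.neg_mem hv) b (by omega)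

lemma om_sub_mem {𝔪 : Ideal A} (N : ℕ) (hN : 2 ≤ N) {v : A} (hv : v ∈ 𝔪) :
    om N v - v ∈ 𝔪 ^ 2 := by
  rw [om_eq]
  obtain ⟨N', rfl⟩ : ∃ N', N = N' + 2 := ⟨N - 2, by omega⟩
  rw [Finset.sum_range_succ', Finset.sum_range_succ']
  have h2 : (binP 0).coeff 1 = 0 := by
    apply coeff_eq_zero_of_natDegree_lt
    have := binP_natDegree 0
    omega
  have h3 : (binP (0 + 1)).coeff 1 = 1 := by
    rw [binP_coeff_one]; simp
  rw [h2, h3]
  simp only [zero_add, pow_one, map_one, mul_one, neg_neg, map_zero, mul_zero, neg_zero, add_zero,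
    add_sub_cancel_right]
  refine (𝔪 ^ 2).sum_mem fun b _ => ?_
  rw [Ideal.neg_mem_iff]
  refine Ideal.mul_mem_right _ _ ?_
  have : (-v) ^ (b + 1 + 1) = (-v) ^ 2 * (-v) ^ b := by rw [← pow_add]; congr 1; omega
  rw [this]
  exact Ideal.mul_mem_right _ _ (Ideal.pow_mem_pow (𝔪.neg_mem hv) 2)

/-! ### directional polynomials -/

/-- `s ↦ hom m a (X + s e)` as a polynomial -/
noncomputable def hP (m : ℕ) (a : ℕ → ℝ) (X e : ℝ × ℝ) : ℝ[X] :=
  ∑ j ∈ range (m + 1), C (a j) * ((C X.1 + C e.1 * Polynomial.X) ^ (m - j) *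
    (C X.2 + C e.2 * Polynomial.X) ^ j)

lemma hP_eval (m : ℕ) (a : ℕ → ℝ) (X e : ℝ × ℝ) (s : ℝ) :
    (hP m a X e).eval s = hom m a (X + s • e) := by
  unfold hP hom
  rw [eval_finsetSum]
  refine Finset.sum_congr rfl fun j _ => ?_
  simp only [eval_mul, eval_C, eval_pow, eval_add, eval_X, Prod.fst_add, Prod.snd_add,
    Prod.smul_fst, Prod.smul_snd, smul_eq_mul]
  ring

lemma hP_natDegree (m : ℕ) (a : ℕ → ℝ) (X e : ℝ × ℝ) : (hP m a X e).natDegree ≤ m := by
  unfold hP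
  refine natDegree_sum_le_of_forall_le _ _ fun j hj => ?_
  rw [Finset.mem_range] at hj
  refine (natDegree_C_mul_le _ _).trans (natDegree_mul_le.trans ?_)
  have h0 : ∀ a b : ℝ, (C a + C b * Polynomial.X : ℝ[X]).natDegree ≤ 1 := by
    intro a b
    rw [add_comm]
    exact natDegree_linear_le
  have h1 := natDegree_pow_le_of_le (m - j) (h0 X.1 e.1)
  have h2 := natDegree_pow_le_of_le j (h0 X.2 e.2)
  omega

lemma hP_coeff_zero (m : ℕ) (a : ℕ → ℝ) (X e : ℝ × ℝ) : (hP m a X e).coeff 0 = hom m a X := by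
  rw [coeff_zero_eq_eval_zero, hP_eval]; simp

lemma hP_coeff_one (m : ℕ) (a : ℕ → ℝ) (X e : ℝ × ℝ) :
    (hP m a X e).coeff 1 = lineDeriv ℝ (hom m a) X e := by
  have h1 : (fun t : ℝ => hom m a (X + t • e)) = fun t => (hP m a X e).eval t := by
    funext t; rw [hP_eval]
  unfold lineDeriv
  rw [h1, Polynomial.deriv, ← coeff_zero_eq_eval_zero, coeff_derivative]
  simp

end formal

end Pool.MP_ed6410
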