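import Pool.Agent.Lib.MP_ed6410_an.Formal

/-!
# Formal solution: the theorem
-/

open Finset Polynomial
open scoped fwdDiff

namespace Pool.MP_ed6410

/-! ### the real identities -/

lemma hom_contDiff (m : ℕ) (a : ℕ → ℝ) : ContDiff ℝ 1 (hom m a) := by
  unfold hom
  fun_prop

lemma real_identity {m r i : ℕ} {q : Fin 4 → ℕ → ℝ}
    (hq : tgt (m + r + 1) i = (fld1 m r q, fld2 m r q)) (X : ℝ × ℝ) :
    X.1 ^ (r + 1) * lineDeriv ℝ (hom m (q 0)) X (0, 1)
      + X.2 ^ (r + 1) * lineDeriv ℝ (hom m (q 1)) X (-1, 0)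
      + (X.1 + X.2) ^ (r + 1) * lineDeriv ℝ (hom m (q 2)) X (-1, 1)
      + (X.1 - X.2) ^ (r + 1) * lineDeriv ℝ (hom m (q 3)) X (1, 1) = 0 := by
  set k := m + r + 1 with hk
  set a0 : ℝ × ℝ → ℝ := fun Y => Y.1 ^ (r + 1) * hom m (q 0) Y with ha0
  set a1 : ℝ × ℝ → ℝ := fun Y => Y.2 ^ (r + 1) * hom m (q 1) Y with ha1
  set a2 : ℝ × ℝ → ℝ := fun Y => (Y.1 + Y.2) ^ (r + 1) * hom m (q 2) Y with ha2
  set a3 : ℝ × ℝ → ℝ := fun Y => (Y.1 - Y.2) ^ (r + 1) * hom m (q 3) Y with ha3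
  have hd : ∀ (a : ℕ → ℝ), Differentiable ℝ (hom m a) := fun a =>
    (hom_contDiff m a).differentiable (by norm_num)
  have d0 : Differentiable ℝ a0 := by
    rw [ha0]; exact (differentiable_fst.pow _).mul (hd _)
  have d1 : Differentiable ℝ a1 := by
    rw [ha1]; exact (differentiable_snd.pow _).mul (hd _)
  have d2 : Differentiable ℝ a2 := by
    rw [ha2]; exact ((differentiable_fst.add differentiable_snd).pow _).mul (hd _)
  have d3 : Differentiable ℝ a3 := by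
    rw [ha3]; exact ((differentiable_fst.sub differentiable_snd).pow _).mul (hd _)
  have e0 : X.1 ^ (r + 1) * lineDeriv ℝ (hom m (q 0)) X (0, 1) = fderiv ℝ a0 X (0, 1) := by
    rw [← (d0 X).lineDeriv_eq_fderiv]
    unfold lineDeriv
    rw [← deriv_const_mul_field]
    congr 1
    funext t
    simp [ha0]
  have e1 : X.2 ^ (r + 1) * lineDeriv ℝ (hom m (q 1)) X (-1, 0) = fderiv ℝ a1 X (-1, 0) := by
    rw [← (d1 X).lineDeriv_eq_fderiv]
    unfold lineDeriv
    rw [← deriv_const_mul_field]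
    congr 1
    funext t
    simp [ha1]
  have e2 : (X.1 + X.2) ^ (r + 1) * lineDeriv ℝ (hom m (q 2)) X (-1, 1) =
      fderiv ℝ a2 X (-1, 1) := by
    rw [← (d2 X).lineDeriv_eq_fderiv]
    unfold lineDeriv
    rw [← deriv_const_mul_field]
    congr 1
    funext t
    simp only [ha2, Prod.fst_add, Prod.snd_add, Prod.smul_fst, Prod.smul_snd, smul_eq_mul]
    congr 2
    ring
  have e3 : (X.1 - X.2) ^ (r + 1) * lineDeriv ℝ (hom m (q 3)) X (1, 1) =
      fderiv ℝ a3 X (1, 1) := by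
    rw [← (d3 X).lineDeriv_eq_fderiv]
    unfold lineDeriv
    rw [← deriv_const_mul_field]
    congr 1
    funext t
    simp only [ha3, Prod.fst_add, Prod.snd_add, Prod.smul_fst, Prod.smul_snd, smul_eq_mul]
    congr 2
    ring
  rw [e0, e1, e2, e3]
  have hF1 : fld1 m r q = a0 + a2 + a3 := rfl
  have hF2 : fld2 m r q = a1 + a2 - a3 := rfl
  have f1 : fderiv ℝ (fld1 m r q) X = fderiv ℝ a0 X + fderiv ℝ a2 X + fderiv ℝ a3 X := by
    rw [hF1, fderiv_add ((d0 X).add (d2 X)) (d3 X), fderiv_add (d0 X) (d2 X)]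
  have f2 : fderiv ℝ (fld2 m r q) X = fderiv ℝ a1 X + fderiv ℝ a2 X - fderiv ℝ a3 X := by
    rw [hF2, fderiv_sub ((d1 X).add (d2 X)) (d3 X), fderiv_add (d1 X) (d2 X)]
  have v1 : ((-1, 0) : ℝ × ℝ) = -(1, 0) := by ext <;> simp
  have v2 : ((-1, 1) : ℝ × ℝ) = (0, 1) - (1, 0) := by ext <;> simp
  have v3 : ((1, 1) : ℝ × ℝ) = (0, 1) + (1, 0) := by ext <;> simp
  have hsum : fderiv ℝ a0 X (0, 1) + fderiv ℝ a1 X (-1, 0) + fderiv ℝ a2 X (-1, 1)
      + fderiv ℝ a3 X (1, 1) = fderiv ℝ (fld1 m r q) X (0, 1) - fderiv ℝ (fld2 m r q) X (1, 0) := by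
    rw [f1, f2, v1, v2, v3, map_neg, map_sub, map_add]
    simp only [add_apply, sub_apply]
    ring
  rw [hsum]
  have g1 : DifferentiableAt ℝ (fld1 m r q) X := by
    rw [hF1]; exact ((d0.add d2).add d3) X
  have g2 : DifferentiableAt ℝ (fld2 m r q) X := by
    rw [hF2]; exact ((d1.add d2).sub d3) X
  rw [← g1.lineDeriv_eq_fderiv, ← g2.lineDeriv_eq_fderiv]
  have t1 : fld1 m r q = (k.choose i : ℝ) • mon k i := by
    have := congrArg Prod.fst hq
    exact this.symm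
  have t2 : fld2 m r q = if i = 0 then 0 else (k.choose (i - 1) : ℝ) • mon k (i - 1) := by
    have := congrArg Prod.snd hq
    exact this.symm
  rw [t1, t2]
  have h1 : lineDeriv ℝ ((k.choose i : ℝ) • mon k i) X (0, 1) =
      (k.choose i : ℝ) * (X.1 ^ (k - i) * (i * X.2 ^ (i - 1))) := by
    unfold lineDeriv
    have : (fun t : ℝ => ((k.choose i : ℝ) • mon k i) (X + t • (0, 1))) = fun t =>
        (k.choose i : ℝ) * (X.1 ^ (k - i) * (X.2 + t) ^ i) := by
      funext t; simp [mon]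
    rw [this]
    have h2 : HasDerivAt (fun t : ℝ => (X.2 + t) ^ i) (i * (X.2 + 0) ^ (i - 1) * 1) 0 :=
      ((hasDerivAt_id (0 : ℝ)).const_add X.2).pow i
    have := ((h2.const_mul (X.1 ^ (k - i))).const_mul (k.choose i : ℝ)).deriv
    rw [this]; simp
  rw [h1]
  split_ifs with hi
  · subst hi
    have : lineDeriv ℝ (0 : ℝ × ℝ → ℝ) X (1, 0) = 0 := by
      unfold lineDeriv
      simp
    rw [this]; simp
  · have h2 : lineDeriv ℝ ((k.choose (i - 1) : ℝ) • mon k (i - 1)) X (1, 0) =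
        (k.choose (i - 1) : ℝ) * (((k - (i - 1) : ℕ) : ℝ) * X.1 ^ (k - (i - 1) - 1) *
          X.2 ^ (i - 1)) := by
      unfold lineDeriv
      have : (fun t : ℝ => ((k.choose (i - 1) : ℝ) • mon k (i - 1)) (X + t • (1, 0))) = fun t =>
          (k.choose (i - 1) : ℝ) * ((X.1 + t) ^ (k - (i - 1)) * X.2 ^ (i - 1)) := by
        funext t; simp [mon]
      rw [this]
      have h2 : HasDerivAt (fun t : ℝ => (X.1 + t) ^ (k - (i - 1)))
          (((k - (i - 1) : ℕ) : ℝ) * (X.1 + 0) ^ (k - (i - 1) - 1) * 1) 0 :=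
        ((hasDerivAt_id (0 : ℝ)).const_add X.1).pow _
      have := ((h2.mul_const (X.2 ^ (i - 1))).const_mul (k.choose (i - 1) : ℝ)).deriv
      rw [this]; simp
    rw [h2]
    have h3 : k - (i - 1) - 1 = k - i := by omega
    rw [h3]
    obtain ⟨i', rfl⟩ : ∃ i', i = i' + 1 := ⟨i - 1, by omega⟩
    simp only [Nat.add_sub_cancel]
    have h4 : (k.choose (i' + 1) : ℝ) * ((i' : ℝ) + 1) = (k.choose i' : ℝ) * ((k - i' : ℕ) : ℝ) := by
      have := Nat.choose_succ_right_eq k i'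
      exact_mod_cast this
    push_cast
    linear_combination (X.1 ^ (k - (i' + 1)) * X.2 ^ i') * h4

lemma top_identity {m r i : ℕ} {q : Fin 4 → ℕ → ℝ}
    (hq : tgt (m + r + 1) i = (fld1 m r q, fld2 m r q)) :
    q 0 0 + q 2 0 + q 3 0 = if i = 0 then 1 else 0 := by
  have h1 := congrFun (congrArg Prod.fst hq) (1, 0)
  have h2 : ∀ a : ℕ → ℝ, hom m a (1, 0) = a 0 := by
    intro a
    unfold hom
    rw [Finset.sum_eq_single 0]
    · simp
    · intro j _ hj; simp [hj]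
    · intro h; exact absurd (Finset.mem_range.2 (by omega)) h
  simp only [tgt, fld1, h2, mon, Pi.smul_apply, one_pow, smul_eq_mul, add_zero, sub_zero,
    one_mul] at h1
  rw [← h1]
  split_ifs with hi
  · subst hi; simp
  · simp [hi]

section formal

variable {A : Type*} [CommRing A] [Algebra ℝ A]

/-- the vertex expression -/
noncomputable def vtx (r : ℕ) (z1 z2 : A) (F : Fin 4 → ℝ × ℝ → A) (X : ℝ × ℝ) : A :=
  X.1 ^ (r + 1) • (F 0 X - (z1 * z2) * F 0 (X + (0, 1)))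
    + X.2 ^ (r + 1) • (F 1 X - z2 * F 1 (X + (-1, 0)))
    + (X.1 + X.2) ^ (r + 1) • (F 2 X - (z1 * z2 ^ 2) * F 2 (X + (-1, 1)))
    + (X.1 - X.2) ^ (r + 1) • (F 3 X - z1 * F 3 (X + (1, 1)))

omit [Algebra ℝ A] in
lemma pow_sub_pow_mem {𝔪 : Ideal A} {a b : A} (ha : a ∈ 𝔪) (hb : b ∈ 𝔪) (hab : a - b ∈ 𝔪 ^ 2)
    (n : ℕ) : a ^ n - b ^ n ∈ 𝔪 ^ (n + 1) := by
  induction n with
  | zero => simp
  | succ n ih =>
    have h : a ^ (n + 1) - b ^ (n + 1) = a ^ n * (a - b) + (a ^ n - b ^ n) * b := by ring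
    rw [h]
    refine Ideal.add_mem _ ?_ ?_
    · have : 𝔪 ^ (n + 1 + 1) = 𝔪 ^ n * 𝔪 ^ 2 := by rw [← pow_add]
      rw [this]
      exact Ideal.mul_mem_mul (Ideal.pow_mem_pow ha n) hab
    · rw [pow_succ 𝔪 (n + 1)]
      exact Ideal.mul_mem_mul ih hb

/-- the polynomial function `q_e(u; X)` -/
noncomputable def qfun (m K : ℕ) (U : ℕ → A) (q : ℕ → ℕ → ℝ) (X : ℝ × ℝ) : A :=
  ∑ i ∈ range K, U i * algebraMap ℝ A (hom m (q i) X)

lemma hom_IsP (m : ℕ) (S : Ideal A) (u : A) (hu : u ∈ S) (a : ℕ → ℝ) :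
    IsP S m (fun X => u * algebraMap ℝ A (hom m a X)) (u * algebraMap ℝ A (a 0)) := by
  refine ⟨fun i j => if i + j = m then u * algebraMap ℝ A (a j) else 0, ?_, ?_, ?_⟩
  · intro i j
    simp only
    split_ifs
    · exact S.mul_mem_right _ hu
    · exact S.zero_mem
  · simp
  · intro X
    show u * algebraMap ℝ A (hom m a X) = _
    unfold pev hom
    have h1 : ∀ i ∈ range (m + 1), ∑ j ∈ range (m + 1 - i), (X.1 ^ i * X.2 ^ j) •
        (if i + j = m then u * algebraMap ℝ A (a j) else 0) =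
        (X.1 ^ i * X.2 ^ (m - i)) • (u * algebraMap ℝ A (a (m - i))) := by
      intro i hi
      rw [Finset.mem_range] at hi
      rw [Finset.sum_eq_single (m - i)]
      · rw [if_pos (by omega)]
      · intro j _ hj
        rw [if_neg (by omega), smul_zero]
      · intro h; exact absurd (Finset.mem_range.2 (by omega)) h
    rw [Finset.sum_congr rfl h1, ← Finset.sum_range_reflect, map_sum, Finset.mul_sum]
    refine Finset.sum_congr rfl fun j hj => ?_
    rw [Finset.mem_range] at hj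
    have h2 : m + 1 - 1 - j = m - j := by omega
    have h3 : m - (m - j) = j := by omega
    rw [h2, h3, Algebra.smul_def]
    simp only [map_mul]
    ring

lemma qfun_IsP (m K : ℕ) (S : Ideal A) (U : ℕ → A) (hU : ∀ i ∈ range K, U i ∈ S)
    (q : ℕ → ℕ → ℝ) :
    IsP S m (qfun m K U q) (∑ i ∈ range K, U i * algebraMap ℝ A (q i 0)) :=
  IsP.sum _ (fun i X => U i * algebraMap ℝ A (hom m (q i) X)) _
    fun i hi => hom_IsP m S (U i) (hU i hi) (q i)

/-- one direction: `(1 - Z_e) Q_e = ω_e q_e - D_e q_e` -/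
lemma dir_identity (m K K' d : ℕ) (U : ℕ → A) (q : ℕ → ℕ → ℝ) (ζ : A) (Z : A[X])
    (hZ : ∀ l : ℕ, Z.eval (l : A) = ζ ^ l) (hZd : Z.natDegree ≤ d) (hZ0 : Z.coeff 0 = 1)
    (hK : d + m ≤ K') (e X : ℝ × ℝ) :
    QF ζ e K' (qfun m K U q) X - ζ * QF ζ e K' (qfun m K U q) (X + e) =
      (-Z.coeff 1) * qfun m K U q X - ∑ i ∈ range K, U i *
        algebraMap ℝ A (lineDeriv ℝ (hom m (q i)) X e) := by
  rw [QF_TT]
  set W : A[X] := ∑ i ∈ range K, C (U i) * (hP m (q i) X e).map (algebraMap ℝ A) with hW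
  have hWe : ∀ l : ℕ, W.eval (l : A) = qfun m K U q (X + (l : ℝ) • e) := by
    intro l
    rw [hW, eval_finsetSum]
    unfold qfun
    refine Finset.sum_congr rfl fun i _ => ?_
    have h1 : (l : A) = algebraMap ℝ A (l : ℝ) := by simp
    rw [eval_mul, eval_C, h1, eval_map_algebraMap, aeval_algebraMap_apply, coe_aeval_eq_eval,
      hP_eval]
  have hWd : W.natDegree ≤ m := by
    rw [hW]
    refine natDegree_sum_le_of_forall_le _ _ fun i _ => ?_
    exact (natDegree_C_mul_le _ _).trans (natDegree_map_le.trans (hP_natDegree _ _ _ _))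
  have h1 : (fun l : ℕ => ζ ^ l * qfun m K U q (X + (l : ℝ) • e)) =
      fun l : ℕ => (Z * W).eval (l : A) := by
    funext l
    rw [eval_mul, hZ, hWe]
  rw [h1, newton_alg _ K' ((natDegree_mul_le).trans ((add_le_add hZd hWd).trans hK)), mul_coeff_one,
    hZ0]
  have hW0 : W.coeff 0 = qfun m K U q X := by
    rw [hW, finsetSum_coeff]
    unfold qfun
    refine Finset.sum_congr rfl fun i _ => ?_
    rw [coeff_C_mul, coeff_map, hP_coeff_zero]
  have hW1 : W.coeff 1 = ∑ i ∈ range K, U i *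
        algebraMap ℝ A (lineDeriv ℝ (hom m (q i)) X e) := by
    rw [hW, finsetSum_coeff]
    refine Finset.sum_congr rfl fun i _ => ?_
    rw [coeff_C_mul, coeff_map, hP_coeff_one]
  rw [hW0, hW1]
  ring

theorem formal_solution {m r N : ℕ} (hN1 : N1 m r) (𝔪 : Ideal A) (h𝔪 : 𝔪 ^ N = ⊥) (hN : 2 ≤ N)
    {v1 v2 : A} (hv1 : v1 ∈ 𝔪) (hv2 : v2 ∈ 𝔪) :
    ∃ c : Fin 4 → ℕ → ℕ → A, (∀ e i j, c e i j ∈ 𝔪 ^ (m + r + 2)) ∧
      (c 0 m 0 + c 2 m 0 + c 3 m 0 - (-v2) ^ (m + r + 2) ∈ 𝔪 ^ (m + r + 3)) ∧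
      ∀ X, vtx r (1 - v1) (1 - v2) (fun e => pev m (c e)) X = 0 := by
  set k := m + r + 1 with hk
  -- the N1 data
  have hex : ∀ i : ℕ, ∃ q : Fin 4 → ℕ → ℝ, i ≤ k + 1 → tgt k i = (fld1 m r q, fld2 m r q) := by
    intro i
    by_cases hi : i ≤ k + 1
    · obtain ⟨q, hq⟩ := hN1 i (by omega)
      exact ⟨q, fun _ => hq⟩
    · exact ⟨0, fun h => absurd h hi⟩
  choose q hq using hex
  set u1 : A := - om N v2 with hu1
  set u2 : A := om N v1 + om N v2 with hu2
  have hu1m : u1 ∈ 𝔪 := 𝔪.neg_mem (om_mem N hv2)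
  have hu2m : u2 ∈ 𝔪 := 𝔪.add_mem (om_mem N hv1) (om_mem N hv2)
  set U : ℕ → A := fun i => u1 ^ (k + 1 - i) * u2 ^ i with hU
  have hUm : ∀ i ∈ range (k + 2), U i ∈ 𝔪 ^ (m + r + 2) := by
    intro i hi
    rw [Finset.mem_range] at hi
    have h1 : m + r + 2 = (k + 1 - i) + i := by omega
    rw [h1, pow_add]
    exact Ideal.mul_mem_mul (Ideal.pow_mem_pow hu1m _) (Ideal.pow_mem_pow hu2m _)
  have hv1N : v1 ^ N = 0 := by
    have := Ideal.pow_mem_pow hv1 N
    rwa [h𝔪, Ideal.mem_bot] at this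
  have hv2N : v2 ^ N = 0 := by
    have := Ideal.pow_mem_pow hv2 N
    rwa [h𝔪, Ideal.mem_bot] at this
  set z1 : A := 1 - v1 with hz1
  set z2 : A := 1 - v2 with hz2
  set Z1 : A[X] := zP N v1 with hZ1
  set Z2 : A[X] := zP N v2 with hZ2
  have hZ1e : ∀ l : ℕ, Z1.eval (l : A) = z1 ^ l := fun l => zP_eval N v1 hv1N l
  have hZ2e : ∀ l : ℕ, Z2.eval (l : A) = z2 ^ l := fun l => zP_eval N v2 hv2N l
  have hZ1d : Z1.natDegree ≤ N := zP_natDegree N v1
  have hZ2d : Z2.natDegree ≤ N := zP_natDegree N v2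
  have hZ10 : Z1.coeff 0 = 1 := zP_coeff_zero N (by omega) v1
  have hZ20 : Z2.coeff 0 = 1 := zP_coeff_zero N (by omega) v2
  have hZ11 : -Z1.coeff 1 = om N v1 := rfl
  have hZ21 : -Z2.coeff 1 = om N v2 := rfl
  set K' : ℕ := 3 * N + m with hK'
  set ζ : Fin 4 → A := ![z1 * z2, z2, z1 * z2 ^ 2, z1] with hζ
  set dr : Fin 4 → ℝ × ℝ := ![(0, 1), (-1, 0), (-1, 1), (1, 1)] with hdr
  set qe : Fin 4 → ℝ × ℝ → A := fun e => qfun m (k + 2) U (fun i => q i e) with hqe
  have hIsP : ∀ e, IsP (𝔪 ^ (m + r + 2)) m (QF (ζ e) (dr e) K' (qe e))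
      (∑ j ∈ range K', (1 / ((j : ℝ) + 1)) • ((1 - ζ e) ^ j *
        (∑ i ∈ range (k + 2), U i * algebraMap ℝ A (q i e 0)))) := fun e =>
    QF_IsP (qfun_IsP m (k + 2) _ U hUm (fun i => q i e)) (ζ e) (dr e) K'
  choose c hc1 hc2 hc3 using hIsP
  refine ⟨c, hc1, ?_, ?_⟩
  · -- the top coefficients
    set top : Fin 4 → A := fun e => ∑ i ∈ range (k + 2), U i * algebraMap ℝ A (q i e 0) with htop
    have htopm : ∀ e, top e ∈ 𝔪 ^ (m + r + 2) := by
      intro e
      refine Ideal.sum_mem _ fun i hi => Ideal.mul_mem_right _ _ (hUm i hi)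
    have hζm : ∀ e, 1 - ζ e ∈ 𝔪 := by
      intro e
      fin_cases e
      · show 1 - z1 * z2 ∈ 𝔪
        have : 1 - z1 * z2 = v1 + v2 - v1 * v2 := by rw [hz1, hz2]; ring
        rw [this]
        exact 𝔪.sub_mem (𝔪.add_mem hv1 hv2) (𝔪.mul_mem_right _ hv1)
      · show 1 - z2 ∈ 𝔪
        rw [hz2, sub_sub_cancel]; exact hv2
      · show 1 - z1 * z2 ^ 2 ∈ 𝔪
        have : 1 - z1 * z2 ^ 2 = v1 * (1 - v2) ^ 2 + v2 * (2 - v2) := by rw [hz1, hz2]; ring
        rw [this]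
        exact 𝔪.add_mem (𝔪.mul_mem_right _ hv1) (𝔪.mul_mem_right _ hv2)
      · show 1 - z1 ∈ 𝔪
        rw [hz1, sub_sub_cancel]; exact hv1
    have hdiff : ∀ e, c e m 0 - top e ∈ 𝔪 ^ (m + r + 3) := by
      intro e
      rw [hc2 e]
      obtain ⟨K'', hK''⟩ : ∃ K'', K' = K'' + 1 := ⟨K' - 1, by omega⟩
      rw [hK'', Finset.sum_range_succ']
      have h0 : (1 / (((0 : ℕ) : ℝ) + 1)) • ((1 - ζ e) ^ 0 *
          (∑ i ∈ range (k + 2), U i * algebraMap ℝ A (q i e 0))) = top e := by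
        simp [htop]
      rw [h0, add_sub_cancel_right]
      refine (𝔪 ^ (m + r + 3)).sum_mem fun j _ => ?_
      rw [Algebra.smul_def]
      refine Ideal.mul_mem_left _ _ ?_
      have h1 : 𝔪 ^ (m + r + 3) = 𝔪 * 𝔪 ^ (m + r + 2) := by rw [← pow_succ']
      rw [h1]
      refine Ideal.mul_mem_mul ?_ (htopm e)
      rw [pow_succ]
      exact Ideal.mul_mem_left _ _ (hζm e)
    have hsum : top 0 + top 2 + top 3 = u1 ^ (m + r + 2) := by
      simp only [htop]
      rw [← Finset.sum_add_distrib, ← Finset.sum_add_distrib]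
      rw [Finset.sum_eq_single 0]
      · have h1 := top_identity (hq 0 (by omega))
        rw [if_pos rfl] at h1
        rw [← mul_add, ← mul_add, ← map_add, ← map_add, h1, map_one, mul_one]
        simp only [hU, pow_zero, mul_one, Nat.sub_zero]
        congr 1
      · intro i hi hne
        rw [Finset.mem_range] at hi
        have h1 := top_identity (hq i (by omega))
        rw [if_neg hne] at h1
        rw [← mul_add, ← mul_add, ← map_add, ← map_add, h1, map_zero, mul_zero]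
      · intro h; exact absurd (Finset.mem_range.2 (by omega)) h
    have hu : u1 ^ (m + r + 2) - (-v2) ^ (m + r + 2) ∈ 𝔪 ^ (m + r + 3) := by
      refine pow_sub_pow_mem hu1m (𝔪.neg_mem hv2) ?_ _
      have : u1 - -v2 = -(om N v2 - v2) := by rw [hu1]; ring
      rw [this]
      exact (𝔪 ^ 2).neg_mem (om_sub_mem N hN hv2)
    have hfin : c 0 m 0 + c 2 m 0 + c 3 m 0 - (-v2) ^ (m + r + 2) =
        (c 0 m 0 - top 0) + (c 2 m 0 - top 2) + (c 3 m 0 - top 3) +
          (u1 ^ (m + r + 2) - (-v2) ^ (m + r + 2)) := by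
      rw [← hsum]; ring
    rw [hfin]
    exact Ideal.add_mem _ (Ideal.add_mem _ (Ideal.add_mem _ (hdiff 0) (hdiff 2)) (hdiff 3)) hu
  · intro X
    unfold vtx
    simp only [← hc3]
    -- the four directions
    have d0 := dir_identity m (k + 2) K' (2 * N) U (fun i => q i 0) (z1 * z2) (Z1 * Z2)
      (fun l => by rw [eval_mul, hZ1e, hZ2e, mul_pow])
      ((natDegree_mul_le).trans (by omega)) (by rw [mul_coeff_zero, hZ10, hZ20, mul_one])
      (by omega) (0, 1) X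
    have d1 := dir_identity m (k + 2) K' N U (fun i => q i 1) z2 Z2
      hZ2e hZ2d hZ20 (by omega) (-1, 0) X
    have d2 := dir_identity m (k + 2) K' (3 * N) U (fun i => q i 2) (z1 * z2 ^ 2) (Z1 * (Z2 * Z2))
      (fun l => by rw [eval_mul, eval_mul, hZ1e, hZ2e, mul_pow, pow_two, mul_pow])
      ((natDegree_mul_le).trans (by
        have := (natDegree_mul_le (p := Z2) (q := Z2)); omega))
      (by rw [mul_coeff_zero, mul_coeff_zero, hZ10, hZ20, mul_one, mul_one])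
      (by omega) (-1, 1) X
    have d3 := dir_identity m (k + 2) K' N U (fun i => q i 3) z1 Z1
      hZ1e hZ1d hZ10 (by omega) (1, 1) X
    rw [mul_coeff_one, hZ10, hZ20] at d0
    rw [mul_coeff_one, mul_coeff_one, mul_coeff_zero, hZ10, hZ20] at d2
    have w0 : -(1 * Z2.coeff 1 + Z1.coeff 1 * 1) = u2 := by
      rw [hu2, ← hZ11, ← hZ21]; ring
    have w1 : -Z2.coeff 1 = -u1 := by rw [hu1, ← hZ21]; ring
    have w2 : -(1 * (1 * Z2.coeff 1 + Z2.coeff 1 * 1) + Z1.coeff 1 * (1 * 1)) = u2 - u1 := by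
      rw [hu2, hu1, ← hZ11, ← hZ21]; ring
    have w3 : -Z1.coeff 1 = u2 + u1 := by
      rw [hu2, hu1, ← hZ11, ← hZ21]; ring
    rw [w0] at d0
    rw [w1] at d1
    rw [w2] at d2
    rw [w3] at d3
    have e0 : QF (ζ 0) (dr 0) K' (qe 0) X - z1 * z2 * QF (ζ 0) (dr 0) K' (qe 0) (X + (0, 1)) =
      u2 * qfun m (k + 2) U (fun i => q i 0) X - ∑ i ∈ range (k + 2), U i *
        algebraMap ℝ A (lineDeriv ℝ (hom m (q i 0)) X (0, 1)) := d0
    have e1 : QF (ζ 1) (dr 1) K' (qe 1) X - z2 * QF (ζ 1) (dr 1) K' (qe 1) (X + (-1, 0)) =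
      -u1 * qfun m (k + 2) U (fun i => q i 1) X - ∑ i ∈ range (k + 2), U i *
        algebraMap ℝ A (lineDeriv ℝ (hom m (q i 1)) X (-1, 0)) := d1
    have e2 : QF (ζ 2) (dr 2) K' (qe 2) X - z1 * z2 ^ 2 *
        QF (ζ 2) (dr 2) K' (qe 2) (X + (-1, 1)) =
      (u2 - u1) * qfun m (k + 2) U (fun i => q i 2) X - ∑ i ∈ range (k + 2), U i *
        algebraMap ℝ A (lineDeriv ℝ (hom m (q i 2)) X (-1, 1)) := d2
    have e3 : QF (ζ 3) (dr 3) K' (qe 3) X - z1 * QF (ζ 3) (dr 3) K' (qe 3) (X + (1, 1)) =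
      (u2 + u1) * qfun m (k + 2) U (fun i => q i 3) X - ∑ i ∈ range (k + 2), U i *
        algebraMap ℝ A (lineDeriv ℝ (hom m (q i 3)) X (1, 1)) := d3
    rw [e0, e1, e2, e3]
    -- regroup
    have hreal : ∀ i ∈ range (k + 2), U i * algebraMap ℝ A
        (X.1 ^ (r + 1) * lineDeriv ℝ (hom m (q i 0)) X (0, 1)
        + X.2 ^ (r + 1) * lineDeriv ℝ (hom m (q i 1)) X (-1, 0)
        + (X.1 + X.2) ^ (r + 1) * lineDeriv ℝ (hom m (q i 2)) X (-1, 1)
        + (X.1 - X.2) ^ (r + 1) * lineDeriv ℝ (hom m (q i 3)) X (1, 1)) = 0 := by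
      intro i hi
      rw [Finset.mem_range] at hi
      rw [real_identity (hq i (by omega)) X, map_zero, mul_zero]
    have hreal' := Finset.sum_eq_zero hreal
    have hF1 : ∀ i ∈ range (k + 2), U i * algebraMap ℝ A (X.1 ^ (r + 1) * hom m (q i 0) X +
        (X.1 + X.2) ^ (r + 1) * hom m (q i 2) X + (X.1 - X.2) ^ (r + 1) * hom m (q i 3) X) =
        U i * algebraMap ℝ A ((k.choose i : ℝ) * mon k i X) := by
      intro i hi
      rw [Finset.mem_range] at hi
      have := congrFun (congrArg Prod.fst (hq i (by omega))) X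
      simp only [tgt, fld1, Pi.smul_apply, smul_eq_mul] at this
      rw [this]
    have hF2 : ∀ i ∈ range (k + 2), U i * algebraMap ℝ A (X.2 ^ (r + 1) * hom m (q i 1) X +
        (X.1 + X.2) ^ (r + 1) * hom m (q i 2) X - (X.1 - X.2) ^ (r + 1) * hom m (q i 3) X) =
        U i * algebraMap ℝ A (if i = 0 then 0 else (k.choose (i - 1) : ℝ) * mon k (i - 1) X) := by
      intro i hi
      rw [Finset.mem_range] at hi
      have := congrFun (congrArg Prod.snd (hq i (by omega))) X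
      simp only [tgt, fld2] at this
      rw [← this]
      split_ifs <;> simp
    have hF1' := Finset.sum_congr rfl hF1
    have hF2' := Finset.sum_congr rfl hF2
    have hkey : u2 * ∑ i ∈ range (k + 2), U i * algebraMap ℝ A ((k.choose i : ℝ) * mon k i X) =
        u1 * ∑ i ∈ range (k + 2), U i * algebraMap ℝ A
          (if i = 0 then 0 else (k.choose (i - 1) : ℝ) * mon k (i - 1) X) := by
      rw [Finset.sum_range_succ, Finset.sum_range_succ' (n := k + 1)]
      rw [Nat.choose_eq_zero_of_lt (n := k) (k := k + 1) (by omega)]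
      simp only [Nat.cast_zero, zero_mul, map_zero, mul_zero, add_zero, if_true,
        Nat.add_eq_zero_iff, one_ne_zero, and_false, if_false, Nat.add_sub_cancel]
      rw [Finset.mul_sum, Finset.mul_sum]
      refine Finset.sum_congr rfl fun i hi => ?_
      rw [Finset.mem_range] at hi
      simp only [hU]
      have h1 : k + 1 - i = (k + 1 - (i + 1)) + 1 := by omega
      rw [h1, pow_succ, pow_succ]
      ring
    rw [← hF1', ← hF2'] at hkey
    -- final computation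
    simp only [qfun, Algebra.smul_def]
    have hexp : ∀ (a b c d : A) (f0 f1 f2 f3 g0 g1 g2 g3 : ℕ → A),
        a * (u2 * ∑ i ∈ range (k + 2), f0 i - ∑ i ∈ range (k + 2), g0 i)
        + b * (-u1 * ∑ i ∈ range (k + 2), f1 i - ∑ i ∈ range (k + 2), g1 i)
        + c * ((u2 - u1) * ∑ i ∈ range (k + 2), f2 i - ∑ i ∈ range (k + 2), g2 i)
        + d * ((u2 + u1) * ∑ i ∈ range (k + 2), f3 i - ∑ i ∈ range (k + 2), g3 i) =
        u2 * ∑ i ∈ range (k + 2), (a * f0 i + c * f2 i + d * f3 i)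
        - u1 * ∑ i ∈ range (k + 2), (b * f1 i + c * f2 i - d * f3 i)
        - ∑ i ∈ range (k + 2), (a * g0 i + b * g1 i + c * g2 i + d * g3 i) := by
      intro a b c d f0 f1 f2 f3 g0 g1 g2 g3
      simp only [Finset.sum_add_distrib, Finset.sum_sub_distrib, ← Finset.mul_sum]
      ring
    rw [hexp]
    have s1 : ∑ i ∈ range (k + 2), (algebraMap ℝ A (X.1 ^ (r + 1)) *
        (U i * algebraMap ℝ A (hom m (q i 0) X)) + algebraMap ℝ A ((X.1 + X.2) ^ (r + 1)) *
        (U i * algebraMap ℝ A (hom m (q i 2) X)) + algebraMap ℝ A ((X.1 - X.2) ^ (r + 1)) *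
        (U i * algebraMap ℝ A (hom m (q i 3) X))) =
        ∑ i ∈ range (k + 2), U i * algebraMap ℝ A (X.1 ^ (r + 1) * hom m (q i 0) X +
        (X.1 + X.2) ^ (r + 1) * hom m (q i 2) X + (X.1 - X.2) ^ (r + 1) * hom m (q i 3) X) := by
      refine Finset.sum_congr rfl fun i _ => ?_
      simp only [map_add, map_mul]
      ring
    have s2 : ∑ i ∈ range (k + 2), (algebraMap ℝ A (X.2 ^ (r + 1)) *
        (U i * algebraMap ℝ A (hom m (q i 1) X)) + algebraMap ℝ A ((X.1 + X.2) ^ (r + 1)) *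
        (U i * algebraMap ℝ A (hom m (q i 2) X)) - algebraMap ℝ A ((X.1 - X.2) ^ (r + 1)) *
        (U i * algebraMap ℝ A (hom m (q i 3) X))) =
        ∑ i ∈ range (k + 2), U i * algebraMap ℝ A (X.2 ^ (r + 1) * hom m (q i 1) X +
        (X.1 + X.2) ^ (r + 1) * hom m (q i 2) X - (X.1 - X.2) ^ (r + 1) * hom m (q i 3) X) := by
      refine Finset.sum_congr rfl fun i _ => ?_
      simp only [map_add, map_sub, map_mul]
      ring
    have s3 : ∑ i ∈ range (k + 2), (algebraMap ℝ A (X.1 ^ (r + 1)) *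
        (U i * algebraMap ℝ A (lineDeriv ℝ (hom m (q i 0)) X (0, 1))) +
        algebraMap ℝ A (X.2 ^ (r + 1)) *
        (U i * algebraMap ℝ A (lineDeriv ℝ (hom m (q i 1)) X (-1, 0))) +
        algebraMap ℝ A ((X.1 + X.2) ^ (r + 1)) *
        (U i * algebraMap ℝ A (lineDeriv ℝ (hom m (q i 2)) X (-1, 1))) +
        algebraMap ℝ A ((X.1 - X.2) ^ (r + 1)) *
        (U i * algebraMap ℝ A (lineDeriv ℝ (hom m (q i 3)) X (1, 1)))) = 0 := by
      rw [← hreal']
      refine Finset.sum_congr rfl fun i _ => ?_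
      simp only [map_add, map_mul]
      ring
    rw [s1, s2, s3, hkey]
    ring

end formal

end Pool.MP_ed6410
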