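import Pool.Agent.Lib.MP_ed6410_an.Stencil3

/-!
# Gluing smooth functions along a locally finite closed cover
-/

open Filter Set
open scoped Topology ContDiff

namespace Pool.MP_ed6410

theorem glue_contDiff {ι E : Type} [NormedAddCommGroup E] [NormedSpace ℝ E]
    (T : ι → Set E) (hcl : ∀ i, IsClosed (T i)) (hlf : LocallyFinite T)
    (hcov : ⋃ i, T i = univ) (r : ℕ) :
    ∀ {F : Type} [NormedAddCommGroup F] [NormedSpace ℝ F] (P : ι → E → F)
      (_ : ∀ i, ContDiff ℝ ∞ (P i))
      (_ : ∀ i j x, x ∈ T i → x ∈ T j → ∀ n ≤ r,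
        iteratedFDeriv ℝ n (P i) x = iteratedFDeriv ℝ n (P j) x)
      (s : E → F) (_ : ∀ i, EqOn s (P i) (T i)), ContDiff ℝ r s := by
  have hmem : ∀ x, ∃ i, x ∈ T i := by
    intro x
    have : x ∈ ⋃ i, T i := by rw [hcov]; trivial
    exact mem_iUnion.1 this
  induction r with
  | zero =>
    intro F _ _ P hP hjet s hs
    rw [Nat.cast_zero, contDiff_zero]
    exact hlf.continuous hcov hcl fun i => (hP i).continuous.continuousOn.congr (hs i)
  | succ r ih =>
    intro F _ _ P hP hjet s hs
    choose idx hidx using hmem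
    have hfd : ∀ i j x, x ∈ T i → x ∈ T j → fderiv ℝ (P i) x = fderiv ℝ (P j) x := by
      intro i j x hi hj
      have := hjet i j x hi hj 1 (by omega)
      ext v
      have h2 := congrArg (fun L => L (fun _ => v)) this
      simpa [iteratedFDeriv_one_apply] using h2
    set f' : E → E →L[ℝ] F := fun x => fderiv ℝ (P (idx x)) x with hf'
    have hf'eq : ∀ i, EqOn f' (fderiv ℝ (P i)) (T i) := by
      intro i x hx
      exact hfd _ _ x (hidx x) hx
    rw [Nat.cast_succ, contDiff_succ_iff_hasFDerivAt]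
    refine ⟨f', ?_, ?_⟩
    · refine ih (fun i => fderiv ℝ (P i)) ?_ ?_ f' hf'eq
      · intro i
        exact (hP i).fderiv_right (m := ∞) (by simp)
      · intro i j x hi hj n hn
        have h1 := hjet i j x hi hj (n + 1) (by omega)
        rw [iteratedFDeriv_succ_eq_comp_right, iteratedFDeriv_succ_eq_comp_right] at h1
        simp only [Function.comp_apply] at h1
        exact (LinearIsometryEquiv.injective _) h1
    · intro x
      rw [← hasFDerivWithinAt_univ, ← hcov]
      have hkey : ∀ i, HasFDerivWithinAt s (f' x) (T i) x := by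
        intro i
        by_cases hx : x ∈ T i
        · rw [hf'eq i hx]
          have h1 : HasFDerivWithinAt (P i) (fderiv ℝ (P i) x) (T i) x :=
            (((hP i).differentiable (by simp)) x).hasFDerivAt.hasFDerivWithinAt
          exact h1.congr (hs i) (hs i hx)
        · have h2 : 𝓝[T i] x = ⊥ := by
            rw [← notMem_closure_iff_nhdsWithin_eq_bot, (hcl i).closure_eq]
            exact hx
          rw [hasFDerivWithinAt_iff_isLittleO, h2]
          rw [Asymptotics.isLittleO_iff]
          intro c _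
          exact Filter.eventually_bot
      rw [hasFDerivWithinAt_iff_isLittleO, hlf.nhdsWithin_iUnion]
      rw [Asymptotics.isLittleO_iff]
      intro c hc
      rw [eventually_iSup]
      intro i
      have := hkey i
      rw [hasFDerivWithinAt_iff_isLittleO, Asymptotics.isLittleO_iff] at this
      exact this hc

/-- vanishing of derivatives of `ℓ^(r+1) • G` on the zero set of `ℓ` -/
theorem flat_pow {E : Type} [NormedAddCommGroup E] [NormedSpace ℝ E] (l : E → ℝ)
    (hl : ContDiff ℝ ∞ l) (n : ℕ) : ∀ {F : Type} [NormedAddCommGroup F] [NormedSpace ℝ F]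
    (r : ℕ) (_ : n ≤ r) (G : E → F) (_ : ContDiff ℝ ∞ G) (x : E) (_ : l x = 0),
    iteratedFDeriv ℝ n (fun y => (l y) ^ (r + 1) • G y) x = 0 := by
  induction n with
  | zero =>
    intro F _ _ r _ G hG x hx
    ext v
    simp [hx]
  | succ n ih =>
    intro F _ _ r hr G hG x hx
    obtain ⟨r', rfl⟩ : ∃ r', r = r' + 1 := ⟨r - 1, by omega⟩
    have hd : ∀ y, HasFDerivAt (fun y => (l y) ^ (r' + 1 + 1) • G y)
        ((l y) ^ (r' + 1) • ((l y) • fderiv ℝ G y +
          (((r' + 1 + 1 : ℕ) : ℝ) • fderiv ℝ l y).smulRight (G y))) y := by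
      intro y
      have h1 : HasFDerivAt l (fderiv ℝ l y) y := ((hl.differentiable (by simp)) y).hasFDerivAt
      have h2 : HasFDerivAt G (fderiv ℝ G y) y := ((hG.differentiable (by simp)) y).hasFDerivAt
      have h3 := (h1.pow (r' + 1 + 1)).smul h2
      refine h3.congr_fderiv ?_
      ext v
      simp [pow_succ, smul_smul]
      ring_nf
    have h4 : fderiv ℝ (fun y => (l y) ^ (r' + 1 + 1) • G y) = fun y =>
        (l y) ^ (r' + 1) • ((l y) • fderiv ℝ G y +
          (((r' + 1 + 1 : ℕ) : ℝ) • fderiv ℝ l y).smulRight (G y)) := by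
      funext y; exact (hd y).fderiv
    rw [iteratedFDeriv_succ_eq_comp_right]
    simp only [Function.comp_apply]
    have e1 : ContDiff ℝ ∞ (fderiv ℝ G) := hG.fderiv_right (m := ∞) (by simp)
    have e2 : ContDiff ℝ ∞ (fderiv ℝ l) := hl.fderiv_right (m := ∞) (by simp)
    have e3 : ContDiff ℝ ∞ (fun y => (((r' + 1 + 1 : ℕ) : ℝ) • fderiv ℝ l y).smulRight (G y)) :=
      ContDiff.smulRight (e2.const_smul _) hG
    have h5 := ih r' (by omega) (fun y => ((l y) • fderiv ℝ G y +
          (((r' + 1 + 1 : ℕ) : ℝ) • fderiv ℝ l y).smulRight (G y))) ((hl.smul e1).add e3) x hx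
    rw [h4]
    exact (congrArg _ h5).trans (LinearIsometryEquiv.map_zero _)

end Pool.MP_ed6410
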