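import Pool.Agent.Lib.MP_ed6410_an.Poly

/-!
# Jumps of a `C^r` piecewise polynomial across a mesh line, top-degree parts
-/

open Finset Polynomial
open scoped Nat

namespace Pool.MP_ed6410

/-- `tc` as a linear map -/
noncomputable def tcL (k n : ℕ) : (ℝ × ℝ → ℝ) →ₗ[ℝ] ℝ where
  toFun := tc k n
  map_add' := tc_add k n
  map_smul' c f := by simp [tc_smul]

lemma tc_coeff {k : ℕ} {f : ℝ × ℝ → ℝ} {c : ℕ → ℕ → ℝ}
    (hc : ∀ i j, k < i + j → c i j = 0)
    (hf : ∀ p : ℝ × ℝ, f p = ∑ i ∈ range (k + 1), ∑ j ∈ range (k + 1), c i j * (p.1 ^ i * p.2 ^ j))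
    (n : ℕ) (hn : n ≤ k) : tc k n f = c (k - n) n := by
  have h1 : f = ∑ i ∈ range (k + 1), ∑ j ∈ range (k + 1),
      c i j • (fun p : ℝ × ℝ => p.1 ^ i * p.2 ^ j) := by
    funext p
    rw [hf p]
    simp
  have h2 : tcL k n f = c (k - n) n := by
    rw [h1, map_sum]
    simp only [map_sum, map_smul]
    rw [Finset.sum_eq_single (k - n)]
    · rw [Finset.sum_eq_single n]
      · show c (k - n) n • tc k n _ = _
        rw [tc_mono k n _ _ hn (by omega)]
        simp
      · intro j _ hj
        show c (k - n) j • tc k n _ = _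
        by_cases h : k - n + j ≤ k
        · rw [tc_mono k n _ _ hn h]
          simp [hj]
        · rw [hc _ _ (by omega)]; simp
      · intro h; exact absurd (Finset.mem_range.2 (by omega)) h
    · intro i _ hi
      refine Finset.sum_eq_zero fun j _ => ?_
      show c i j • tc k n _ = _
      by_cases h : i + j ≤ k
      · rw [tc_mono k n _ _ hn h]
        simp [hi]
      · rw [hc _ _ (by omega)]; simp
    · intro h; exact absurd (Finset.mem_range.2 (by omega)) h
  exact h2

lemma iteratedDeriv_polyEval (p : ℝ[X]) (q : ℕ) (x : ℝ) :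
    iteratedDeriv q (fun y => p.eval y) x = (derivative^[q] p).eval x := by
  induction q generalizing p with
  | zero => simp
  | succ q ih =>
    rw [iteratedDeriv_succ', Function.iterate_succ_apply, ← ih]
    congr 1
    funext y
    exact p.deriv

lemma coeff_aux (x0 y0 β : ℝ) (i e N : ℕ) (h : i + e ≤ N) :
    ((X + C x0) ^ i * (C β * X + C y0) ^ e : ℝ[X]).coeff N = if i + e = N then β ^ e else 0 := by
  have h1 : ((X + C x0) ^ i : ℝ[X]).natDegree ≤ i := by
    refine natDegree_pow_le_of_le i (natDegree_X_add_C x0).le |>.trans (by simp)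
  have h0 : (C β * X + C y0 : ℝ[X]).natDegree ≤ 1 := natDegree_linear_le
  have h2 : ((C β * X + C y0) ^ e : ℝ[X]).natDegree ≤ e := by
    refine natDegree_pow_le_of_le e h0 |>.trans (by simp)
  split_ifs with h3
  · rw [← h3, coeff_mul_add_eq_of_natDegree_le h1 h2]
    have h4 : ((X + C x0) ^ i : ℝ[X]).coeff i = 1 := by
      rw [coeff_X_add_C_pow]; simp
    have h5 : ((C β * X + C y0) ^ e : ℝ[X]).coeff e = β ^ e := by
      have := coeff_pow_of_natDegree_le h0 (m := e)
      simpa using this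
    rw [h4, h5, one_mul]
  · apply coeff_eq_zero_of_natDegree_lt
    calc _ ≤ _ := natDegree_mul_le
      _ ≤ i + e := add_le_add h1 h2
      _ < N := by omega

/-- If the `q`-th `y`-derivative of `G` vanishes along a piece of the line
`(x0 + t, y0 + β t)`, then a linear relation holds for the top coefficients of `G`. -/
lemma line_lemma {k : ℕ} {G : ℝ × ℝ → ℝ} (hG : G ∈ PolyLE k) (q : ℕ) (hq : q ≤ k)
    (x0 y0 β w : ℝ) (hw : 0 < w)
    (h : ∀ t ∈ Set.Ioo 0 w, iteratedDeriv q (fun y => G (x0 + t, y)) (y0 + β * t) = 0) :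
    ∑ n ∈ range (k + 1), (n.choose q : ℝ) * β ^ (n - q) * tc k n G = 0 := by
  obtain ⟨c, hc, hc'⟩ := exists_coeff hG
  set W : ℝ[X] := ∑ i ∈ range (k + 1), ∑ j ∈ range (k + 1),
    C (c i j * (j.choose q : ℝ)) * ((X + C x0) ^ i * (C β * X + C y0) ^ (j - q)) with hW
  have hWeval : ∀ t ∈ Set.Ioo 0 w, W.eval t = 0 := by
    intro t ht
    have h1 := h t ht
    have h2 : (fun y => G (x0 + t, y)) = fun y =>
        (∑ i ∈ range (k + 1), ∑ j ∈ range (k + 1),
          monomial j (c i j * (x0 + t) ^ i) : ℝ[X]).eval y := by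
      funext y
      rw [hc']
      simp only [eval_finsetSum, eval_monomial]
      refine Finset.sum_congr rfl fun i _ => Finset.sum_congr rfl fun j _ => ?_
      ring
    rw [h2, iteratedDeriv_polyEval, ← factorial_smul_hasseDeriv] at h1
    have h3 : ((q ! : ℕ) : ℝ) ≠ 0 := by exact_mod_cast q.factorial_ne_zero
    rw [LinearMap.smul_apply, eval_smul] at h1
    have h4 : eval (y0 + β * t) ((hasseDeriv q) (∑ i ∈ range (k + 1), ∑ j ∈ range (k + 1),
          monomial j (c i j * (x0 + t) ^ i) : ℝ[X])) = 0 := by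
      simpa [h3] using h1
    rw [map_sum] at h4
    simp only [map_sum, hasseDeriv_monomial, eval_finsetSum, eval_monomial] at h4
    rw [hW]
    simp only [eval_finsetSum, eval_mul, eval_C, eval_pow, eval_add, eval_X]
    rw [← h4]
    refine Finset.sum_congr rfl fun i _ => Finset.sum_congr rfl fun j _ => ?_
    ring
  have hW0 : W = 0 := by
    apply Polynomial.eq_zero_of_infinite_isRoot
    refine Set.Infinite.mono ?_ (Set.Ioo_infinite hw)
    intro t ht
    exact hWeval t ht
  have h5 : W.coeff (k - q) = 0 := by rw [hW0]; simp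
  rw [hW] at h5
  simp only [finsetSum_coeff, coeff_C_mul] at h5
  rw [← h5]
  -- compare
  have h6 : ∀ i ∈ range (k + 1), ∀ j ∈ range (k + 1),
      c i j * (j.choose q : ℝ) * ((X + C x0) ^ i * (C β * X + C y0) ^ (j - q) : ℝ[X]).coeff (k - q)
      = if i = k - j then (j.choose q : ℝ) * β ^ (j - q) * c (k - j) j else 0 := by
    intro i hi j hj
    rw [Finset.mem_range] at hi hj
    by_cases h7 : j < q
    · rw [Nat.choose_eq_zero_of_lt h7]; simp
    · push Not at h7
      by_cases h8 : k < i + j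
      · rw [hc i j h8]
        rw [if_neg (by omega)]; simp
      · push Not at h8
        rw [coeff_aux x0 y0 β i (j - q) (k - q) (by omega)]
        by_cases h9 : i = k - j
        · rw [if_pos (by omega), if_pos h9, h9]; ring
        · rw [if_neg (by omega), if_neg h9]; simp
  rw [Finset.sum_comm]
  refine Finset.sum_congr rfl fun j hj => ?_
  rw [Finset.sum_congr rfl (fun i hi => h6 i hi j hj)]
  rw [Finset.sum_ite_eq' (range (k + 1)) (k - j)]
  have hj' : j ≤ k := by rw [Finset.mem_range] at hj; omega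
  rw [if_pos (Finset.mem_range.2 (by omega)), tc_coeff hc hc' j hj']

/-- one-dimensional gluing: derivatives of the two sides agree up to order `r` -/
lemma glue_one {r : ℕ} {ff p p' : ℝ → ℝ} (hφ : ContDiff ℝ r ff) (hp : ContDiff ℝ r p)
    (hp' : ContDiff ℝ r p') {y1 y2 y3 : ℝ} (h12 : y1 < y2) (h23 : y2 < y3)
    (e1 : Set.EqOn ff p (Set.Icc y1 y2)) (e2 : Set.EqOn ff p' (Set.Icc y2 y3)) (q : ℕ)
    (hq : q ≤ r) : iteratedDeriv q (fun y => p' y - p y) y2 = 0 := by
  have key : ∀ (a b : ℝ) (f g : ℝ → ℝ), a < b → ContDiff ℝ r f → ContDiff ℝ r g →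
      Set.EqOn f g (Set.Icc a b) → ∀ y ∈ Set.Icc a b, iteratedDeriv q f y = iteratedDeriv q g y := by
    intro a b f g hab hf hg hfg
    have h1 : Set.EqOn (iteratedDeriv q f) (iteratedDeriv q g) (Set.Ioo a b) := by
      intro y hy
      have : f =ᶠ[nhds y] g := by
        filter_upwards [Ioo_mem_nhds hy.1 hy.2] with z hz
        exact hfg ⟨hz.1.le, hz.2.le⟩
      exact this.iteratedDeriv_eq q
    have h2 := h1.closure (hf.continuous_iteratedDeriv q (by exact_mod_cast hq))
      (hg.continuous_iteratedDeriv q (by exact_mod_cast hq))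
    rw [closure_Ioo hab.ne] at h2
    exact h2
  have a1 := key y1 y2 ff p h12 hφ hp e1 y2 ⟨h12.le, le_rfl⟩
  have a2 := key y2 y3 ff p' h23 hφ hp' e2 y2 ⟨le_rfl, h23.le⟩
  have hq' : (q : WithTop ℕ∞) ≤ r := by exact_mod_cast hq
  have h3 : iteratedDeriv q (fun y => p' y - p y) y2 =
      iteratedDeriv q p' y2 - iteratedDeriv q p y2 := by
    have := iteratedDeriv_sub (n := q) (x := y2) (hp'.contDiffAt.of_le hq')
      (hp.contDiffAt.of_le hq')
    simpa [Pi.sub_def] using this
  rw [h3, ← a1, ← a2, sub_self]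

end Pool.MP_ed6410
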