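import Pool.Agent.Lib.MP_ed6410_an.Nec3

/-!
# Necessity
-/

open Finset Polynomial MeasureTheory Filter
open scoped ENNReal Topology

namespace Pool.MP_ed6410

lemma exists_spline_of_dist {k r : ℕ} {h : ℝ} {G : Set (ℝ × ℝ)} {f : ℝ × ℝ → ℝ} {C ε : ℝ}
    (hε : 0 < ε) (hd : distLinf G f (SplineSpace k r h) ≤ ENNReal.ofReal C) :
    ∃ s ∈ SplineSpace k r h, eLpNorm (f - s) ⊤ (volume.restrict G) ≤ ENNReal.ofReal (|C| + ε) := by
  have h1 : distLinf G f (SplineSpace k r h) < ENNReal.ofReal (|C| + ε) := by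
    refine hd.trans_lt ?_
    rw [ENNReal.ofReal_lt_ofReal_iff (by positivity)]
    linarith [le_abs_self C]
  unfold distLinf at h1
  obtain ⟨s, hs⟩ := iInf_lt_iff.1 h1
  obtain ⟨hs1, hs2⟩ := iInf_lt_iff.1 hs
  exact ⟨s, hs1, hs2.le⟩

theorem nec_general {k r : ℕ} (hrk : r < k) (P : ℝ[X]) (hP : P.natDegree ≤ r)
    (hP1 : ∀ n : ℕ, Odd n → n + r < k → P.eval (n : ℝ) = 0)
    (hP2 : ∀ n : ℕ, Even n → r < n → n ≤ k → P.eval (n : ℝ) = 0)
    (hne : (k : ℝ) * P.eval 1 - P.eval 0 ≠ 0) (N0 : ℕ∞) : ¬ ApproxOrderFor N0 k r (k + 1) := by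
  intro hN0
  have hk1 : 1 ≤ k := by omega
  set G : Set (ℝ × ℝ) := Set.Ioo (-1) 3 ×ˢ Set.Ioo (-1) 3 with hGdef
  have hGo : IsOpen G := isOpen_Ioo.prod isOpen_Ioo
  have hGc : IsConnected G :=
    IsConnected.prod (isConnected_Ioo (by norm_num)) (isConnected_Ioo (by norm_num))
  have hGb : Bornology.IsBounded G := (Metric.isBounded_Ioo _ _).prod (Metric.isBounded_Ioo _ _)
  set f : ℝ × ℝ → ℝ := fun p => p.1 ^ k * p.2 with hf
  have hfc : ContDiff ℝ N0 f := by rw [hf]; fun_prop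
  obtain ⟨C, hC⟩ := hN0 G hGo hGc hGb f hfc
  set K1 : ℝ := (∑ n ∈ range (k + 1), |w1 P n|) * (2 ^ k * ((|C| + 1) + 1) * (3 * k) ^ k) with hK1
  set K2 : ℝ := (∑ n ∈ range (k + 1), |w2 P n|) * (2 ^ k * ((|C| + 1) + 1) * (3 * k) ^ k) with hK2
  -- choose N
  have hlim : Tendsto (fun N : ℕ => 1 / ((N : ℝ) + 1)) atTop (𝓝[>] (0 : ℝ)) := by
    rw [tendsto_nhdsWithin_iff]
    refine ⟨tendsto_one_div_add_atTop_nhds_zero_nat, ?_⟩
    filter_upwards with N
    simp only [Set.mem_Ioi]; positivity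
  have hev := hlim.eventually hC
  have hbig : ∀ᶠ N : ℕ in atTop,
      2 * K1 + 2 * K2 < ((N : ℝ) + 1) * |(k : ℝ) * P.eval 1 - P.eval 0| := by
    have h1 : Tendsto (fun N : ℕ => ((N : ℝ) + 1) * |(k : ℝ) * P.eval 1 - P.eval 0|) atTop atTop :=
      Tendsto.atTop_mul_const (abs_pos.2 hne)
        (tendsto_atTop_add_const_right _ _ tendsto_natCast_atTop_atTop)
    exact h1.eventually (eventually_gt_atTop _)
  obtain ⟨N', hN'1, hN'2⟩ := (hev.and hbig).exists
  set N : ℕ := N' + 1 with hN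
  have hNc : (N : ℝ) = (N' : ℝ) + 1 := by rw [hN]; push_cast; ring
  rw [← hNc] at hN'1 hN'2
  set h : ℝ := 1 / (N : ℝ) with hh
  have hNpos : (0 : ℝ) < N := by rw [hNc]; positivity
  have hhpos : 0 < h := by rw [hh]; positivity
  have hNh : (N : ℝ) * h = 1 := by rw [hh]; field_simp
  have hh1 : h ≤ 1 := by
    rw [hh, div_le_one hNpos, hNc]
    have : (0 : ℝ) ≤ N' := Nat.cast_nonneg _
    linarith
  have hhk : (0 : ℝ) < h ^ (k + 1) := by positivity
  obtain ⟨s, hs, hsn⟩ := exists_spline_of_dist hhk hN'1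
  obtain ⟨hsc, hsp⟩ := hs
  choose Q hQ hsQ using hsp
  have hM : |C * h ^ (k + 1)| + h ^ (k + 1) = (|C| + 1) * h ^ (k + 1) := by
    rw [abs_mul, abs_of_pos hhk]; ring
  rw [hM] at hsn
  have hpt := bound_of_eLpNorm hGo (u := f - s) ((hfc.continuous).sub hsc.continuous)
    (by positivity) hsn
  -- bound on cells with indices in [0, N]
  have hcell : ∀ i j : ℕ, i ≤ N → j ≤ N → ∀ p : ℝ × ℝ, ((i : ℤ) : ℝ) * h ≤ p.1 →
      p.1 ≤ (((i : ℤ) : ℝ) + 1) * h → ((j : ℤ) : ℝ) * h ≤ p.2 → p.2 ≤ (((j : ℤ) : ℝ) + 1) * h →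
      |p.1 ^ k * p.2 - s p| ≤ (|C| + 1) * h ^ (k + 1) := by
    intro i j hi hj p h1 h2 h3 h4
    have hi' : (i : ℝ) ≤ N := by exact_mod_cast hi
    have hj' : (j : ℝ) ≤ N := by exact_mod_cast hj
    have hi0 : (0 : ℝ) ≤ i := Nat.cast_nonneg _
    have hj0 : (0 : ℝ) ≤ j := Nat.cast_nonneg _
    have e1 : (i : ℝ) * h ≤ 1 := by
      rw [← hNh]; exact mul_le_mul_of_nonneg_right hi' hhpos.le
    have e2 : (j : ℝ) * h ≤ 1 := by
      rw [← hNh]; exact mul_le_mul_of_nonneg_right hj' hhpos.le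
    have e3 : 0 ≤ (i : ℝ) * h := by positivity
    have e4 : 0 ≤ (j : ℝ) * h := by positivity
    push_cast at h1 h2 h3 h4
    have := hpt p ⟨⟨by linarith, by linarith⟩, ⟨by linarith, by linarith⟩⟩
    exact this
  have hr : r ≤ k := hrk.le
  -- the two functions of the cell
  set F1 : ℕ → ℕ → ℝ := fun i j => Fn k (w1 P) (Q i j false false) with hF1
  set F2 : ℕ → ℕ → ℝ := fun i j => Fn k (w2 P) (Q i j true false) with hF2
  have hrel : ∀ i j : ℕ, (F1 (i + 1) j - F1 i j) + (F2 i (j + 1) - F2 i j) = 0 := by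
    intro i j
    have a1 := cell_rel hr hhpos hsc hQ hsQ hP (i : ℤ) (j : ℤ)
    have a2 := ver_rel hr hhpos hsc hQ hsQ hP1 (i : ℤ) (j : ℤ)
    have a3 := hor_rel hr hhpos hsc hQ hsQ hP2 (i : ℤ) (j : ℤ)
    simp only [hF1, hF2]
    push_cast
    rw [a2, a3]
    linarith
  have hw10 : w1 P 0 = 0 := by simp [w1]
  have hw11 : w1 P 1 = P.eval 1 := by simp [w1]
  have hw20 : w2 P 0 = - P.eval 0 := by simp [w2]
  have hw21 : w2 P 1 = 0 := by simp [w2]
  have hb1 : ∀ i j : ℕ, i ≤ N → j ≤ N → |F1 i j - P.eval 1 * (k * (i * h))| ≤ K1 * h := by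
    intro i j hi hj
    have := cell_bound hk1 hhpos hQ hsQ (|C| + 1) (i : ℤ) (j : ℤ) (hcell i j hi hj) (w1 P) false
    rw [hw10, hw11] at this
    simpa using this
  have hb2 : ∀ i j : ℕ, i ≤ N → j ≤ N → |F2 i j - (-P.eval 0 * (j * h))| ≤ K2 * h := by
    intro i j hi hj
    have := cell_bound hk1 hhpos hQ hsQ (|C| + 1) (i : ℤ) (j : ℤ) (hcell i j hi hj) (w2 P) true
    rw [hw20, hw21] at this
    simpa using this
  -- sum over the box
  have hsum : ∑ j ∈ range N, (F1 N j - F1 0 j) + ∑ i ∈ range N, (F2 i N - F2 i 0) = 0 := by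
    have e1 : ∑ j ∈ range N, (F1 N j - F1 0 j) =
        ∑ j ∈ range N, ∑ i ∈ range N, (F1 (i + 1) j - F1 i j) :=
      Finset.sum_congr rfl fun j _ => (Finset.sum_range_sub (fun i => F1 i j) N).symm
    have e2 : ∑ i ∈ range N, (F2 i N - F2 i 0) =
        ∑ i ∈ range N, ∑ j ∈ range N, (F2 i (j + 1) - F2 i j) :=
      Finset.sum_congr rfl fun i _ => (Finset.sum_range_sub (fun j => F2 i j) N).symm
    rw [e1, e2, Finset.sum_comm, ← Finset.sum_add_distrib]
    refine Finset.sum_eq_zero fun i _ => ?_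
    rw [← Finset.sum_add_distrib]
    exact Finset.sum_eq_zero fun j _ => hrel i j
  have hs1 : |∑ j ∈ range N, (F1 N j - F1 0 j) - N * (P.eval 1 * k)| ≤ 2 * K1 := by
    have e1 : ∑ j ∈ range N, (F1 N j - F1 0 j) - N * (P.eval 1 * k) =
        ∑ j ∈ range N, ((F1 N j - P.eval 1 * (k * (N * h))) - (F1 0 j - P.eval 1 * (k * ((0 : ℕ) * h)))) := by
      have : (N : ℝ) * (P.eval 1 * k) = ∑ j ∈ range N, (P.eval 1 * k) := by simp
      rw [this, ← Finset.sum_sub_distrib]
      refine Finset.sum_congr rfl fun j _ => ?_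
      rw [hNh]; simp; ring
    rw [e1]
    calc _ ≤ _ := Finset.abs_sum_le_sum_abs _ _
      _ ≤ ∑ j ∈ range N, (K1 * h + K1 * h) := by
        refine Finset.sum_le_sum fun j hj => ?_
        rw [Finset.mem_range] at hj
        have g1 := hb1 N j le_rfl hj.le
        have g2 := hb1 0 j (Nat.zero_le _) hj.le
        rw [abs_le] at g1 g2 ⊢
        constructor <;> linarith [g1.1, g1.2, g2.1, g2.2]
      _ = 2 * K1 := by
        rw [Finset.sum_const, Finset.card_range, nsmul_eq_mul]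
        linear_combination (2 * K1) * hNh
  have hs2 : |∑ i ∈ range N, (F2 i N - F2 i 0) - N * (- P.eval 0)| ≤ 2 * K2 := by
    have e1 : ∑ i ∈ range N, (F2 i N - F2 i 0) - N * (- P.eval 0) =
        ∑ i ∈ range N, ((F2 i N - (-P.eval 0 * (N * h))) - (F2 i 0 - (-P.eval 0 * ((0 : ℕ) * h)))) := by
      have : (N : ℝ) * (-P.eval 0) = ∑ i ∈ range N, (-P.eval 0) := by simp
      rw [this, ← Finset.sum_sub_distrib]
      refine Finset.sum_congr rfl fun j _ => ?_
      rw [hNh]; simp; ring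
    rw [e1]
    calc _ ≤ _ := Finset.abs_sum_le_sum_abs _ _
      _ ≤ ∑ i ∈ range N, (K2 * h + K2 * h) := by
        refine Finset.sum_le_sum fun i hi => ?_
        rw [Finset.mem_range] at hi
        have g1 := hb2 i N hi.le le_rfl
        have g2 := hb2 i 0 hi.le (Nat.zero_le _)
        rw [abs_le] at g1 g2 ⊢
        constructor <;> linarith [g1.1, g1.2, g2.1, g2.2]
      _ = 2 * K2 := by
        rw [Finset.sum_const, Finset.card_range, nsmul_eq_mul]
        linear_combination (2 * K2) * hNh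
  have hfin : (N : ℝ) * |(k : ℝ) * P.eval 1 - P.eval 0| ≤ 2 * K1 + 2 * K2 := by
    have e1 : (N : ℝ) * |(k : ℝ) * P.eval 1 - P.eval 0| =
        |(∑ j ∈ range N, (F1 N j - F1 0 j) - N * (P.eval 1 * k)) +
          (∑ i ∈ range N, (F2 i N - F2 i 0) - N * (- P.eval 0))| := by
      rw [← abs_of_pos hNpos, ← abs_mul, abs_of_pos hNpos]
      rw [← abs_neg]
      congr 1
      linear_combination (-1 : ℝ) * hsum
    rw [e1]
    exact (abs_add_le _ _).trans (add_le_add hs1 hs2)
  linarith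

/-- the exceptional set of zeros -/
noncomputable def Zset (k r : ℕ) : Finset ℕ :=
  ((range (k + 1)).filter fun n => Odd n ∧ n + r < k) ∪
    ((range (k + 1)).filter fun n => Even n ∧ r < n)

lemma Zset_card {k r : ℕ} (hrk : r < k) (hk : k ≤ 2 * r ∨ (k = 2 * r + 1 ∧ Even r)) :
    (Zset k r).card ≤ r := by
  -- inject into `range r`
  set m := k - r - 1 with hm
  have hkm : k = m + r + 1 := by omega
  have h1 : ((range (k + 1)).filter fun n => Odd n ∧ n + r < k).card ≤ (m + 1) / 2 := by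
    have : ((range (k + 1)).filter fun n => Odd n ∧ n + r < k) ⊆
        (range ((m + 1) / 2)).image (fun t => 2 * t + 1) := by
      intro n hn
      simp only [Finset.mem_filter, Finset.mem_range, Finset.mem_image] at hn ⊢
      obtain ⟨_, ⟨t, ht⟩, h3⟩ := hn
      exact ⟨t, by omega, by omega⟩
    exact (Finset.card_le_card this).trans (Finset.card_image_le.trans (by simp))
  have h2 : ((range (k + 1)).filter fun n => Even n ∧ r < n).card ≤ k / 2 - r / 2 := by
    have : ((range (k + 1)).filter fun n => Even n ∧ r < n) ⊆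
        (Finset.Ioc (r / 2) (k / 2)).image (fun t => 2 * t) := by
      intro n hn
      simp only [Finset.mem_filter, Finset.mem_range, Finset.mem_image, Finset.mem_Ioc] at hn ⊢
      obtain ⟨_, ⟨t, ht⟩, h3⟩ := hn
      exact ⟨t, by omega, by omega⟩
    exact (Finset.card_le_card this).trans (Finset.card_image_le.trans (by simp))
  have h3 := Finset.card_union_le ((range (k + 1)).filter fun n => Odd n ∧ n + r < k)
    ((range (k + 1)).filter fun n => Even n ∧ r < n)
  unfold Zset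
  rcases hk with hk | ⟨hk, ⟨t, ht⟩⟩ <;> omega

theorem not_optimal {k r : ℕ} (hrk : r < k) (hr : 2 ≤ r)
    (hk : k ≤ 2 * r ∨ (k = 2 * r + 1 ∧ Even r)) (N0 : ℕ∞) :
    ¬ ApproxOrderFor N0 k r (k + 1) := by
  set P : ℝ[X] := ∏ z ∈ Zset k r, (X - C (z : ℝ)) with hP
  have hPe : ∀ x : ℝ, P.eval x = ∏ z ∈ Zset k r, (x - z) := by
    intro x
    rw [hP, eval_prod]
    simp
  have hPz : ∀ n ∈ Zset k r, P.eval (n : ℝ) = 0 := by
    intro n hn
    rw [hPe]
    exact Finset.prod_eq_zero hn (by simp)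
  have hPn : ∀ n : ℕ, n ∉ Zset k r → P.eval (n : ℝ) ≠ 0 := by
    intro n hn
    rw [hPe]
    refine Finset.prod_ne_zero_iff.2 fun z hz => ?_
    rw [sub_ne_zero]
    intro h
    have : n = z := by exact_mod_cast h
    rw [this] at hn
    exact hn hz
  refine nec_general hrk P ?_ ?_ ?_ ?_ N0
  · have : P.natDegree = (Zset k r).card := by
      rw [hP, natDegree_prod_of_monic _ _ (fun z _ => monic_X_sub_C _)]
      simp only [natDegree_X_sub_C, Finset.sum_const, smul_eq_mul, mul_one]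
    rw [this]
    exact Zset_card hrk hk
  · intro n hn h
    apply hPz
    simp only [Zset, Finset.mem_union, Finset.mem_filter, Finset.mem_range]
    exact Or.inl ⟨by omega, hn, h⟩
  · intro n hn h h'
    apply hPz
    simp only [Zset, Finset.mem_union, Finset.mem_filter, Finset.mem_range]
    exact Or.inr ⟨by omega, hn, h⟩
  · have h0 : P.eval (0 : ℝ) ≠ 0 := by
      have := hPn 0 ?_
      · simpa using this
      · simp [Zset]
    by_cases h1 : 1 + r < k
    · have : P.eval (1 : ℝ) = 0 := by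
        have := hPz 1 ?_
        · simpa using this
        · simp only [Zset, Finset.mem_union, Finset.mem_filter, Finset.mem_range]
          exact Or.inl ⟨by omega, odd_one, h1⟩
      rw [this]; simpa using h0
    · have hk' : k = r + 1 := by omega
      by_cases h2 : Even k
      · have hZ : Zset k r = {k} := by
          ext n
          simp only [Zset, Finset.mem_union, Finset.mem_filter, Finset.mem_range,
            Finset.mem_singleton]
          constructor
          · rintro (⟨_, ⟨t, ht⟩, h4⟩ | ⟨_, _, h4⟩) <;> omega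
          · rintro rfl; exact Or.inr ⟨by omega, h2, by omega⟩
        rw [hPe, hPe, hZ]
        simp only [Finset.prod_singleton]
        have h3 : (k : ℝ) * (1 - k) - (0 - k) = k * (2 - k) := by ring
        rw [h3]
        have h4 : (k : ℝ) ≠ 0 := by exact_mod_cast (by omega : k ≠ 0)
        have h5 : (2 : ℝ) - k ≠ 0 := by
          rw [sub_ne_zero]; exact_mod_cast (by omega : (2 : ℕ) ≠ k)
        exact mul_ne_zero h4 h5
      · have hZ : Zset k r = ∅ := by
          rw [Finset.eq_empty_iff_forall_notMem]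
          intro n
          simp only [Zset, Finset.mem_union, Finset.mem_filter, Finset.mem_range]
          rintro (⟨_, ⟨t, ht⟩, h4⟩ | ⟨h5, h6, h4⟩)
          · omega
          · have : n = k := by omega
            rw [this] at h6
            exact h2 h6
        rw [hPe, hPe, hZ]
        simp only [Finset.prod_empty, mul_one]
        rw [sub_ne_zero]
        exact_mod_cast (by omega : k ≠ 1)

end Pool.MP_ed6410
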