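import Pool.Agent.Lib.MP_ed6410_an.Jump

/-!
# Necessity: relations between the top-degree parts of a spline
-/

open Finset Polynomial
open scoped Nat fwdDiff

namespace Pool.MP_ed6410

lemma newton_binom (P : ℝ[X]) (r : ℕ) (hP : P.natDegree ≤ r) :
    ∃ b : ℕ → ℝ, ∀ n : ℕ, P.eval (n : ℝ) = ∑ q ∈ range (r + 1), b q * (n.choose q : ℝ) := by
  refine ⟨fun q => Δ_[(1 : ℝ)] ^[q] (fun x => P.eval x) 0, fun n => ?_⟩
  have h1 := shift_eq_sum_fwdDiff_iter (1 : ℝ) (fun x => P.eval x) n 0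
  simp only [zero_add, nsmul_eq_mul, mul_one] at h1
  rw [h1]
  have h2 : ∑ q ∈ range (n + 1), (n.choose q : ℝ) * Δ_[(1 : ℝ)] ^[q] (fun x => P.eval x) 0 =
      ∑ q ∈ range (n + r + 1), (n.choose q : ℝ) * Δ_[(1 : ℝ)] ^[q] (fun x => P.eval x) 0 := by
    apply Finset.sum_subset
    · intro x; simp only [Finset.mem_range]; omega
    · intro x _ hx
      rw [Finset.mem_range] at hx
      rw [Nat.choose_eq_zero_of_lt (by omega)]; simp
  have h3 : ∑ q ∈ range (r + 1), Δ_[(1 : ℝ)] ^[q] (fun x => P.eval x) 0 * (n.choose q : ℝ) =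
      ∑ q ∈ range (n + r + 1), Δ_[(1 : ℝ)] ^[q] (fun x => P.eval x) 0 * (n.choose q : ℝ) := by
    apply Finset.sum_subset
    · intro x; simp only [Finset.mem_range]; omega
    · intro x _ hx
      rw [Finset.mem_range] at hx
      have := Polynomial.fwdDiff_iter_eq_zero_of_degree_lt (P := P) (n := x) (by omega)
      have h4 : Δ_[(1 : ℝ)] ^[x] (fun x => P.eval x) 0 = 0 := by
        have h5 := congrFun this 0
        simpa using h5
      rw [h4]; simp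
  rw [h2, h3]
  refine Finset.sum_congr rfl fun q _ => mul_comm _ _

/-- weighted combination of top coefficients -/
noncomputable def Fn (k : ℕ) (w : ℕ → ℝ) (G : ℝ × ℝ → ℝ) : ℝ :=
  ∑ n ∈ range (k + 1), w n * tc k n G

lemma Fn_sub (k : ℕ) (w : ℕ → ℝ) (F G : ℝ × ℝ → ℝ) : Fn k w (F - G) = Fn k w F - Fn k w G := by
  simp only [Fn, tc_sub, mul_sub, Finset.sum_sub_distrib]

lemma Fn_weight {k : ℕ} {w : ℕ → ℝ} {G : ℝ × ℝ → ℝ} {β : ℝ} {r : ℕ} (P : ℝ[X])
    (hP : P.natDegree ≤ r)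
    (h : ∀ q ≤ r, ∑ n ∈ range (k + 1), (n.choose q : ℝ) * β ^ (n - q) * tc k n G = 0)
    (hw : ∀ n, w n = P.eval (n : ℝ) * β ^ n) : Fn k w G = 0 := by
  obtain ⟨b, hb⟩ := newton_binom P r hP
  have h1 : Fn k w G = ∑ q ∈ range (r + 1), b q * β ^ q *
      ∑ n ∈ range (k + 1), (n.choose q : ℝ) * β ^ (n - q) * tc k n G := by
    unfold Fn
    simp only [Finset.mul_sum]
    rw [Finset.sum_comm]
    refine Finset.sum_congr rfl fun n _ => ?_
    rw [hw, hb, Finset.sum_mul, Finset.sum_mul]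
    refine Finset.sum_congr rfl fun q _ => ?_
    by_cases hq : q ≤ n
    · have : β ^ n = β ^ q * β ^ (n - q) := by rw [← pow_add]; congr 1; omega
      rw [this]; ring
    · rw [Nat.choose_eq_zero_of_lt (by omega)]; simp
  rw [h1]
  refine Finset.sum_eq_zero fun q hq => ?_
  rw [h q (by rw [Finset.mem_range] at hq; omega), mul_zero]

/-! ### slices of a spline -/

section slices

variable {k r : ℕ} {h : ℝ} {s : ℝ × ℝ → ℝ}

/-- if `P`, `Q` are the pieces of `s` below/above the point `(x, y2)` on a vertical segment -/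
lemma slice_y {P Q : ℝ × ℝ → ℝ} (hs : ContDiff ℝ r s) (hP : P ∈ PolyLE k) (hQ : Q ∈ PolyLE k)
    {x y1 y2 y3 : ℝ} (h12 : y1 < y2) (h23 : y2 < y3)
    (e1 : ∀ y ∈ Set.Icc y1 y2, s (x, y) = P (x, y))
    (e2 : ∀ y ∈ Set.Icc y2 y3, s (x, y) = Q (x, y)) (q : ℕ) (hq : q ≤ r) :
    iteratedDeriv q (fun y => (Q - P) (x, y)) y2 = 0 := by
  have hc : ∀ {f : ℝ × ℝ → ℝ}, ContDiff ℝ r f → ContDiff ℝ r (fun y => f (x, y)) := by
    intro f hf
    exact hf.comp (contDiff_const.prodMk contDiff_id)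
  exact glue_one (hc hs) (hc (PolyLE_contDiff hP)) (hc (PolyLE_contDiff hQ)) h12 h23 e1 e2 q hq

lemma slice_x {P Q : ℝ × ℝ → ℝ} (hs : ContDiff ℝ r s) (hP : P ∈ PolyLE k) (hQ : Q ∈ PolyLE k)
    {y x1 x2 x3 : ℝ} (h12 : x1 < x2) (h23 : x2 < x3)
    (e1 : ∀ x ∈ Set.Icc x1 x2, s (x, y) = P (x, y))
    (e2 : ∀ x ∈ Set.Icc x2 x3, s (x, y) = Q (x, y)) (q : ℕ) (hq : q ≤ r) :
    iteratedDeriv q (fun x => (Q - P) (x, y)) x2 = 0 := by
  have hc : ∀ {f : ℝ × ℝ → ℝ}, ContDiff ℝ r f → ContDiff ℝ r (fun x => f (x, y)) := by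
    intro f hf
    exact hf.comp (contDiff_id.prodMk contDiff_const)
  exact glue_one (hc hs) (hc (PolyLE_contDiff hP)) (hc (PolyLE_contDiff hQ)) h12 h23 e1 e2 q hq

end slices

/-- the coordinate swap -/
lemma swap_mem {k : ℕ} {f : ℝ × ℝ → ℝ} (hf : f ∈ PolyLE k) :
    (fun p : ℝ × ℝ => f (p.2, p.1)) ∈ PolyLE k := by
  unfold PolyLE at hf
  induction hf using Submodule.span_induction with
  | mem f hf =>
    obtain ⟨i, j, hij, rfl⟩ := hf
    have : (fun p : ℝ × ℝ => p.2 ^ i * p.1 ^ j) = fun p => p.1 ^ j * p.2 ^ i := by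
      funext p; ring
    show (fun p : ℝ × ℝ => p.2 ^ i * p.1 ^ j) ∈ _
    rw [this]
    exact mono_mem (by omega)
  | zero => exact (PolyLE k).zero_mem
  | add x y _ _ hx hy => exact (PolyLE k).add_mem hx hy
  | smul c x _ hx => exact (PolyLE k).smul_mem c hx

lemma tc_swap {k : ℕ} {f : ℝ × ℝ → ℝ} (hf : f ∈ PolyLE k) (n : ℕ) (hn : n ≤ k) :
    tc k n (fun p : ℝ × ℝ => f (p.2, p.1)) = tc k (k - n) f := by
  unfold PolyLE at hf
  induction hf using Submodule.span_induction with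
  | mem f hf =>
    obtain ⟨i, j, hij, rfl⟩ := hf
    have : (fun p : ℝ × ℝ => p.2 ^ i * p.1 ^ j) = fun p => p.1 ^ j * p.2 ^ i := by
      funext p; ring
    show tc k n (fun p : ℝ × ℝ => p.2 ^ i * p.1 ^ j) = _
    rw [this, tc_mono k n j i hn (by omega), tc_mono k (k - n) i j (by omega) hij]
    have : (j = k - n ∧ i = n) ↔ (i = k - (k - n) ∧ j = k - n) := by omega
    simp only [this]
  | zero =>
    show tc k n 0 = tc k (k - n) 0
    rw [tc_zero, tc_zero]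
  | add x y _ _ hx hy =>
    have : (fun p : ℝ × ℝ => (x + y) (p.2, p.1)) =
      (fun p : ℝ × ℝ => x (p.2, p.1)) + (fun p : ℝ × ℝ => y (p.2, p.1)) := rfl
    rw [this, tc_add, tc_add, hx, hy]
  | smul c x _ hx =>
    have : (fun p : ℝ × ℝ => (c • x) (p.2, p.1)) = c • (fun p : ℝ × ℝ => x (p.2, p.1)) := rfl
    rw [this, tc_smul, tc_smul, hx]

/-- `β = 0`: jump across a horizontal line -/
lemma hor_tc {k : ℕ} {G : ℝ × ℝ → ℝ} (hG : G ∈ PolyLE k) (q : ℕ) (hq : q ≤ k)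
    (x0 y0 w : ℝ) (hw : 0 < w)
    (h : ∀ t ∈ Set.Ioo 0 w, iteratedDeriv q (fun y => G (x0 + t, y)) y0 = 0) :
    tc k q G = 0 := by
  have h1 := line_lemma hG q hq x0 y0 0 w hw (by simpa using h)
  rw [Finset.sum_eq_single q] at h1
  · simpa using h1
  · intro n _ hn
    rcases lt_or_gt_of_ne hn with h2 | h2
    · rw [Nat.choose_eq_zero_of_lt h2]; simp
    · rw [zero_pow (by omega)]; simp
  · intro h2; exact absurd (Finset.mem_range.2 (by omega)) h2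

lemma ver_tc {k : ℕ} {G : ℝ × ℝ → ℝ} (hG : G ∈ PolyLE k) (q : ℕ) (hq : q ≤ k)
    (x0 y0 w : ℝ) (hw : 0 < w)
    (h : ∀ t ∈ Set.Ioo 0 w, iteratedDeriv q (fun x => G (x, y0 + t)) x0 = 0) :
    tc k (k - q) G = 0 := by
  have h1 := hor_tc (swap_mem hG) q hq y0 x0 w hw h
  rw [tc_swap hG q hq] at h1
  exact h1

end Pool.MP_ed6410
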