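import Pool.Agent.Lib.MP_ed6410_an.Nec1

/-!
# Necessity: the cell relations
-/

open Finset Polynomial

namespace Pool.MP_ed6410

section cell

variable {k r : ℕ} {h : ℝ} {s : ℝ × ℝ → ℝ} {Q : ℤ → ℤ → Bool → Bool → (ℝ × ℝ → ℝ)}

/-- diagonal jumps -/
lemma diag_jump (hrk : r ≤ k) (hh : 0 < h) (hs : ContDiff ℝ r s)
    (hQ : ∀ i j a b, Q i j a b ∈ PolyLE k)
    (hsQ : ∀ i j a b, Set.EqOn s (Q i j a b) (tri h i j a b)) (i j : ℤ) (b : Bool) :
    ∀ q ≤ r, ∑ n ∈ range (k + 1), (n.choose q : ℝ) * (1 : ℝ) ^ (n - q) *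
      tc k n (Q i j false b - Q i j true b) = 0 := by
  intro q hq
  have hG : Q i j false b - Q i j true b ∈ PolyLE k := (PolyLE k).sub_mem (hQ _ _ _ _) (hQ _ _ _ _)
  cases b with
  | false =>
    refine line_lemma hG q (hq.trans hrk) (i * h) (j * h) 1 (h / 2) (by linarith) ?_
    intro t ht
    obtain ⟨ht0, ht1⟩ := ht
    refine slice_y (s := s) hs (hQ _ _ _ _) (hQ _ _ _ _) (y1 := j * h) (y3 := j * h + h - t)
      (by linarith) (by linarith) ?_ ?_ q hq
    · intro y hy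
      apply hsQ i j true false
      simp only [tri, Set.mem_ofPred_eq, if_true, Bool.false_eq_true, if_false]
      refine ⟨?_, ?_, ?_, ?_, ?_, ?_⟩ <;> nlinarith [hy.1, hy.2]
    · intro y hy
      apply hsQ i j false false
      simp only [tri, Set.mem_ofPred_eq, Bool.false_eq_true, if_false]
      refine ⟨?_, ?_, ?_, ?_, ?_, ?_⟩ <;> nlinarith [hy.1, hy.2]
  | true =>
    refine line_lemma hG q (hq.trans hrk) (i * h + h / 2) (j * h + h / 2) 1 (h / 2)
      (by linarith) ?_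
    intro t ht
    obtain ⟨ht0, ht1⟩ := ht
    refine slice_y (s := s) hs (hQ _ _ _ _) (hQ _ _ _ _) (y1 := j * h + h / 2 - t)
      (y3 := j * h + h) (by linarith) (by linarith) ?_ ?_ q hq
    · intro y hy
      apply hsQ i j true true
      simp only [tri, Set.mem_ofPred_eq, if_true]
      refine ⟨?_, ?_, ?_, ?_, ?_, ?_⟩ <;> nlinarith [hy.1, hy.2]
    · intro y hy
      apply hsQ i j false true
      simp only [tri, Set.mem_ofPred_eq, if_true, Bool.false_eq_true, if_false]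
      refine ⟨?_, ?_, ?_, ?_, ?_, ?_⟩ <;> nlinarith [hy.1, hy.2]

/-- antidiagonal jumps -/
lemma anti_jump (hrk : r ≤ k) (hh : 0 < h) (hs : ContDiff ℝ r s)
    (hQ : ∀ i j a b, Q i j a b ∈ PolyLE k)
    (hsQ : ∀ i j a b, Set.EqOn s (Q i j a b) (tri h i j a b)) (i j : ℤ) (a : Bool) :
    ∀ q ≤ r, ∑ n ∈ range (k + 1), (n.choose q : ℝ) * (-1 : ℝ) ^ (n - q) *
      tc k n (Q i j a true - Q i j a false) = 0 := by
  intro q hq
  have hG : Q i j a true - Q i j a false ∈ PolyLE k := (PolyLE k).sub_mem (hQ _ _ _ _) (hQ _ _ _ _)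
  cases a with
  | false =>
    refine line_lemma hG q (hq.trans hrk) (i * h) (j * h + h) (-1) (h / 2) (by linarith) ?_
    intro t ht
    obtain ⟨ht0, ht1⟩ := ht
    refine slice_y (s := s) hs (hQ _ _ _ _) (hQ _ _ _ _) (y1 := j * h + t) (y3 := j * h + h)
      (by linarith) (by linarith) ?_ ?_ q hq
    · intro y hy
      apply hsQ i j false false
      simp only [tri, Set.mem_ofPred_eq, Bool.false_eq_true, if_false]
      refine ⟨?_, ?_, ?_, ?_, ?_, ?_⟩ <;> nlinarith [hy.1, hy.2]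
    · intro y hy
      apply hsQ i j false true
      simp only [tri, Set.mem_ofPred_eq, if_true, Bool.false_eq_true, if_false]
      refine ⟨?_, ?_, ?_, ?_, ?_, ?_⟩ <;> nlinarith [hy.1, hy.2]
  | true =>
    refine line_lemma hG q (hq.trans hrk) (i * h + h / 2) (j * h + h / 2) (-1) (h / 2)
      (by linarith) ?_
    intro t ht
    obtain ⟨ht0, ht1⟩ := ht
    refine slice_y (s := s) hs (hQ _ _ _ _) (hQ _ _ _ _) (y1 := j * h)
      (y3 := j * h + h / 2 + t) (by linarith) (by linarith) ?_ ?_ q hq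
    · intro y hy
      apply hsQ i j true false
      simp only [tri, Set.mem_ofPred_eq, if_true, Bool.false_eq_true, if_false]
      refine ⟨?_, ?_, ?_, ?_, ?_, ?_⟩ <;> nlinarith [hy.1, hy.2]
    · intro y hy
      apply hsQ i j true true
      simp only [tri, Set.mem_ofPred_eq, if_true]
      refine ⟨?_, ?_, ?_, ?_, ?_, ?_⟩ <;> nlinarith [hy.1, hy.2]

/-- horizontal mesh lines -/
lemma hor_jump (hrk : r ≤ k) (hh : 0 < h) (hs : ContDiff ℝ r s)
    (hQ : ∀ i j a b, Q i j a b ∈ PolyLE k)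
    (hsQ : ∀ i j a b, Set.EqOn s (Q i j a b) (tri h i j a b)) (i j : ℤ) :
    ∀ q ≤ r, tc k q (Q i (j + 1) true false - Q i j false true) = 0 := by
  intro q hq
  have hG : Q i (j + 1) true false - Q i j false true ∈ PolyLE k :=
    (PolyLE k).sub_mem (hQ _ _ _ _) (hQ _ _ _ _)
  refine hor_tc hG q (hq.trans hrk) (i * h) (j * h + h) (h / 2) (by linarith) ?_
  intro t ht
  obtain ⟨ht0, ht1⟩ := ht
  refine slice_y (s := s) hs (hQ _ _ _ _) (hQ _ _ _ _) (y1 := j * h + h - t)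
    (y3 := j * h + h + t) (by linarith) (by linarith) ?_ ?_ q hq
  · intro y hy
    apply hsQ i j false true
    simp only [tri, Set.mem_ofPred_eq, if_true, Bool.false_eq_true, if_false]
    refine ⟨?_, ?_, ?_, ?_, ?_, ?_⟩ <;> nlinarith [hy.1, hy.2]
  · intro y hy
    apply hsQ i (j + 1) true false
    simp only [tri, Set.mem_ofPred_eq, if_true, Bool.false_eq_true, if_false]
    push_cast
    refine ⟨?_, ?_, ?_, ?_, ?_, ?_⟩ <;> nlinarith [hy.1, hy.2]

/-- vertical mesh lines -/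
lemma ver_jump (hrk : r ≤ k) (hh : 0 < h) (hs : ContDiff ℝ r s)
    (hQ : ∀ i j a b, Q i j a b ∈ PolyLE k)
    (hsQ : ∀ i j a b, Set.EqOn s (Q i j a b) (tri h i j a b)) (i j : ℤ) :
    ∀ q ≤ r, tc k (k - q) (Q (i + 1) j false false - Q i j true true) = 0 := by
  intro q hq
  have hG : Q (i + 1) j false false - Q i j true true ∈ PolyLE k :=
    (PolyLE k).sub_mem (hQ _ _ _ _) (hQ _ _ _ _)
  refine ver_tc hG q (hq.trans hrk) (i * h + h) (j * h) (h / 2) (by linarith) ?_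
  intro t ht
  obtain ⟨ht0, ht1⟩ := ht
  refine slice_x (s := s) hs (hQ _ _ _ _) (hQ _ _ _ _) (x1 := i * h + h - t)
    (x3 := i * h + h + t) (by linarith) (by linarith) ?_ ?_ q hq
  · intro x hx
    apply hsQ i j true true
    simp only [tri, Set.mem_ofPred_eq, if_true]
    refine ⟨?_, ?_, ?_, ?_, ?_, ?_⟩ <;> nlinarith [hx.1, hx.2]
  · intro x hx
    apply hsQ (i + 1) j false false
    simp only [tri, Set.mem_ofPred_eq, Bool.false_eq_true, if_false]
    push_cast
    refine ⟨?_, ?_, ?_, ?_, ?_, ?_⟩ <;> nlinarith [hx.1, hx.2]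

/-- The two weight sequences attached to a polynomial `P`. -/
noncomputable def w1 (P : ℝ[X]) (n : ℕ) : ℝ := if Odd n then P.eval (n : ℝ) else 0
/-- The second weight sequence. -/
noncomputable def w2 (P : ℝ[X]) (n : ℕ) : ℝ := if Even n then -P.eval (n : ℝ) else 0

lemma Fn_add_w (k : ℕ) (w w' : ℕ → ℝ) (G : ℝ × ℝ → ℝ) :
    Fn k (fun n => w n + w' n) G = Fn k w G + Fn k w' G := by
  simp only [Fn, add_mul, Finset.sum_add_distrib]

lemma Fn_sub_w (k : ℕ) (w w' : ℕ → ℝ) (G : ℝ × ℝ → ℝ) :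
    Fn k (fun n => w n - w' n) G = Fn k w G - Fn k w' G := by
  simp only [Fn, sub_mul, Finset.sum_sub_distrib]

lemma Fn_neg_w (k : ℕ) (w : ℕ → ℝ) (G : ℝ × ℝ → ℝ) :
    Fn k (fun n => - w n) G = - Fn k w G := by
  simp only [Fn, neg_mul, Finset.sum_neg_distrib]

variable {P : ℝ[X]}

lemma w1_sub_w2 (G : ℝ × ℝ → ℝ) (hP : P.natDegree ≤ r)
    (hG : ∀ q ≤ r, ∑ n ∈ range (k + 1), (n.choose q : ℝ) * (1 : ℝ) ^ (n - q) * tc k n G = 0) :
    Fn k (w1 P) G - Fn k (w2 P) G = 0 := by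
  rw [← Fn_sub_w]
  refine Fn_weight P hP hG fun n => ?_
  simp only [w1, w2, one_pow, mul_one]
  rcases Nat.even_or_odd n with hn | hn
  · have : ¬ Odd n := Nat.not_odd_iff_even.2 hn
    simp [hn, this]
  · have : ¬ Even n := Nat.not_even_iff_odd.2 hn
    simp [hn, this]

lemma w1_add_w2 (G : ℝ × ℝ → ℝ) (hP : P.natDegree ≤ r)
    (hG : ∀ q ≤ r, ∑ n ∈ range (k + 1), (n.choose q : ℝ) * (-1 : ℝ) ^ (n - q) * tc k n G = 0) :
    Fn k (w1 P) G + Fn k (w2 P) G = 0 := by
  rw [← Fn_add_w]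
  have : Fn k (fun n => -(w1 P n + w2 P n)) G = 0 := by
    refine Fn_weight P hP hG fun n => ?_
    simp only [w1, w2]
    rcases Nat.even_or_odd n with hn | hn
    · have : ¬ Odd n := Nat.not_odd_iff_even.2 hn
      simp [hn, this]
    · have : ¬ Even n := Nat.not_even_iff_odd.2 hn
      simp [hn, this]
  rw [Fn_neg_w] at this
  linarith

/-- the relation inside one square -/
lemma cell_rel (hrk : r ≤ k) (hh : 0 < h) (hs : ContDiff ℝ r s)
    (hQ : ∀ i j a b, Q i j a b ∈ PolyLE k)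
    (hsQ : ∀ i j a b, Set.EqOn s (Q i j a b) (tri h i j a b)) (hP : P.natDegree ≤ r) (i j : ℤ) :
    Fn k (w1 P) (Q i j true true) - Fn k (w1 P) (Q i j false false)
      + Fn k (w2 P) (Q i j false true) - Fn k (w2 P) (Q i j true false) = 0 := by
  have d1 := w1_sub_w2 _ hP (diag_jump hrk hh hs hQ hsQ i j false)
  have d2 := w1_sub_w2 _ hP (diag_jump hrk hh hs hQ hsQ i j true)
  have a1 := w1_add_w2 _ hP (anti_jump hrk hh hs hQ hsQ i j false)
  have a2 := w1_add_w2 _ hP (anti_jump hrk hh hs hQ hsQ i j true)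
  simp only [Fn_sub] at d1 d2 a1 a2
  linarith

lemma ver_rel (hrk : r ≤ k) (hh : 0 < h) (hs : ContDiff ℝ r s)
    (hQ : ∀ i j a b, Q i j a b ∈ PolyLE k)
    (hsQ : ∀ i j a b, Set.EqOn s (Q i j a b) (tri h i j a b))
    (hP1 : ∀ n : ℕ, Odd n → n + r < k → P.eval (n : ℝ) = 0) (i j : ℤ) :
    Fn k (w1 P) (Q (i + 1) j false false) = Fn k (w1 P) (Q i j true true) := by
  rw [← sub_eq_zero, ← Fn_sub]
  unfold Fn
  refine Finset.sum_eq_zero fun n hn => ?_
  rw [Finset.mem_range] at hn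
  by_cases h1 : n + r < k
  · have : w1 P n = 0 := by
      unfold w1
      split_ifs with h2
      · exact hP1 n h2 h1
      · rfl
    rw [this, zero_mul]
  · have := ver_jump hrk hh hs hQ hsQ i j (k - n) (by omega)
    have h2 : k - (k - n) = n := by omega
    rw [h2] at this
    rw [this, mul_zero]

lemma hor_rel (hrk : r ≤ k) (hh : 0 < h) (hs : ContDiff ℝ r s)
    (hQ : ∀ i j a b, Q i j a b ∈ PolyLE k)
    (hsQ : ∀ i j a b, Set.EqOn s (Q i j a b) (tri h i j a b))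
    (hP2 : ∀ n : ℕ, Even n → r < n → n ≤ k → P.eval (n : ℝ) = 0) (i j : ℤ) :
    Fn k (w2 P) (Q i (j + 1) true false) = Fn k (w2 P) (Q i j false true) := by
  rw [← sub_eq_zero, ← Fn_sub]
  unfold Fn
  refine Finset.sum_eq_zero fun n hn => ?_
  rw [Finset.mem_range] at hn
  by_cases h1 : r < n
  · have : w2 P n = 0 := by
      unfold w2
      split_ifs with h2
      · rw [hP2 n h2 h1 (by omega), neg_zero]
      · rfl
    rw [this, zero_mul]
  · have := hor_jump hrk hh hs hQ hsQ i j n (by omega)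
    rw [this, mul_zero]

end cell

end Pool.MP_ed6410
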