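import Pool.Agent.Lib.MP_ed6410_an.Nec2

/-!
# Necessity: comparison with `x^k y`
-/

open Finset Polynomial MeasureTheory
open scoped ENNReal Topology

namespace Pool.MP_ed6410

/-- the degree `≤ k` comparison polynomial of `x^k y` at the point `(x0, y0)` -/
noncomputable def cmp (k : ℕ) (x0 y0 : ℝ) : ℝ × ℝ → ℝ :=
  fun p => p.1 ^ k * p.2 - (p.1 - x0) ^ k * (p.2 - y0)

lemma sub_pow_eq (k : ℕ) (x0 : ℝ) :
    (fun p : ℝ × ℝ => (p.1 - x0) ^ k) =
      ∑ i ∈ range (k + 1), ((k.choose i : ℝ) * (-x0) ^ (k - i)) •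
        (fun p : ℝ × ℝ => p.1 ^ i * p.2 ^ 0) := by
  funext p
  rw [sub_eq_add_neg, add_pow]
  simp only [Finset.sum_apply, Pi.smul_apply, smul_eq_mul, pow_zero, mul_one]
  refine Finset.sum_congr rfl fun i _ => ?_
  ring

lemma cmp_eq (k : ℕ) (x0 y0 : ℝ) :
    cmp k x0 y0 = y0 • (∑ i ∈ range (k + 1), ((k.choose i : ℝ) * (-x0) ^ (k - i)) •
        (fun p : ℝ × ℝ => p.1 ^ i * p.2 ^ 0))
      - ∑ i ∈ range k, ((k.choose i : ℝ) * (-x0) ^ (k - i)) •
        (fun p : ℝ × ℝ => p.1 ^ i * p.2 ^ 1) := by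
  rw [← sub_pow_eq]
  funext p
  have h1 := congrFun (sub_pow_eq k x0) p
  simp only [Finset.sum_apply, Pi.smul_apply, smul_eq_mul, pow_zero, mul_one] at h1
  rw [Finset.sum_range_succ] at h1
  simp only [cmp, Pi.sub_apply, Finset.sum_apply, Pi.smul_apply, smul_eq_mul, pow_one]
  have h2 : ∑ i ∈ range k, ((k.choose i : ℝ) * (-x0) ^ (k - i)) * (p.1 ^ i * p.2) =
      (∑ i ∈ range k, ((k.choose i : ℝ) * (-x0) ^ (k - i)) * p.1 ^ i) * p.2 := by
    rw [Finset.sum_mul]
    refine Finset.sum_congr rfl fun i _ => ?_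
    ring
  rw [h2]
  have h3 : ∑ i ∈ range k, ((k.choose i : ℝ) * (-x0) ^ (k - i)) * p.1 ^ i =
      (p.1 - x0) ^ k - p.1 ^ k := by
    rw [h1]; simp
  rw [h3]; ring

lemma cmp_mem (k : ℕ) (x0 y0 : ℝ) : cmp k x0 y0 ∈ PolyLE k := by
  rw [cmp_eq]
  refine (PolyLE k).sub_mem ((PolyLE k).smul_mem _ ((PolyLE k).sum_mem fun i hi => ?_))
    ((PolyLE k).sum_mem fun i hi => ?_)
  · rw [Finset.mem_range] at hi
    exact (PolyLE k).smul_mem _ (mono_mem (by omega))
  · rw [Finset.mem_range] at hi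
    exact (PolyLE k).smul_mem _ (mono_mem (by omega))

lemma tc_cmp (k n : ℕ) (hk : 1 ≤ k) (hn : n ≤ k) (x0 y0 : ℝ) :
    tc k n (cmp k x0 y0) = if n = 0 then y0 else if n = 1 then k * x0 else 0 := by
  have h1 : tcL k n (cmp k x0 y0) = y0 * (∑ i ∈ range (k + 1),
      ((k.choose i : ℝ) * (-x0) ^ (k - i)) * (if i = k - n ∧ 0 = n then 1 else 0))
      - ∑ i ∈ range k, ((k.choose i : ℝ) * (-x0) ^ (k - i)) *
        (if i = k - n ∧ 1 = n then 1 else 0) := by
    rw [cmp_eq, map_sub, map_smul, map_sum, map_sum]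
    simp only [map_smul, smul_eq_mul]
    congr 1
    · congr 1
      refine Finset.sum_congr rfl fun i hi => ?_
      rw [Finset.mem_range] at hi
      congr 1
      exact tc_mono k n i 0 hn (by omega)
    · refine Finset.sum_congr rfl fun i hi => ?_
      rw [Finset.mem_range] at hi
      congr 1
      exact tc_mono k n i 1 hn (by omega)
  have h2 : tc k n (cmp k x0 y0) = tcL k n (cmp k x0 y0) := rfl
  rw [h2, h1]
  rcases Nat.lt_trichotomy n 1 with h | h | h
  · have h0 : n = 0 := by omega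
    subst h0
    simp only [Nat.sub_zero, and_true, if_true]
    rw [Finset.sum_eq_single k]
    · simp
    · intro i _ hi; simp [hi]
    · intro h; exact absurd (Finset.mem_range.2 (by omega)) h
  · subst h
    simp only [and_true, if_true, one_ne_zero, if_false]
    have h3 : ∀ i, ¬ (i = k - 1 ∧ 0 = 1) := by intro i hi; omega
    simp only [h3, if_false, mul_zero, Finset.sum_const_zero, zero_sub]
    rw [Finset.sum_eq_single (k - 1)]
    · have h4 : k - (k - 1) = 1 := by omega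
      rw [h4]
      have h5 : k.choose (k - 1) = k := by
        obtain ⟨m, rfl⟩ : ∃ m, k = m + 1 := ⟨k - 1, by omega⟩
        simp
      rw [h5]; simp
    · intro i _ hi; simp [hi]
    · intro h; exact absurd (Finset.mem_range.2 (by omega)) h
  · have h3 : ∀ i, ¬ (i = k - n ∧ 0 = n) := by intro i hi; omega
    have h4 : ∀ i, ¬ (i = k - n ∧ 1 = n) := by intro i hi; omega
    simp only [h3, h4, if_false, mul_zero, Finset.sum_const_zero, sub_zero]
    rw [if_neg (by omega), if_neg (by omega)]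

lemma Fn_cmp (k : ℕ) (hk : 1 ≤ k) (w : ℕ → ℝ) (x0 y0 : ℝ) :
    Fn k w (cmp k x0 y0) = w 0 * y0 + w 1 * (k * x0) := by
  unfold Fn
  rw [Finset.sum_congr rfl (g := fun n => w n * (if n = 0 then y0 else if n = 1 then k * x0 else 0))]
  · obtain ⟨m, rfl⟩ : ∃ m, k = m + 1 := ⟨k - 1, by omega⟩
    rw [Finset.sum_range_succ', Finset.sum_range_succ']
    simp
    ring
  · intro n hn
    rw [Finset.mem_range] at hn
    rw [tc_cmp k n hk (by omega)]

/-- `Fn` of a small polynomial is small -/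
lemma Fn_bound {k : ℕ} (w : ℕ → ℝ) {f : ℝ × ℝ → ℝ} (hf : f ∈ PolyLE k)
    (δ : ℝ) (hδ : 0 < δ) (p : ℝ × ℝ) (ε : ℝ)
    (h : ∀ i j : ℕ, i + j ≤ k → |f (p.1 + i * δ, p.2 + j * δ)| ≤ ε) :
    |Fn k w f| ≤ (∑ n ∈ range (k + 1), |w n|) * (2 ^ k * ε / δ ^ k) := by
  unfold Fn
  rw [Finset.sum_mul]
  refine (Finset.abs_sum_le_sum_abs _ _).trans (Finset.sum_le_sum fun n hn => ?_)
  rw [Finset.mem_range] at hn
  rw [abs_mul]
  exact mul_le_mul_of_nonneg_left (tc_bound hf n (by omega) δ hδ p ε h) (abs_nonneg _)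

section bounds

variable {k : ℕ} {h : ℝ} {s : ℝ × ℝ → ℝ} {Q : ℤ → ℤ → Bool → Bool → (ℝ × ℝ → ℝ)}

/-- comparison on the left triangle and on the bottom triangle of a square -/
lemma cell_bound (hk : 1 ≤ k) (hh : 0 < h)
    (hQ : ∀ i j a b, Q i j a b ∈ PolyLE k)
    (hsQ : ∀ i j a b, Set.EqOn s (Q i j a b) (tri h i j a b)) (C : ℝ) (i j : ℤ)
    (hC : ∀ p : ℝ × ℝ, i * h ≤ p.1 → p.1 ≤ (i + 1) * h → j * h ≤ p.2 → p.2 ≤ (j + 1) * h →
      |p.1 ^ k * p.2 - s p| ≤ C * h ^ (k + 1)) (w : ℕ → ℝ) (a : Bool) :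
    |Fn k w (Q i j a false) - (w 0 * (j * h) + w 1 * (k * (i * h)))| ≤
      (∑ n ∈ range (k + 1), |w n|) * (2 ^ k * (C + 1) * (3 * k) ^ k) * h := by
  rw [← Fn_cmp k hk, ← Fn_sub]
  have hk' : (0 : ℝ) < k := by exact_mod_cast hk
  set δ : ℝ := h / (3 * k) with hδ
  have hδ0 : 0 < δ := by rw [hδ]; positivity
  have hδk : (k : ℝ) * δ = h / 3 := by rw [hδ]; field_simp
  -- the bound for points in the triangle
  have key : ∀ p ∈ tri h i j a false,
      |(Q i j a false - cmp k (i * h) (j * h)) p| ≤ (C + 1) * h ^ (k + 1) := by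
    intro p hp
    have hp' := hp
    simp only [tri, Set.mem_ofPred_eq] at hp'
    obtain ⟨c1, c2, c3, c4, -, -⟩ := hp'
    have e1 := hsQ i j a false hp
    rw [Pi.sub_apply, ← e1]
    have e2 := hC p c1 c2 c3 c4
    have e3 : |(p.1 - i * h) ^ k * (p.2 - j * h)| ≤ h ^ (k + 1) := by
      rw [abs_mul, abs_pow, pow_succ]
      have f1 : |p.1 - i * h| ≤ h := by rw [abs_le]; constructor <;> nlinarith
      have f2 : |p.2 - j * h| ≤ h := by rw [abs_le]; constructor <;> nlinarith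
      exact mul_le_mul (pow_le_pow_left₀ (abs_nonneg _) f1 k) f2 (abs_nonneg _) (by positivity)
    have e4 : s p - cmp k (i * h) (j * h) p =
        -(p.1 ^ k * p.2 - s p) + (p.1 - i * h) ^ k * (p.2 - j * h) := by
      simp only [cmp]; ring
    rw [e4]
    calc _ ≤ _ := abs_add_le _ _
      _ ≤ C * h ^ (k + 1) + h ^ (k + 1) := by
        rw [abs_neg]; exact add_le_add e2 e3
      _ = _ := by ring
  have hmem : Q i j a false - cmp k (i * h) (j * h) ∈ PolyLE k :=
    (PolyLE k).sub_mem (hQ _ _ _ _) (cmp_mem _ _ _)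
  have hb := Fn_bound w hmem δ hδ0 (if a then (i * h + h / 3, j * h) else (i * h, j * h + h / 3))
    ((C + 1) * h ^ (k + 1)) ?_
  · refine hb.trans (le_of_eq ?_)
    have : (2 : ℝ) ^ k * ((C + 1) * h ^ (k + 1)) / δ ^ k =
        (2 ^ k * (C + 1) * (3 * k) ^ k) * h := by
      rw [hδ, div_pow, pow_succ]
      have : h ^ k ≠ 0 := by positivity
      field_simp
    rw [this]; ring
  · intro i' j' hij
    apply key
    have g1 : (0 : ℝ) ≤ i' := Nat.cast_nonneg _
    have g2 : (0 : ℝ) ≤ j' := Nat.cast_nonneg _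
    have g3 : ((i' : ℝ) + j') ≤ k := by exact_mod_cast hij
    have g4 : (i' : ℝ) * δ + j' * δ ≤ h / 3 := by
      rw [← hδk, ← add_mul]; exact mul_le_mul_of_nonneg_right g3 hδ0.le
    have g5 : 0 ≤ (i' : ℝ) * δ := by positivity
    have g6 : 0 ≤ (j' : ℝ) * δ := by positivity
    cases a with
    | false =>
      simp only [tri, Set.mem_ofPred_eq, Bool.false_eq_true, if_false]
      refine ⟨?_, ?_, ?_, ?_, ?_, ?_⟩ <;> linarith
    | true =>
      simp only [tri, Set.mem_ofPred_eq, Bool.false_eq_true, if_false, if_true]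
      refine ⟨?_, ?_, ?_, ?_, ?_, ?_⟩ <;> linarith

end bounds

/-- pointwise bound from the `L_∞` bound on an open set -/
lemma bound_of_eLpNorm {G : Set (ℝ × ℝ)} (hG : IsOpen G) {u : ℝ × ℝ → ℝ} (hu : Continuous u)
    {M : ℝ} (hM : 0 ≤ M) (h : eLpNorm u ⊤ (volume.restrict G) ≤ ENNReal.ofReal M) :
    ∀ x ∈ G, |u x| ≤ M := by
  intro x hx
  by_contra hcon
  push Not at hcon
  rw [eLpNorm_exponent_top] at h
  have h1 : ∀ᵐ y ∂(volume.restrict G), ‖u y‖ₑ ≤ ENNReal.ofReal M := by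
    filter_upwards [ae_le_eLpNormEssSup (f := u) (μ := volume.restrict G)] with y hy
    exact hy.trans h
  have h2 : ∀ᵐ y ∂(volume.restrict G), |u y| ≤ M := by
    filter_upwards [h1] with y hy
    rw [← ofReal_norm, ENNReal.ofReal_le_ofReal_iff hM] at hy
    exact hy
  rw [ae_restrict_iff' hG.measurableSet] at h2
  set U : Set (ℝ × ℝ) := G ∩ {y | M < |u y|} with hU
  have hUo : IsOpen U := hG.inter (isOpen_lt continuous_const hu.abs)
  have hU0 : volume U = 0 := by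
    refine measure_mono_null ?_ h2
    rintro y ⟨hy1, hy2⟩
    simp only [Set.mem_compl_iff, Set.mem_ofPred_eq]
    intro h3
    exact absurd (h3 hy1) (not_le.2 hy2)
  have hUe := (hUo.measure_eq_zero_iff volume).1 hU0
  have : x ∈ U := ⟨hx, hcon⟩
  rw [hUe] at this
  exact this

end Pool.MP_ed6410
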