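import Pool.Agent.Lib.MP_ed6410_an.Defs

/-!
# The logarithm of the shift on polynomials (Newton's formula)
-/

open Finset Polynomial
open scoped fwdDiff

namespace Pool.MP_ed6410

/-- the binomial polynomial `x.choose b` -/
noncomputable def binP (b : ℕ) : ℝ[X] := C (1 / (b.factorial : ℝ)) * descPochhammer ℝ b

lemma binP_eval (b n : ℕ) : (binP b).eval (n : ℝ) = (n.choose b : ℝ) := by
  unfold binP
  rw [eval_C_mul, descPochhammer_eval_eq_descFactorial, Nat.choose_eq_descFactorial_div_factorial,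
    Nat.cast_div (Nat.factorial_dvd_descFactorial n b) (by exact_mod_cast b.factorial_ne_zero)]
  ring

lemma binP_natDegree (b : ℕ) : (binP b).natDegree ≤ b := by
  unfold binP
  refine (natDegree_C_mul_le _ _).trans ?_
  simp

lemma binP_coeff_zero (b : ℕ) : (binP b).coeff 0 = if b = 0 then 1 else 0 := by
  unfold binP
  rw [coeff_C_mul, coeff_zero_eq_eval_zero, descPochhammer_eval_zero]
  split_ifs with h
  · subst h; simp
  · simp

lemma binP_coeff_one (q : ℕ) : (binP (q + 1)).coeff 1 = (-1) ^ q / ((q : ℝ) + 1) := by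
  unfold binP
  rw [coeff_C_mul, descPochhammer_succ_left, coeff_X_mul, coeff_zero_eq_eval_zero, eval_comp,
    descPochhammer_eval_eq_prod_range]
  have h1 : ∀ n : ℕ, ∏ j ∈ range n, ((eval 0 (X - 1 : ℝ[X])) - j) = (-1) ^ n * n.factorial := by
    intro n
    induction n with
    | zero => simp
    | succ n ih =>
      rw [Finset.prod_range_succ, ih, Nat.factorial_succ, pow_succ]
      simp only [eval_sub, eval_X, eval_one]
      push_cast
      ring
  rw [h1, Nat.factorial_succ]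
  have : (q.factorial : ℝ) ≠ 0 := by exact_mod_cast q.factorial_ne_zero
  have : (q : ℝ) + 1 ≠ 0 := by positivity
  push_cast
  field_simp

/-- Newton expansion -/
lemma newton_expand (P : ℝ[X]) (K : ℕ) (hP : P.natDegree ≤ K) :
    P = ∑ q ∈ range (K + 1), C (Δ_[(1 : ℝ)] ^[q] (fun x => P.eval x) 0) * binP q := by
  apply Polynomial.eq_of_infinite_eval_eq
  refine Set.Infinite.mono ?_ (Set.infinite_range_of_injective (Nat.cast_injective (R := ℝ)))
  rintro _ ⟨n, rfl⟩
  show eval (n : ℝ) P = eval (n : ℝ) _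
  have h1 := shift_eq_sum_fwdDiff_iter (1 : ℝ) (fun x => P.eval x) n 0
  simp only [zero_add, nsmul_eq_mul, mul_one] at h1
  rw [h1, eval_finsetSum]
  simp only [eval_mul, eval_C, binP_eval]
  have h2 : ∑ q ∈ range (n + 1), (n.choose q : ℝ) * Δ_[(1 : ℝ)] ^[q] (fun x => P.eval x) 0 =
      ∑ q ∈ range (n + K + 1), (n.choose q : ℝ) * Δ_[(1 : ℝ)] ^[q] (fun x => P.eval x) 0 := by
    apply Finset.sum_subset
    · intro x; simp only [Finset.mem_range]; omega
    · intro x _ hx
      rw [Finset.mem_range] at hx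
      rw [Nat.choose_eq_zero_of_lt (by omega)]; simp
  have h3 : ∑ q ∈ range (K + 1), Δ_[(1 : ℝ)] ^[q] (fun x => P.eval x) 0 * (n.choose q : ℝ) =
      ∑ q ∈ range (n + K + 1), Δ_[(1 : ℝ)] ^[q] (fun x => P.eval x) 0 * (n.choose q : ℝ) := by
    apply Finset.sum_subset
    · intro x; simp only [Finset.mem_range]; omega
    · intro x _ hx
      rw [Finset.mem_range] at hx
      have := Polynomial.fwdDiff_iter_eq_zero_of_degree_lt (P := P) (n := x) (by omega)
      have h4 : Δ_[(1 : ℝ)] ^[x] (fun x => P.eval x) 0 = 0 := by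
        have h5 := congrFun this 0
        simpa using h5
      rw [h4]; simp
  rw [h2, h3]
  refine Finset.sum_congr rfl fun q _ => mul_comm _ _

/-- Newton's formula for the derivative at `0` (real case) -/
lemma newton_real (P : ℝ[X]) (K : ℕ) (hP : P.natDegree ≤ K) :
    ∑ j ∈ range K, (1 / ((j : ℝ) + 1)) * ((-1) ^ (j + 1) *
      Δ_[(1 : ℝ)] ^[j + 1] (fun x => P.eval x) 0) = - P.coeff 1 := by
  have h1 : P.coeff 1 = ∑ q ∈ range (K + 1),
      Δ_[(1 : ℝ)] ^[q] (fun x => P.eval x) 0 * (binP q).coeff 1 := by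
    conv_lhs => rw [newton_expand P K hP]
    rw [finsetSum_coeff]
    refine Finset.sum_congr rfl fun q _ => ?_
    rw [coeff_C_mul]
  rw [Finset.sum_range_succ'] at h1
  have h2 : (binP 0).coeff 1 = 0 := by
    apply coeff_eq_zero_of_natDegree_lt
    have := binP_natDegree 0
    omega
  rw [h2, mul_zero, add_zero] at h1
  rw [h1, ← Finset.sum_neg_distrib]
  refine Finset.sum_congr rfl fun q _ => ?_
  rw [binP_coeff_one]
  ring

section algebra

variable {A : Type*} [CommRing A] [Algebra ℝ A]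

/-- the operator `∑_{j ≥ 1} (1 - S)^j / j` evaluated at `0` -/
noncomputable def NJ (K : ℕ) (f : ℕ → A) : A :=
  ∑ j ∈ range K, (1 / ((j : ℝ) + 1)) • ((-1 : A) ^ (j + 1) * Δ_[(1 : ℕ)] ^[j + 1] f 0)

lemma fd_cast (ψ : ℝ → ℝ) (a : A) (q : ℕ) :
    Δ_[(1 : ℕ)] ^[q] (fun l : ℕ => algebraMap ℝ A (ψ l) * a) 0 =
      algebraMap ℝ A (Δ_[(1 : ℝ)] ^[q] ψ 0) * a := by
  rw [fwdDiff_iter_eq_sum_shift, fwdDiff_iter_eq_sum_shift, map_sum, Finset.sum_mul]
  refine Finset.sum_congr rfl fun i _ => ?_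
  simp only [zero_add, nsmul_eq_mul, mul_one, zsmul_eq_mul, map_mul, map_pow, map_neg, map_one,
    map_natCast, Int.cast_mul, Int.cast_pow, Int.cast_neg, Int.cast_one, Int.cast_natCast,
    smul_eq_mul, Nat.cast_id]
  ring

/-- Newton's formula over an `ℝ`-algebra -/
lemma newton_alg (p : A[X]) (K : ℕ) (hp : p.natDegree ≤ K) :
    NJ K (fun l : ℕ => p.eval (l : A)) = - p.coeff 1 := by
  -- expand `p`
  have hφ : (fun l : ℕ => p.eval (l : A)) =
      ∑ n ∈ range (K + 1), (fun l : ℕ => algebraMap ℝ A ((X ^ n : ℝ[X]).eval (l : ℝ)) * p.coeff n) := by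
    funext l
    rw [eval_eq_sum_range' (n := K + 1) (by omega)]
    simp only [Finset.sum_apply, eval_pow, eval_X, map_pow, map_natCast]
    refine Finset.sum_congr rfl fun n _ => mul_comm _ _
  have h1 : ∀ j : ℕ, Δ_[(1 : ℕ)] ^[j] (fun l : ℕ => p.eval (l : A)) 0 =
      ∑ n ∈ range (K + 1), algebraMap ℝ A (Δ_[(1 : ℝ)] ^[j] (fun x => (X ^ n : ℝ[X]).eval x) 0) *
        p.coeff n := by
    intro j
    rw [hφ, fwdDiff_iter_finsetSum, Finset.sum_apply]
    refine Finset.sum_congr rfl fun n _ => ?_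
    exact fd_cast (fun x => (X ^ n : ℝ[X]).eval x) (p.coeff n) j
  unfold NJ
  simp only [h1]
  have h2 : ∀ j ∈ range K, (1 / ((j : ℝ) + 1)) • ((-1 : A) ^ (j + 1) * ∑ n ∈ range (K + 1),
      algebraMap ℝ A (Δ_[(1 : ℝ)] ^[j + 1] (fun x => (X ^ n : ℝ[X]).eval x) 0) * p.coeff n) =
      ∑ n ∈ range (K + 1), algebraMap ℝ A ((1 / ((j : ℝ) + 1)) * ((-1) ^ (j + 1) *
        Δ_[(1 : ℝ)] ^[j + 1] (fun x => (X ^ n : ℝ[X]).eval x) 0)) * p.coeff n := by
    intro j _
    rw [Finset.mul_sum, Finset.smul_sum]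
    refine Finset.sum_congr rfl fun n _ => ?_
    rw [Algebra.smul_def]
    simp only [map_mul, map_pow, map_neg, map_one]
    ring
  rw [Finset.sum_congr rfl h2, Finset.sum_comm]
  have h3 : ∀ n ∈ range (K + 1), ∑ j ∈ range K, algebraMap ℝ A ((1 / ((j : ℝ) + 1)) *
      ((-1) ^ (j + 1) * Δ_[(1 : ℝ)] ^[j + 1] (fun x => (X ^ n : ℝ[X]).eval x) 0)) * p.coeff n =
      if n = 1 then - p.coeff 1 else 0 := by
    intro n hn
    rw [Finset.mem_range] at hn
    rw [← Finset.sum_mul, ← map_sum, newton_real (X ^ n) K (by simp; omega)]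
    rw [coeff_X_pow]
    split_ifs with h4 h5
    · rw [h5]; simp
    · exact absurd h4.symm h5
    · omega
    · simp
  rw [Finset.sum_congr rfl h3]
  by_cases hK : 1 < K + 1
  · rw [Finset.sum_ite_eq' (range (K + 1)) 1, if_pos (Finset.mem_range.2 hK)]
  · rw [Finset.sum_eq_zero]
    · rw [coeff_eq_zero_of_natDegree_lt (by omega), neg_zero]
    · intro n hn
      rw [Finset.mem_range] at hn
      rw [if_neg (by omega)]

end algebra

end Pool.MP_ed6410
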