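import Pool.Agent.Lib.MP_ed6410_an.Newton

/-!
# Polynomial functions on the plane with values in an algebra
-/

open Finset Polynomial
open scoped fwdDiff

namespace Pool.MP_ed6410

section pev

variable {B : Type*} [AddCommGroup B] [Module ℝ B]

/-- polynomial function of total degree `≤ m` with coefficient array `c` -/
noncomputable def pev (m : ℕ) (c : ℕ → ℕ → B) (X : ℝ × ℝ) : B :=
  ∑ i ∈ range (m + 1), ∑ j ∈ range (m + 1 - i), (X.1 ^ i * X.2 ^ j) • c i j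

lemma pev_add (m : ℕ) (c d : ℕ → ℕ → B) (X : ℝ × ℝ) :
    pev m (c + d) X = pev m c X + pev m d X := by
  simp [pev, Finset.sum_add_distrib]

lemma pev_sub (m : ℕ) (c d : ℕ → ℕ → B) (X : ℝ × ℝ) :
    pev m (c - d) X = pev m c X - pev m d X := by
  simp [pev, Finset.sum_sub_distrib, smul_sub]

lemma pev_zero (m : ℕ) (X : ℝ × ℝ) : pev m (0 : ℕ → ℕ → B) X = 0 := by
  simp [pev]

lemma pev_map {B' : Type*} [AddCommGroup B'] [Module ℝ B'] (f : B →ₗ[ℝ] B') (m : ℕ)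
    (c : ℕ → ℕ → B) (X : ℝ × ℝ) : f (pev m c X) = pev m (fun i j => f (c i j)) X := by
  simp [pev, map_sum]

/-- the coefficient array of the shifted polynomial function -/
noncomputable def shiftArr (m : ℕ) (e : ℝ × ℝ) (c : ℕ → ℕ → B) (i j : ℕ) : B :=
  ∑ i' ∈ range (m + 1), ∑ j' ∈ range (m + 1 - i'),
    ((i'.choose i : ℝ) * (j'.choose j : ℝ) * e.1 ^ (i' - i) * e.2 ^ (j' - j)) • c i' j'

lemma mono_shift (m i j : ℕ) (hij : i + j ≤ m) (e X : ℝ × ℝ) :
    (X.1 + e.1) ^ i * (X.2 + e.2) ^ j =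
      ∑ i' ∈ range (m + 1), ∑ j' ∈ range (m + 1 - i'),
        (X.1 ^ i' * X.2 ^ j') * ((i.choose i' : ℝ) * (j.choose j' : ℝ) * e.1 ^ (i - i') *
          e.2 ^ (j - j')) := by
  have h1 : ∑ i' ∈ range (m + 1), ∑ j' ∈ range (m + 1 - i'),
        (X.1 ^ i' * X.2 ^ j') * ((i.choose i' : ℝ) * (j.choose j' : ℝ) * e.1 ^ (i - i') *
          e.2 ^ (j - j')) = ∑ i' ∈ range (i + 1), ∑ j' ∈ range (j + 1),
        (X.1 ^ i' * X.2 ^ j') * ((i.choose i' : ℝ) * (j.choose j' : ℝ) * e.1 ^ (i - i') *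
          e.2 ^ (j - j')) := by
    symm
    rw [← Finset.sum_subset (s₁ := range (i + 1)) (s₂ := range (m + 1))]
    · refine Finset.sum_congr rfl fun i' hi' => ?_
      rw [Finset.mem_range] at hi'
      apply Finset.sum_subset
      · intro x; simp only [Finset.mem_range]; omega
      · intro x _ hx
        rw [Finset.mem_range] at hx
        rw [Nat.choose_eq_zero_of_lt (n := j) (k := x) (by omega)]; simp
    · intro x; simp only [Finset.mem_range]; omega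
    · intro x _ hx
      rw [Finset.mem_range] at hx
      refine Finset.sum_eq_zero fun j' _ => ?_
      rw [Nat.choose_eq_zero_of_lt (n := i) (k := x) (by omega)]; simp
  rw [h1, add_pow, add_pow, Finset.sum_mul_sum]
  refine Finset.sum_congr rfl fun i' _ => Finset.sum_congr rfl fun j' _ => ?_
  ring

lemma swap4 (s : Finset ℕ) (t : ℕ → Finset ℕ) (g : ℕ → ℕ → ℕ → ℕ → B) :
    ∑ i' ∈ s, ∑ j' ∈ t i', ∑ i ∈ s, ∑ j ∈ t i, g i' j' i j =
      ∑ i ∈ s, ∑ j ∈ t i, ∑ i' ∈ s, ∑ j' ∈ t i', g i' j' i j := by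
  have h : ∀ f : ℕ → ℕ → B, ∑ i ∈ s, ∑ j ∈ t i, f i j =
      ∑ p ∈ s.sigma t, f p.1 p.2 := fun f => by rw [Finset.sum_sigma]
  rw [h (fun i' j' => ∑ i ∈ s, ∑ j ∈ t i, g i' j' i j)]
  rw [h (fun i j => ∑ i' ∈ s, ∑ j' ∈ t i', g i' j' i j)]
  have h3 : ∀ p : (_ : ℕ) × ℕ, ∑ i ∈ s, ∑ j ∈ t i, g p.1 p.2 i j =
      ∑ q ∈ s.sigma t, g p.1 p.2 q.1 q.2 := fun p => h _
  have h4 : ∀ q : (_ : ℕ) × ℕ, ∑ i' ∈ s, ∑ j' ∈ t i', g i' j' q.1 q.2 =
      ∑ p ∈ s.sigma t, g p.1 p.2 q.1 q.2 := fun q => h (fun i' j' => g i' j' q.1 q.2)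
  simp only [h3, h4]
  exact Finset.sum_comm

lemma pev_shift (m : ℕ) (e : ℝ × ℝ) (c : ℕ → ℕ → B) (X : ℝ × ℝ) :
    pev m (shiftArr m e c) X = pev m c (X + e) := by
  have h1 : pev m c (X + e) = ∑ i ∈ range (m + 1), ∑ j ∈ range (m + 1 - i),
      ∑ i' ∈ range (m + 1), ∑ j' ∈ range (m + 1 - i'),
        ((X.1 ^ i' * X.2 ^ j') * ((i.choose i' : ℝ) * (j.choose j' : ℝ) * e.1 ^ (i - i') *
          e.2 ^ (j - j'))) • c i j := by
    unfold pev
    refine Finset.sum_congr rfl fun i hi => Finset.sum_congr rfl fun j hj => ?_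
    rw [Finset.mem_range] at hi hj
    rw [Prod.fst_add, Prod.snd_add, mono_shift m i j (by omega) e X, Finset.sum_smul]
    refine Finset.sum_congr rfl fun i' _ => ?_
    rw [Finset.sum_smul]
  have h2 : pev m (shiftArr m e c) X = ∑ i' ∈ range (m + 1), ∑ j' ∈ range (m + 1 - i'),
      ∑ i ∈ range (m + 1), ∑ j ∈ range (m + 1 - i),
        ((X.1 ^ i' * X.2 ^ j') * ((i.choose i' : ℝ) * (j.choose j' : ℝ) * e.1 ^ (i - i') *
          e.2 ^ (j - j'))) • c i j := by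
    unfold pev shiftArr
    refine Finset.sum_congr rfl fun i' _ => Finset.sum_congr rfl fun j' _ => ?_
    rw [Finset.smul_sum]
    refine Finset.sum_congr rfl fun i _ => ?_
    rw [Finset.smul_sum]
    refine Finset.sum_congr rfl fun j _ => ?_
    rw [smul_smul]
  rw [h1, h2]
  exact swap4 _ _ (fun i' j' i j => ((X.1 ^ i' * X.2 ^ j') * ((i.choose i' : ℝ) *
    (j.choose j' : ℝ) * e.1 ^ (i - i') * e.2 ^ (j - j'))) • c i j)

lemma shiftArr_top (m : ℕ) (e : ℝ × ℝ) (c : ℕ → ℕ → B) : shiftArr m e c m 0 = c m 0 := by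
  unfold shiftArr
  rw [Finset.sum_eq_single m]
  · have : m + 1 - m = 1 := by omega
    rw [this]
    simp
  · intro i hi hne
    rw [Finset.mem_range] at hi
    refine Finset.sum_eq_zero fun j _ => ?_
    rw [Nat.choose_eq_zero_of_lt (n := i) (k := m) (by omega)]; simp
  · intro h; exact absurd (Finset.mem_range.2 (by omega)) h

end pev

end Pool.MP_ed6410
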