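import Pool.Agent.Lib.MP_ed6410_an.Defs

/-!
# Polynomial functions of bounded total degree
-/

open Finset
open scoped fwdDiff Nat
open Function

namespace Pool.MP_ed6410

/-! ### basic closure properties -/

lemma mono_mem {i j k : ℕ} (h : i + j ≤ k) :
    (fun p : ℝ × ℝ => p.1 ^ i * p.2 ^ j) ∈ PolyLE k :=
  Submodule.subset_span ⟨i, j, h, rfl⟩

lemma PolyLE_mono {a b : ℕ} (h : a ≤ b) : PolyLE a ≤ PolyLE b := by
  refine Submodule.span_mono ?_
  rintro f ⟨i, j, hij, rfl⟩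
  exact ⟨i, j, hij.trans h, rfl⟩

lemma const_mem (k : ℕ) (c : ℝ) : (fun _ : ℝ × ℝ => c) ∈ PolyLE k := by
  have h : (fun _ : ℝ × ℝ => c) = c • (fun p : ℝ × ℝ => p.1 ^ 0 * p.2 ^ 0) := by
    funext p; simp
  rw [h]
  exact (PolyLE k).smul_mem _ (mono_mem (by omega))

lemma lin_mem (a b c : ℝ) : (fun p : ℝ × ℝ => a * p.1 + b * p.2 + c) ∈ PolyLE 1 := by
  have h : (fun p : ℝ × ℝ => a * p.1 + b * p.2 + c) =
      a • (fun p : ℝ × ℝ => p.1 ^ 1 * p.2 ^ 0) + b • (fun p : ℝ × ℝ => p.1 ^ 0 * p.2 ^ 1)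
        + (fun _ : ℝ × ℝ => c) := by
    funext p; simp
  rw [h]
  exact (PolyLE 1).add_mem ((PolyLE 1).add_mem
    ((PolyLE 1).smul_mem _ (mono_mem (by omega))) ((PolyLE 1).smul_mem _ (mono_mem (by omega))))
    (const_mem _ _)

lemma mul_mem' {a b : ℕ} {f g : ℝ × ℝ → ℝ} (hf : f ∈ PolyLE a) (hg : g ∈ PolyLE b) :
    (fun p => f p * g p) ∈ PolyLE (a + b) := by
  unfold PolyLE at hf
  induction hf using Submodule.span_induction with
  | mem f hf =>
    obtain ⟨i, j, hij, rfl⟩ := hf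
    unfold PolyLE at hg
    induction hg using Submodule.span_induction with
    | mem g hg =>
      obtain ⟨i', j', hij', rfl⟩ := hg
      have : (fun p : ℝ × ℝ => p.1 ^ i * p.2 ^ j * (p.1 ^ i' * p.2 ^ j')) =
          fun p => p.1 ^ (i + i') * p.2 ^ (j + j') := by
        funext p; ring
      show (fun p : ℝ × ℝ => p.1 ^ i * p.2 ^ j * (p.1 ^ i' * p.2 ^ j')) ∈ _
      rw [this]
      exact mono_mem (by omega)
    | zero =>
      have h0 : (fun p : ℝ × ℝ => p.1 ^ i * p.2 ^ j * (0 : ℝ × ℝ → ℝ) p) = 0 := by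
        funext p; simp
      show (fun p : ℝ × ℝ => p.1 ^ i * p.2 ^ j * (0 : ℝ × ℝ → ℝ) p) ∈ _
      rw [h0]
      exact (PolyLE (a + b)).zero_mem
    | add x y _ _ hx hy =>
      have := (PolyLE (a + b)).add_mem hx hy
      convert this using 1
      funext p; simp [mul_add]
    | smul c x _ hx =>
      have := (PolyLE (a + b)).smul_mem c hx
      convert this using 1
      funext p; simp; ring
  | zero =>
    have h0 : (fun p : ℝ × ℝ => (0 : ℝ × ℝ → ℝ) p * g p) = 0 := by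
      funext p; simp
    rw [h0]
    exact (PolyLE (a + b)).zero_mem
  | add x y _ _ hx hy =>
    have := (PolyLE (a + b)).add_mem hx hy
    convert this using 1
    funext p; simp [add_mul]
  | smul c x _ hx =>
    have := (PolyLE (a + b)).smul_mem c hx
    convert this using 1
    funext p; simp; ring

lemma pow_mem' {a : ℕ} {f : ℝ × ℝ → ℝ} (hf : f ∈ PolyLE a) (n : ℕ) :
    (fun p => f p ^ n) ∈ PolyLE (n * a) := by
  induction n with
  | zero => simpa using const_mem 0 1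
  | succ n ih =>
    have := mul_mem' ih hf
    have h2 : (fun p => f p ^ (n + 1)) = fun p => f p ^ n * f p := by
      funext p; ring
    rw [h2]
    refine PolyLE_mono ?_ this
    rw [Nat.succ_mul]

lemma linpow_mem (a b c : ℝ) (n : ℕ) :
    (fun p : ℝ × ℝ => (a * p.1 + b * p.2 + c) ^ n) ∈ PolyLE n := by
  have := pow_mem' (lin_mem a b c) n
  simpa using this

lemma comp_affine_mem {k : ℕ} {f : ℝ × ℝ → ℝ} (hf : f ∈ PolyLE k) (c a b : ℝ) :
    (fun p : ℝ × ℝ => f (c * p.1 + a, c * p.2 + b)) ∈ PolyLE k := by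
  unfold PolyLE at hf
  induction hf using Submodule.span_induction with
  | mem f hf =>
    obtain ⟨i, j, hij, rfl⟩ := hf
    have h1 := linpow_mem c 0 a i
    have h2 := linpow_mem 0 c b j
    have := PolyLE_mono hij (mul_mem' h1 h2)
    simpa using this
  | zero => exact (PolyLE k).zero_mem
  | add x y _ _ hx hy => exact (PolyLE k).add_mem hx hy
  | smul c x _ hx => exact (PolyLE k).smul_mem c hx

lemma comp_add_mem {k : ℕ} {f : ℝ × ℝ → ℝ} (hf : f ∈ PolyLE k) (v : ℝ × ℝ) :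
    (fun p : ℝ × ℝ => f (p + v)) ∈ PolyLE k := by
  have := comp_affine_mem hf 1 v.1 v.2
  simpa [Prod.add_def] using this

lemma comp_sub_mem {k : ℕ} {f : ℝ × ℝ → ℝ} (hf : f ∈ PolyLE k) (v : ℝ × ℝ) :
    (fun p : ℝ × ℝ => f (p - v)) ∈ PolyLE k := by
  have := comp_add_mem hf (-v)
  simpa [sub_eq_add_neg] using this

lemma PolyLE_contDiff {k : ℕ} {f : ℝ × ℝ → ℝ} (hf : f ∈ PolyLE k) {n : WithTop ℕ∞} :
    ContDiff ℝ n f := by
  unfold PolyLE at hf
  induction hf using Submodule.span_induction with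
  | mem f hf =>
    obtain ⟨i, j, hij, rfl⟩ := hf
    fun_prop
  | zero => exact contDiff_const
  | add x y _ _ hx hy => exact hx.add hy
  | smul c x _ hx => exact contDiff_const.smul hx

lemma sum_mem'' {k : ℕ} {ι : Type*} (s : Finset ι) (F : ι → ℝ × ℝ → ℝ)
    (h : ∀ i ∈ s, F i ∈ PolyLE k) : (fun p => ∑ i ∈ s, F i p) ∈ PolyLE k := by
  have := (PolyLE k).sum_mem h
  convert this using 1
  funext p
  simp

lemma const_mul_mem {k : ℕ} {f : ℝ × ℝ → ℝ} (hf : f ∈ PolyLE k) (c : ℝ) :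
    (fun p => c * f p) ∈ PolyLE k := by
  exact (PolyLE k).smul_mem c hf

/-- coefficient arrays -/
lemma exists_coeff {k : ℕ} {f : ℝ × ℝ → ℝ} (hf : f ∈ PolyLE k) :
    ∃ c : ℕ → ℕ → ℝ, (∀ i j, k < i + j → c i j = 0) ∧
      ∀ p : ℝ × ℝ, f p = ∑ i ∈ range (k + 1), ∑ j ∈ range (k + 1), c i j * (p.1 ^ i * p.2 ^ j) := by
  unfold PolyLE at hf
  induction hf using Submodule.span_induction with
  | mem f hf =>
    obtain ⟨i, j, hij, rfl⟩ := hf
    refine ⟨fun a b => if a = i ∧ b = j then 1 else 0, ?_, ?_⟩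
    · intro a b hab
      show (if a = i ∧ b = j then (1 : ℝ) else 0) = 0
      rw [if_neg]
      rintro ⟨rfl, rfl⟩
      omega
    · intro p
      rw [Finset.sum_eq_single i]
      · rw [Finset.sum_eq_single j]
        · simp
        · intro b _ hb; simp [hb]
        · intro h; exact absurd (Finset.mem_range.2 (by omega)) h
      · intro a _ ha; simp [ha]
      · intro h; exact absurd (Finset.mem_range.2 (by omega)) h
  | zero => exact ⟨fun _ _ => 0, by simp, by simp⟩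
  | add x y _ _ hx hy =>
    obtain ⟨c, hc, hc'⟩ := hx
    obtain ⟨d, hd, hd'⟩ := hy
    refine ⟨fun i j => c i j + d i j, ?_, ?_⟩
    · intro i j h; simp [hc i j h, hd i j h]
    · intro p
      simp only [Pi.add_apply, hc', hd', ← Finset.sum_add_distrib]
      refine Finset.sum_congr rfl fun i _ => Finset.sum_congr rfl fun j _ => ?_
      ring
  | smul a x _ hx =>
    obtain ⟨c, hc, hc'⟩ := hx
    refine ⟨fun i j => a * c i j, ?_, ?_⟩
    · intro i j h; simp [hc i j h]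
    · intro p
      simp only [Pi.smul_apply, hc', smul_eq_mul, Finset.mul_sum]
      refine Finset.sum_congr rfl fun i _ => Finset.sum_congr rfl fun j _ => ?_
      ring

/-! ### differences -/

/-- mixed forward difference with step `δ` -/
noncomputable def mixd (δ : ℝ) (a b : ℕ) (f : ℝ × ℝ → ℝ) (p : ℝ × ℝ) : ℝ :=
  Δ_[((δ, 0) : ℝ × ℝ)] ^[a] (Δ_[((0, δ) : ℝ × ℝ)] ^[b] f) p

lemma mixd_add (δ : ℝ) (a b : ℕ) (f g : ℝ × ℝ → ℝ) (p : ℝ × ℝ) :
    mixd δ a b (f + g) p = mixd δ a b f p + mixd δ a b g p := by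
  simp [mixd]

lemma mixd_smul (δ : ℝ) (a b : ℕ) (c : ℝ) (f : ℝ × ℝ → ℝ) (p : ℝ × ℝ) :
    mixd δ a b (c • f) p = c * mixd δ a b f p := by
  simp [mixd]

lemma mixd_zero (δ : ℝ) (a b : ℕ) (p : ℝ × ℝ) :
    mixd δ a b 0 p = 0 := by
  have := mixd_smul δ a b 0 0 p
  simpa using this

lemma mixd_prod (δ : ℝ) (a b : ℕ) (f g : ℝ → ℝ) (p : ℝ × ℝ) :
    mixd δ a b (fun p => f p.1 * g p.2) p = Δ_[δ] ^[a] f p.1 * Δ_[δ] ^[b] g p.2 := by
  have h1 : ∀ (b : ℕ) (g : ℝ → ℝ), Δ_[((0, δ) : ℝ × ℝ)] ^[b] (fun p => f p.1 * g p.2) =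
      fun p => f p.1 * Δ_[δ] ^[b] g p.2 := by
    intro b
    induction b with
    | zero => intro g; rfl
    | succ b ih =>
      intro g
      rw [Function.iterate_succ_apply, Function.iterate_succ_apply]
      rw [← ih]
      congr 1
      funext p
      simp only [fwdDiff, Prod.fst_add, Prod.snd_add, add_zero]
      ring
  have h2 : ∀ (a : ℕ) (f g : ℝ → ℝ), Δ_[((δ, 0) : ℝ × ℝ)] ^[a] (fun p => f p.1 * g p.2) =
      fun p => Δ_[δ] ^[a] f p.1 * g p.2 := by
    intro a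
    induction a with
    | zero => intro f g; rfl
    | succ a ih =>
      intro f g
      rw [Function.iterate_succ_apply, Function.iterate_succ_apply]
      rw [← ih]
      congr 1
      funext p
      simp only [fwdDiff, Prod.fst_add, Prod.snd_add, add_zero]
      ring
  unfold mixd
  rw [h1, h2]

lemma fd_scale (δ : ℝ) (hδ : δ ≠ 0) (a : ℕ) (f : ℝ → ℝ) (x : ℝ) :
    Δ_[δ] ^[a] f x = Δ_[1] ^[a] (fun t => f (δ * t)) (x / δ) := by
  rw [fwdDiff_iter_eq_sum_shift, fwdDiff_iter_eq_sum_shift]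
  refine Finset.sum_congr rfl fun i _ => ?_
  congr 2
  field_simp
  simp
  ring

lemma fd_pow (δ : ℝ) (hδ : δ ≠ 0) (a i : ℕ) (h : i ≤ a) (x : ℝ) :
    Δ_[δ] ^[a] (fun t : ℝ => t ^ i) x = if i = a then (a ! : ℝ) * δ ^ a else 0 := by
  rw [fd_scale δ hδ]
  have h1 : (fun t : ℝ => (δ * t) ^ i) = (δ ^ i) • (fun t : ℝ => t ^ i) := by
    funext t; simp [mul_pow]
  rw [h1, fwdDiff_iter_const_smul]
  split_ifs with h2
  · subst h2
    rw [fwdDiff_iter_eq_factorial]
    simp [mul_comm]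
  · rw [fwdDiff_iter_pow_eq_zero_of_lt (by omega)]
    simp

lemma mixd_mono (δ : ℝ) (hδ : δ ≠ 0) (a b i j : ℕ) (h : i + j ≤ a + b) (p : ℝ × ℝ) :
    mixd δ a b (fun p => p.1 ^ i * p.2 ^ j) p =
      if i = a ∧ j = b then (a ! : ℝ) * b ! * δ ^ (a + b) else 0 := by
  have := mixd_prod δ a b (fun t => t ^ i) (fun t => t ^ j) p
  rw [this]
  by_cases h1 : i ≤ a
  · by_cases h2 : j ≤ b
    · rw [fd_pow δ hδ a i h1, fd_pow δ hδ b j h2]
      by_cases h3 : i = a
      · by_cases h4 : j = b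
        · simp [h3, h4]; ring
        · simp [h4]
      · simp [h3]
    · have h3 : i < a := by omega
      rw [fd_pow δ hδ a i h1, if_neg h3.ne, if_neg (by omega)]
      simp
  · have h3 : j < b := by omega
    rw [fd_pow δ hδ b j h3.le, if_neg h3.ne, if_neg (by omega)]
    simp

/-- top coefficient functional: the coefficient of `x^(k-n) y^n` -/
noncomputable def tc (k n : ℕ) (f : ℝ × ℝ → ℝ) : ℝ :=
  mixd 1 (k - n) n f 0 / ((k - n)! * n !)

lemma tc_add (k n : ℕ) (f g : ℝ × ℝ → ℝ) : tc k n (f + g) = tc k n f + tc k n g := by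
  simp [tc, mixd_add, add_div]

lemma tc_smul (k n : ℕ) (c : ℝ) (f : ℝ × ℝ → ℝ) : tc k n (c • f) = c * tc k n f := by
  simp [tc, mixd_smul, mul_div_assoc]

lemma tc_zero (k n : ℕ) : tc k n 0 = 0 := by
  simp [tc, mixd_zero]

lemma tc_neg (k n : ℕ) (f : ℝ × ℝ → ℝ) : tc k n (-f) = - tc k n f := by
  have := tc_smul k n (-1) f
  simpa using this

lemma tc_sub (k n : ℕ) (f g : ℝ × ℝ → ℝ) : tc k n (f - g) = tc k n f - tc k n g := by
  rw [sub_eq_add_neg, tc_add, tc_neg]; ring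

lemma tc_mono (k n i j : ℕ) (hn : n ≤ k) (h : i + j ≤ k) :
    tc k n (fun p => p.1 ^ i * p.2 ^ j) = if i = k - n ∧ j = n then 1 else 0 := by
  unfold tc
  rw [mixd_mono 1 one_ne_zero _ _ _ _ (by omega)]
  split_ifs
  · have h1 : ((k - n)! : ℝ) ≠ 0 := by exact_mod_cast (k - n).factorial_ne_zero
    have h2 : (n ! : ℝ) ≠ 0 := by exact_mod_cast n.factorial_ne_zero
    field_simp
    simp
  · simp

/-- for `P` of degree `≤ k` the mixed differences of order `k` are the top coefficients -/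
lemma mixd_eq_tc {k : ℕ} {f : ℝ × ℝ → ℝ} (hf : f ∈ PolyLE k) (n : ℕ) (hn : n ≤ k)
    (δ : ℝ) (hδ : δ ≠ 0) (p : ℝ × ℝ) :
    mixd δ (k - n) n f p = ((k - n)! * n ! * δ ^ k) * tc k n f := by
  unfold PolyLE at hf
  induction hf using Submodule.span_induction with
  | mem f hf =>
    obtain ⟨i, j, hij, rfl⟩ := hf
    rw [tc_mono k n i j hn hij, mixd_mono δ hδ _ _ _ _ (by omega)]
    have : k - n + n = k := by omega
    split_ifs
    · rw [this]; ring
    · simp
  | zero => rw [mixd_zero, tc_zero, mul_zero]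
  | add x y _ _ hx hy => rw [mixd_add, tc_add, hx, hy]; ring
  | smul c x _ hx => rw [mixd_smul, tc_smul, hx]; ring

lemma fd_bound (v : ℝ × ℝ) (a : ℕ) (f : ℝ × ℝ → ℝ) (p : ℝ × ℝ) (ε : ℝ)
    (h : ∀ i ≤ a, |f (p + (i : ℝ) • v)| ≤ ε) : |Δ_[v] ^[a] f p| ≤ 2 ^ a * ε := by
  induction a generalizing f ε with
  | zero => simpa using h 0 le_rfl
  | succ a ih =>
    rw [Function.iterate_succ_apply]
    have := ih (Δ_[v] f) (2 * ε) ?_
    · calc _ ≤ _ := this
        _ = _ := by ring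
    · intro i hi
      have h1 := h i (by omega)
      have h2 := h (i + 1) (by omega)
      simp only [fwdDiff]
      have h3 : p + (i : ℝ) • v + v = p + ((i + 1 : ℕ) : ℝ) • v := by
        push_cast; rw [add_smul, one_smul]; abel
      rw [h3]
      rw [abs_le] at h1 h2 ⊢
      constructor <;> linarith [h1.1, h1.2, h2.1, h2.2]

lemma mixd_bound (δ : ℝ) (a b : ℕ) (f : ℝ × ℝ → ℝ) (p : ℝ × ℝ) (ε : ℝ)
    (h : ∀ i ≤ a, ∀ j ≤ b, |f (p.1 + i * δ, p.2 + j * δ)| ≤ ε) :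
    |mixd δ a b f p| ≤ 2 ^ (a + b) * ε := by
  unfold mixd
  have := fd_bound (δ, 0) a (Δ_[((0, δ) : ℝ × ℝ)] ^[b] f) p (2 ^ b * ε) ?_
  · calc _ ≤ _ := this
      _ = _ := by ring
  · intro i hi
    apply fd_bound
    intro j hj
    have := h i hi j hj
    convert this using 3
    ext <;> simp

lemma tc_bound {k : ℕ} {f : ℝ × ℝ → ℝ} (hf : f ∈ PolyLE k) (n : ℕ) (hn : n ≤ k)
    (δ : ℝ) (hδ : 0 < δ) (p : ℝ × ℝ) (ε : ℝ)
    (h : ∀ i j : ℕ, i + j ≤ k → |f (p.1 + i * δ, p.2 + j * δ)| ≤ ε) :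
    |tc k n f| ≤ 2 ^ k * ε / δ ^ k := by
  have h1 := mixd_eq_tc hf n hn δ hδ.ne' p
  have h2 := mixd_bound δ (k - n) n f p ε (fun i hi j hj => h i j (by omega))
  have h3 : k - n + n = k := by omega
  rw [h3, h1, abs_mul] at h2
  have h4 : (0 : ℝ) < δ ^ k := by positivity
  rw [le_div_iff₀ h4]
  have h5 : (1 : ℝ) ≤ (k - n)! * n ! := by
    have : 1 ≤ (k - n)! * n ! := Nat.mul_pos (Nat.factorial_pos _) (Nat.factorial_pos _)
    exact_mod_cast this
  have h6 : |((k - n)! * n ! * δ ^ k : ℝ)| = (k - n)! * n ! * δ ^ k := abs_of_pos (by positivity)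
  rw [h6] at h2
  have h7 : 0 ≤ |tc k n f| := abs_nonneg _
  have h8 : 0 ≤ |tc k n f| * δ ^ k := by positivity
  calc |tc k n f| * δ ^ k = 1 * (|tc k n f| * δ ^ k) := by ring
    _ ≤ ((k - n)! * n !) * (|tc k n f| * δ ^ k) := mul_le_mul_of_nonneg_right h5 h8
    _ = (k - n)! * n ! * δ ^ k * |tc k n f| := by ring
    _ ≤ _ := h2

end Pool.MP_ed6410
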