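import Pool.Agent.Lib.MP_ed6410_an.Spline

/-!
# The quasi-interpolant
-/

open Finset
open scoped fwdDiff

namespace Pool.MP_ed6410

/-! ### closure properties of `Dn` -/

lemma Dn_zero_mem (n : ℕ) : (fun _ => 0) ∈ Dn n := by
  induction n with
  | zero => rfl
  | succ n ih =>
    intro e
    simpa using ih

lemma Dn_add_mem {n : ℕ} {g g' : ℤ × ℤ → ℝ} (h : g ∈ Dn n) (h' : g' ∈ Dn n) :
    (g + g') ∈ Dn n := by
  induction n generalizing g g' with
  | zero =>
    have e : g = fun _ => 0 := h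
    have e' : g' = fun _ => 0 := h'
    show g + g' = fun _ => 0
    rw [e, e']; funext j; simp
  | succ n ih =>
    intro e
    have := ih (h e) (h' e)
    convert this using 1
    funext M
    simp only [Pi.add_apply]
    ring

lemma Dn_smul_mem {n : ℕ} {g : ℤ × ℤ → ℝ} (h : g ∈ Dn n) (c : ℝ) :
    (c • g) ∈ Dn n := by
  induction n generalizing g with
  | zero =>
    have e : g = fun _ => 0 := h
    show c • g = fun _ => 0
    rw [e]; funext j; simp
  | succ n ih =>
    intro e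
    have := ih (h e)
    convert this using 1
    funext M
    simp only [Pi.smul_apply, smul_eq_mul]
    ring

/-- `Dn` as a submodule -/
def DnS (n : ℕ) : Submodule ℝ (ℤ × ℤ → ℝ) where
  carrier := Dn n
  add_mem' := Dn_add_mem
  zero_mem' := Dn_zero_mem n
  smul_mem' := fun c _ h => Dn_smul_mem h c

lemma Dn_mono_succ (n : ℕ) : Dn n ⊆ Dn (n + 1) := by
  induction n with
  | zero =>
    intro g hg e
    have h : g = fun _ => 0 := hg
    show (fun M => g M - g (M - e)) = fun _ => 0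
    rw [h]; funext j; simp
  | succ n ih =>
    intro g hg e
    exact ih (hg e)

lemma Dn_shift_mem {n : ℕ} {g : ℤ × ℤ → ℝ} (h : g ∈ Dn n) (e : ℤ × ℤ) :
    (fun j => g (j + e)) ∈ Dn n := by
  have h1 := Dn_mono_succ n h
  have h2 := h1 (-e)
  have h3 := (DnS n).sub_mem (show g ∈ DnS n from h) (show _ ∈ DnS n from h2)
  have : (fun j => g (j + e)) = g - fun M => g M - g (M - -e) := by
    funext j
    simp
  rw [this]
  exact h3

namespace Sten

variable {m r : ℕ} (S : Sten m r)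

/-- values on the lattice -/
noncomputable def T : Module.End ℝ (ℤ × ℤ → ℝ) where
  toFun g M := conv S.L g M (cL M)
  map_add' g g' := by
    funext M
    exact conv_add S.hL g g' M _
  map_smul' c g := by
    funext M
    exact conv_const_mul S.L g c M _

lemma T_apply (g : ℤ × ℤ → ℝ) (M : ℤ × ℤ) : S.T g M = conv S.L g M (cL M) := rfl

lemma T_shift (g : ℤ × ℤ → ℝ) (M e : ℤ × ℤ) : S.T g (M + e) = S.T (fun j => g (j + e)) M := by
  rw [T_apply, T_apply, cL_add]
  exact conv_shift S.L g M e (cL M)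

lemma T_fwdDiff (g : ℤ × ℤ → ℝ) (e : ℤ × ℤ) : S.T (Δ_[e] g) = Δ_[e] (S.T g) := by
  funext M
  have : Δ_[e] g = (fun j => g (j + e)) - g := rfl
  rw [this, map_sub]
  show S.T (fun j => g (j + e)) M - S.T g M = S.T g (M + e) - S.T g M
  rw [T_shift]

lemma T_fwdDiff_iter (n : ℕ) (g : ℤ × ℤ → ℝ) (e : ℤ × ℤ) :
    S.T (Δ_[e] ^[n] g) = Δ_[e] ^[n] (S.T g) := by
  induction n generalizing g with
  | zero => rfl
  | succ n ih =>
    rw [Function.iterate_succ_apply, ih, T_fwdDiff, Function.iterate_succ_apply]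

lemma T_eq_sum (g : ℤ × ℤ → ℝ) (M : ℤ × ℤ) :
    S.T g M = ∑ i ∈ S.hL.toFinset, g (M - i) * S.L i (cL i) := by
  rw [T_apply, conv_eq_sum S.hL]
  refine Finset.sum_congr rfl fun i _ => ?_
  rw [sub_self, zero_add]

/-- for `g ∈ Dn (k+1)` the local polynomial is global -/
lemma conv_indep {g : ℤ × ℤ → ℝ} (hg : g ∈ Dn (m + r + 2)) (M : ℤ × ℤ) (X : ℝ × ℝ) :
    conv S.L g M X = conv S.L g 0 X := by
  have h1 : ∀ M, conv S.L g (M + (1, 0)) X = conv S.L g M X := by
    intro M
    have := S.conv_rel1 g M X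
    rw [S.hkill 3 g hg, S.hkill 2 g hg, S.hkill 0 g hg] at this
    linarith
  have h2 : ∀ M, conv S.L g (M + (0, 1)) X = conv S.L g M X := by
    intro M
    have := S.conv_rel2 g M X
    rw [S.hkill 3 g hg, S.hkill 2 g hg, S.hkill 1 g hg] at this
    linarith
  have h3 : ∀ (n : ℤ) (b : ℤ), conv S.L g (n, b) X = conv S.L g (0, b) X := by
    intro n b
    induction n using Int.induction_on with
    | zero => rfl
    | succ i ih =>
      have := h1 (i, b)
      have e : (((i : ℤ), b) : ℤ × ℤ) + (1, 0) = ((i : ℤ) + 1, b) := by ext <;> simp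
      rw [e] at this
      rw [this, ih]
    | pred i ih =>
      have := h1 (-(i : ℤ) - 1, b)
      have e : ((-(i : ℤ) - 1, b) : ℤ × ℤ) + (1, 0) = (-(i : ℤ), b) := by ext <;> simp
      rw [e] at this
      rw [← this, ih]
  have h4 : ∀ (n : ℤ), conv S.L g (0, n) X = conv S.L g (0, 0) X := by
    intro n
    induction n using Int.induction_on with
    | zero => rfl
    | succ i ih =>
      have := h2 (0, i)
      have e : ((0, (i : ℤ)) : ℤ × ℤ) + (0, 1) = (0, (i : ℤ) + 1) := by ext <;> simp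
      rw [e] at this
      rw [this, ih]
    | pred i ih =>
      have := h2 (0, -(i : ℤ) - 1)
      have e : ((0, -(i : ℤ) - 1) : ℤ × ℤ) + (0, 1) = (0, -(i : ℤ)) := by ext <;> simp
      rw [e] at this
      rw [← this, ih]
  obtain ⟨a, b⟩ := M
  rw [h3 a b, h4 b]
  rfl

lemma fd_comp_cL (n : ℕ) (P : ℝ × ℝ → ℝ) (M : ℤ × ℤ) :
    Δ_[((1, 0) : ℤ × ℤ)] ^[n] (fun j => P (cL j)) M =
      Δ_[((1, 0) : ℝ × ℝ)] ^[n] P (cL M) := by
  rw [fwdDiff_iter_eq_sum_shift, fwdDiff_iter_eq_sum_shift]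
  refine Finset.sum_congr rfl fun i _ => ?_
  congr 2
  rw [cL_add]
  congr 1
  ext <;> simp [cL]

lemma mixd_shift (n : ℕ) (P : ℝ × ℝ → ℝ) (v p : ℝ × ℝ) :
    mixd 1 n 0 (fun X => P (X + v)) p = mixd 1 n 0 P (p + v) := by
  unfold mixd
  simp only [Function.iterate_zero, id_eq]
  rw [fwdDiff_iter_eq_sum_shift, fwdDiff_iter_eq_sum_shift]
  refine Finset.sum_congr rfl fun i _ => ?_
  congr 2
  abel

lemma tc_shift {k : ℕ} {P : ℝ × ℝ → ℝ} (hP : P ∈ PolyLE k) (v : ℝ × ℝ) :
    tc k 0 (fun X => P (X + v)) = tc k 0 P := by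
  have h1 := mixd_eq_tc hP 0 (Nat.zero_le _) 1 one_ne_zero (0 + v)
  have h2 := mixd_eq_tc (comp_add_mem hP v) 0 (Nat.zero_le _) 1 one_ne_zero 0
  rw [Nat.sub_zero] at h1 h2
  rw [mixd_shift, h1] at h2
  have h3 : (k.factorial : ℝ) ≠ 0 := by exact_mod_cast k.factorial_ne_zero
  simp at h2
  rcases h2 with h2 | h2
  · exact h2.symm
  · exact absurd h2 k.factorial_ne_zero

theorem T_one : S.T (fun _ => 1) = fun _ => 1 := by
  set k := m + r + 1 with hk
  set G := g0 (m + r + 2) with hG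
  have hGD : G ∈ Dn (m + r + 2 + 1) := g0_mem _
  set e1 : ℤ × ℤ := (1, 0) with he1
  set D : ℤ × ℤ → ℝ := Δ_[e1] G with hD
  have hDD : D ∈ Dn (m + r + 2) := by
    have h1 := hGD (-e1)
    have h2 := Dn_smul_mem h1 (-1)
    convert h2 using 1
    funext j
    simp [hD, fwdDiff]
  -- `tc` of the local polynomial of `D`
  have h1 : tc k 0 (conv S.L D 0) = (m + r + 2 : ℕ) := by
    have e1' : conv S.L D 0 = conv S.L (fun j => G (j + e1)) 0 - conv S.L G 0 := by
      funext X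
      exact conv_sub S.hL _ _ _ _
    have e2 : conv S.L (fun j => G (j + e1)) 0 = fun X => conv S.L G (0 + e1) (X + cL e1) := by
      funext X
      rw [conv_shift]
    rw [e1', tc_sub, e2, tc_shift (S.convL_mem G (0 + e1)), ← tc_sub]
    have := S.htc 0
    rw [← this]
    congr 1
    funext X
    exact S.conv_rel1 G 0 X
  have h2 : ∀ M, S.T D M = conv S.L D 0 (cL M) := fun M => S.conv_indep hDD M _
  have h3 : Δ_[e1] ^[k] (S.T D) 0 = ((m + r + 2).factorial : ℝ) := by
    have : S.T D = fun j => conv S.L D 0 (cL j) := funext h2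
    rw [this, fd_comp_cL]
    have h4 := mixd_eq_tc (S.convL_mem D 0) 0 (Nat.zero_le _) 1 one_ne_zero (cL 0)
    rw [Nat.sub_zero, h1] at h4
    have h5 : mixd 1 (m + r + 1) 0 (conv S.L D 0) (cL 0) =
        Δ_[((1, 0) : ℝ × ℝ)] ^[k] (conv S.L D 0) (cL 0) := rfl
    rw [← h5, h4]
    have h6 : (m + r + 2).factorial = (m + r + 2) * (m + r + 1).factorial := Nat.factorial_succ _
    rw [h6]
    push_cast
    simp
    ring
  rw [← T_fwdDiff_iter] at h3
  have h6 : Δ_[e1] ^[k] D = fun _ => ((m + r + 2).factorial : ℝ) := by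
    have e3 : Δ_[e1] ^[k] D = Δ_[e1] ^[k + 1] G :=
      (Function.iterate_succ_apply _ _ _).symm
    rw [e3]
    funext M
    have e4 : G = fun j => (fun p : ℝ × ℝ => p.1 ^ (m + r + 2)) (cL j) := rfl
    rw [e4, he1]
    refine (fd_comp_cL (k + 1) (fun p : ℝ × ℝ => p.1 ^ (m + r + 2)) M).trans ?_
    have e5 := mixd_mono 1 one_ne_zero (m + r + 2) 0 (m + r + 2) 0 (by omega) (cL M)
    simp only [pow_zero, mul_one, and_self, if_true] at e5
    unfold mixd at e5
    simp only [Function.iterate_zero, id_eq] at e5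
    have e6 : k + 1 = m + r + 2 := by omega
    rw [e6, e5]
    simp
  rw [h6] at h3
  have h7 : (fun _ : ℤ × ℤ => ((m + r + 2).factorial : ℝ)) =
      ((m + r + 2).factorial : ℝ) • (fun _ : ℤ × ℤ => (1 : ℝ)) := by
    funext j; simp
  rw [h7, map_smul, Pi.smul_apply, smul_eq_mul] at h3
  have h8 : ((m + r + 2).factorial : ℝ) ≠ 0 := by exact_mod_cast (m + r + 2).factorial_ne_zero
  have h9 : S.T (fun _ => 1) 0 = 1 := by
    have := mul_left_cancel₀ h8 (h3.trans (mul_one _).symm)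
    exact this
  funext M
  have := S.T_shift (fun _ => 1) 0 M
  rw [zero_add] at this
  rw [this, h9]

lemma sum_w : ∑ i ∈ S.hL.toFinset, S.L i (cL i) = 1 := by
  have := congrFun S.T_one 0
  rw [T_eq_sum] at this
  simpa using this

lemma one_sub_T_mem {n : ℕ} {g : ℤ × ℤ → ℝ} (hg : g ∈ Dn (n + 1)) : (1 - S.T) g ∈ Dn n := by
  have h1 : (1 - S.T) g = ∑ i ∈ S.hL.toFinset, (S.L i (cL i)) • (fun M => g M - g (M - i)) := by
    funext M
    rw [LinearMap.sub_apply, Module.End.one_apply, Pi.sub_apply, T_eq_sum, Finset.sum_apply]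
    simp only [Pi.smul_apply, smul_eq_mul, mul_sub]
    rw [Finset.sum_sub_distrib, ← Finset.sum_mul, S.sum_w, one_mul]
    congr 1
    refine Finset.sum_congr rfl fun i _ => ?_
    ring
  rw [h1]
  exact (DnS n).sum_mem fun i _ => Dn_smul_mem (hg i) _

lemma one_sub_T_pow_mem {n j : ℕ} {g : ℤ × ℤ → ℝ} (hg : g ∈ Dn (n + j)) :
    ((1 - S.T) ^ j) g ∈ Dn n := by
  induction j generalizing g with
  | zero => simpa using hg
  | succ j ih =>
    rw [pow_succ, Module.End.mul_apply]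
    exact ih (S.one_sub_T_mem (by simpa [add_assoc] using hg))

/-- the correction operator -/
noncomputable def θ : Module.End ℝ (ℤ × ℤ → ℝ) :=
  ∑ n ∈ range (m + r + 2), (1 - S.T) ^ n

lemma T_θ {g : ℤ × ℤ → ℝ} (hg : g ∈ Dn (m + r + 2)) : S.T (S.θ g) = g := by
  have h1 : S.T * S.θ = 1 - (1 - S.T) ^ (m + r + 2) := by
    have := mul_neg_geom_sum (1 - S.T) (m + r + 2)
    rw [sub_sub_cancel] at this
    exact this
  have h2 := congrArg (fun A => A g) h1
  simp only [Module.End.mul_apply, LinearMap.sub_apply, Module.End.one_apply] at h2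
  rw [h2]
  have h3 : ((1 - S.T) ^ (m + r + 2)) g ∈ Dn 0 := S.one_sub_T_pow_mem (by simpa using hg)
  have h4 : ((1 - S.T) ^ (m + r + 2)) g = fun _ => 0 := h3
  rw [h4]
  funext j
  simp

lemma one_sub_T_mem' {n : ℕ} {g : ℤ × ℤ → ℝ} (hg : g ∈ Dn n) : (1 - S.T) g ∈ Dn n :=
  S.one_sub_T_mem (Dn_mono_succ n hg)

lemma θ_mem {n : ℕ} {g : ℤ × ℤ → ℝ} (hg : g ∈ Dn n) : S.θ g ∈ Dn n := by
  unfold θ
  rw [LinearMap.sum_apply]
  refine (DnS n).sum_mem fun j _ => ?_
  have : ∀ j : ℕ, ((1 - S.T) ^ j) g ∈ Dn n := by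
    intro j
    induction j with
    | zero => simpa using hg
    | succ j ih =>
      rw [pow_succ', Module.End.mul_apply]
      exact S.one_sub_T_mem' ih
  exact this j

/-- polynomial reproduction -/
theorem reproduce {p : ℝ × ℝ → ℝ} (hp : p ∈ PolyLE (m + r + 1)) (M : ℤ × ℤ) (a b : Bool)
    (X : ℝ × ℝ) : S.PP (S.θ (fun j => p (cL j))) M a b X = p X := by
  have hg : (fun j => p (cL j)) ∈ Dn (m + r + 2) := poly_Dn hp
  have hθ := S.θ_mem hg
  have h1 : ∀ Y, conv S.L (S.θ (fun j => p (cL j))) 0 Y = p Y := by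
    have h2 := (PolyLE (m + r + 1)).sub_mem (S.convL_mem (S.θ (fun j => p (cL j))) 0) hp
    have h3 := zero_of_grid h2 ?_
    · intro Y
      have := congrFun h3 Y
      simp only [Pi.sub_apply, Pi.zero_apply, sub_eq_zero] at this
      exact this
    · intro a _ b _
      have h4 := congrFun (S.T_θ hg) ((a : ℤ), (b : ℤ))
      rw [T_apply, S.conv_indep hθ] at h4
      simp only [Pi.sub_apply, sub_eq_zero]
      simpa [cL] using h4
  unfold PP
  rw [S.conv_indep hθ, h1, S.hkill 3 _ hθ, S.hkill 2 _ hθ]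
  simp

end Sten

end Pool.MP_ed6410
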