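import Pool.Agent.Lib.MP_ed6410_an.Glue

/-!
# The spline attached to lattice data
-/

open Filter Set
open scoped Topology ContDiff

namespace Pool.MP_ed6410

/-- a stencil with all its properties -/
structure Sten (m r : ℕ) where
  f : Fin 4 → ℤ × ℤ → ℝ × ℝ → ℝ
  L : ℤ × ℤ → ℝ × ℝ → ℝ
  hf : ∀ e, {i | f e i ≠ 0}.Finite
  hL : {i | L i ≠ 0}.Finite
  hq : ∀ (e : Fin 4) (g : ℤ × ℤ → ℝ) (M : ℤ × ℤ), ∃ q ∈ PolyLE m, ∀ X,
        conv (f e) g M X = (lf e (X - cL M)) ^ (r + 1) * q X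
  hLp : ∀ i, L i ∈ PolyLE (m + r + 1)
  h1 : ∀ M X, L (M + (1, 0)) X - L M X = f 3 M X + f 2 (M + (1, 0)) X + f 0 (M + (1, 0)) X
  h2 : ∀ M X, L (M + (0, 1)) X - L M X =
        f 2 (M + (1, 0)) X + f 1 (M + (1, 1)) X - f 3 (M + (0, 1)) X
  hkill : ∀ (e : Fin 4) (g : ℤ × ℤ → ℝ), g ∈ Dn (m + r + 2) → ∀ M X, conv (f e) g M X = 0
  htc : ∀ M, tc (m + r + 1) 0 (fun X => conv (f 3) (g0 (m + r + 2)) M X
          + conv (f 2) (g0 (m + r + 2)) (M + (1, 0)) X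
          + conv (f 0) (g0 (m + r + 2)) (M + (1, 0)) X) = (m + r + 2 : ℕ)

theorem exists_Sten {m r : ℕ} (hN1 : N1 m r) : Nonempty (Sten m r) := by
  obtain ⟨f, L, a1, a2, a3, a4, a5, a6, a7, a8⟩ := exists_stencil hN1
  exact ⟨⟨f, L, a1, a2, a3, a4, a5, a6, a7, a8⟩⟩

namespace Sten

variable {m r : ℕ} (S : Sten m r)

lemma lfpow_mem (e : Fin 4) (M : ℤ × ℤ) (n : ℕ) : (fun X => (lf e (X - cL M)) ^ n) ∈
      PolyLE n := by
  have key : ∀ a b : ℝ, (fun X : ℝ × ℝ => (a * (X - cL M).1 + b * (X - cL M).2) ^ n) ∈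
      PolyLE n := by
    intro a b
    have := comp_sub_mem (linpow_mem a b 0 n) (cL M)
    simpa using this
  fin_cases e
  · simpa [lf] using key 1 0
  · simpa [lf] using key 0 1
  · simpa [lf] using key 1 1
  · simpa [lf, sub_eq_add_neg] using key 1 (-1)

lemma convf_mem (e : Fin 4) (g : ℤ × ℤ → ℝ) (M : ℤ × ℤ) :
    conv (S.f e) g M ∈ PolyLE (m + r + 1) := by
  obtain ⟨q, hq, h⟩ := S.hq e g M
  have h1 : conv (S.f e) g M = fun X => (lf e (X - cL M)) ^ (r + 1) * q X := funext h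
  rw [h1]
  exact PolyLE_mono (by omega) (mul_mem' (lfpow_mem e M (r + 1)) hq)

lemma conv_eq_sum {F0 : ℤ × ℤ → ℝ × ℝ → ℝ} (hF : {i | F0 i ≠ 0}.Finite) (g : ℤ × ℤ → ℝ)
    (M : ℤ × ℤ) (X : ℝ × ℝ) :
    conv F0 g M X = ∑ i ∈ hF.toFinset, g (M - i) * F0 i (X - cL M + cL i) := by
  unfold conv
  refine tsum_eq_sum fun i hi => ?_
  rw [Set.Finite.mem_toFinset, Set.mem_ofPred_eq, not_not] at hi
  rw [hi]
  simp

lemma convL_mem (g : ℤ × ℤ → ℝ) (M : ℤ × ℤ) : conv S.L g M ∈ PolyLE (m + r + 1) := by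
  have h1 : conv S.L g M = fun X => ∑ i ∈ S.hL.toFinset,
      g (M - i) * S.L i (X - cL M + cL i) := funext fun X => conv_eq_sum S.hL g M X
  rw [h1]
  refine sum_mem'' _ _ fun i _ => ?_
  refine const_mul_mem ?_ _
  exact comp_sub_mem (comp_add_mem (S.hLp i) (cL i)) (cL M)

lemma conv_rel1 (g : ℤ × ℤ → ℝ) (M : ℤ × ℤ) (X : ℝ × ℝ) :
    conv S.L g (M + (1, 0)) X - conv S.L g M X =
      conv (S.f 3) g M X + conv (S.f 2) g (M + (1, 0)) X + conv (S.f 0) g (M + (1, 0)) X := by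
  have := conv_rel S.hL (S.hf 3) (S.hf 2) (S.hf 0) (1, 0) 0 (1, 0) (1, 0) 1
    (by intro M X; rw [S.h1 M X, add_zero, one_mul]) g M X
  rw [this, add_zero, one_mul]

lemma conv_rel2 (g : ℤ × ℤ → ℝ) (M : ℤ × ℤ) (X : ℝ × ℝ) :
    conv S.L g (M + (0, 1)) X - conv S.L g M X =
      conv (S.f 2) g (M + (1, 0)) X + conv (S.f 1) g (M + (1, 1)) X
        - conv (S.f 3) g (M + (0, 1)) X := by
  have := conv_rel S.hL (S.hf 2) (S.hf 1) (S.hf 3) (0, 1) (1, 0) (1, 1) (0, 1) (-1)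
    (by intro M X; rw [S.h2 M X]; ring) g M X
  rw [this]; ring

/-- the polynomial pieces -/
noncomputable def PP (g : ℤ × ℤ → ℝ) (M : ℤ × ℤ) (a b : Bool) (X : ℝ × ℝ) : ℝ :=
  conv S.L g M X + (if a then conv (S.f 3) g M X else 0)
    + (if b then conv (S.f 2) g (M + (1, 0)) X else 0)

lemma PP_mem (g : ℤ × ℤ → ℝ) (M : ℤ × ℤ) (a b : Bool) :
    S.PP g M a b ∈ PolyLE (m + r + 1) := by
  have h0 := S.convL_mem g M
  have h3 := S.convf_mem 3 g M
  have h2 := S.convf_mem 2 g (M + (1, 0))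
  have z : (0 : ℝ × ℝ → ℝ) ∈ PolyLE (m + r + 1) := Submodule.zero_mem _
  have ha : (fun X => if a then conv (S.f 3) g M X else 0) ∈ PolyLE (m + r + 1) := by
    cases a
    · simpa using const_mem (m + r + 1) 0
    · simpa using h3
  have hb : (fun X => if b then conv (S.f 2) g (M + (1, 0)) X else 0) ∈ PolyLE (m + r + 1) := by
    cases b
    · simpa using const_mem (m + r + 1) 0
    · simpa using h2
  exact Submodule.add_mem _ (Submodule.add_mem _ h0 ha) hb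

end Sten

/-- equality of jets of order `r` -/
def JE (r : ℕ) (P Q : ℝ × ℝ → ℝ) (x : ℝ × ℝ) : Prop :=
  ∀ n ≤ r, iteratedFDeriv ℝ n P x = iteratedFDeriv ℝ n Q x

lemma JE.refl (r : ℕ) (P : ℝ × ℝ → ℝ) (x : ℝ × ℝ) : JE r P P x := fun _ _ => rfl

lemma JE.symm {r : ℕ} {P Q : ℝ × ℝ → ℝ} {x : ℝ × ℝ} (h : JE r P Q x) : JE r Q P x :=
  fun n hn => (h n hn).symm

lemma JE.trans {r : ℕ} {P Q R : ℝ × ℝ → ℝ} {x : ℝ × ℝ} (h : JE r P Q x) (h' : JE r Q R x) :
    JE r P R x :=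
  fun n hn => (h n hn).trans (h' n hn)

lemma lf_contDiff (e : Fin 4) (v : ℝ × ℝ) : ContDiff ℝ ∞ (fun X : ℝ × ℝ => lf e (X - v)) := by
  fin_cases e <;> simp only [lf] <;> simp <;> fun_prop

lemma JE_of_flat {k r : ℕ} {P Q q : ℝ × ℝ → ℝ} {x : ℝ × ℝ} (e : Fin 4) (v : ℝ × ℝ)
    (hQ : Q ∈ PolyLE k) (hq : q ∈ PolyLE k)
    (h : ∀ X, P X = Q X + (lf e (X - v)) ^ (r + 1) * q X) (hx : lf e (x - v) = 0) :
    JE r P Q x := by
  intro n hn
  have h1 : P = Q + fun X => (lf e (X - v)) ^ (r + 1) • q X := by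
    funext X
    rw [h, Pi.add_apply, smul_eq_mul]
  have h2 := flat_pow (fun X => lf e (X - v)) (lf_contDiff e v) n r hn q
    (PolyLE_contDiff hq) x hx
  rw [h1, iteratedFDeriv_add_apply, h2, add_zero]
  · exact (PolyLE_contDiff hQ).contDiffAt
  · exact (((lf_contDiff e v).pow _).smul (PolyLE_contDiff hq)).contDiffAt.of_le
      (by exact_mod_cast le_top)

namespace Sten

variable {m r : ℕ} (S : Sten m r)

lemma compat_a (g : ℤ × ℤ → ℝ) (M : ℤ × ℤ) (a b : Bool) (x : ℝ × ℝ)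
    (hx : x.1 - M.1 = x.2 - M.2) : JE r (S.PP g M a b) (S.PP g M false b) x := by
  cases a
  · exact JE.refl _ _ _
  · obtain ⟨q, hq, h⟩ := S.hq 3 g M
    refine JE_of_flat 3 (cL M) (S.PP_mem g M false b) (PolyLE_mono (by omega) hq) (r := r) ?_ ?_
    · intro X
      rw [← h]
      simp only [PP]
      simp
      ring
    · simp only [lf]
      simp [cL]
      linarith

lemma compat_b (g : ℤ × ℤ → ℝ) (M : ℤ × ℤ) (a b : Bool) (x : ℝ × ℝ)
    (hx : (x.1 - M.1) + (x.2 - M.2) = 1) : JE r (S.PP g M a b) (S.PP g M a false) x := by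
  cases b
  · exact JE.refl _ _ _
  · obtain ⟨q, hq, h⟩ := S.hq 2 g (M + (1, 0))
    refine JE_of_flat 2 (cL (M + (1, 0))) (S.PP_mem g M a false) (PolyLE_mono (by omega) hq)
      (r := r) ?_ ?_
    · intro X
      rw [← h]
      simp only [PP]
      simp
    · simp only [lf]
      simp [cL]
      linarith

lemma mem_tri_iff (M : ℤ × ℤ) (a b : Bool) (x : ℝ × ℝ) :
    x ∈ tri 1 M.1 M.2 a b ↔ (M.1 : ℝ) ≤ x.1 ∧ x.1 ≤ M.1 + 1 ∧ (M.2 : ℝ) ≤ x.2 ∧ x.2 ≤ M.2 + 1 ∧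
    (if a then x.2 - M.2 ≤ x.1 - M.1 else x.1 - M.1 ≤ x.2 - M.2) ∧
    (if b then 1 ≤ (x.1 - M.1) + (x.2 - M.2) else (x.1 - M.1) + (x.2 - M.2) ≤ 1) := by
  simp [tri]

lemma compat_cell (g : ℤ × ℤ → ℝ) (M : ℤ × ℤ) (a b a' b' : Bool) (x : ℝ × ℝ)
    (h : x ∈ tri 1 M.1 M.2 a b) (h' : x ∈ tri 1 M.1 M.2 a' b') :
    JE r (S.PP g M a b) (S.PP g M a' b') x := by
  rw [mem_tri_iff] at h h'
  obtain ⟨-, -, -, -, ha, hb⟩ := h
  obtain ⟨-, -, -, -, ha', hb'⟩ := h'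
  have e1 : JE r (S.PP g M a b) (S.PP g M a' b) x := by
    by_cases haa : a = a'
    · rw [haa]; exact JE.refl _ _ _
    · have hx : x.1 - M.1 = x.2 - M.2 := by
        cases a <;> cases a' <;> simp at haa ha ha' <;> linarith
      exact (S.compat_a g M a b x hx).trans (S.compat_a g M a' b x hx).symm
  have e2 : JE r (S.PP g M a' b) (S.PP g M a' b') x := by
    by_cases hbb : b = b'
    · rw [hbb]; exact JE.refl _ _ _
    · have hx : (x.1 - M.1) + (x.2 - M.2) = 1 := by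
        cases b <;> cases b' <;> simp at hbb hb hb' <;> linarith
      exact (S.compat_b g M a' b x hx).trans (S.compat_b g M a' b' x hx).symm
  exact e1.trans e2

lemma compat_right (g : ℤ × ℤ → ℝ) (M : ℤ × ℤ) (a b a' b' : Bool) (x : ℝ × ℝ)
    (h : x ∈ tri 1 M.1 M.2 a b) (h' : x ∈ tri 1 (M + (1, 0)).1 (M + (1, 0)).2 a' b') :
    JE r (S.PP g M a b) (S.PP g (M + (1, 0)) a' b') x := by
  have k := h
  have k' := h'
  rw [mem_tri_iff] at k k'
  obtain ⟨k1, k2, k3, k4, -, -⟩ := k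
  obtain ⟨k1', k2', k3', k4', -, -⟩ := k'
  simp at k1' k2' k3' k4'
  have hx : x.1 = M.1 + 1 := by linarith
  have t1 : x ∈ tri 1 M.1 M.2 true true := by
    rw [mem_tri_iff]
    refine ⟨k1, k2, k3, k4, ?_, ?_⟩ <;> simp <;> linarith
  have t2 : x ∈ tri 1 (M + (1, 0)).1 (M + (1, 0)).2 false false := by
    rw [mem_tri_iff]
    simp
    refine ⟨k1', k2', k3', k4', ?_, ?_⟩ <;> linarith
  refine (S.compat_cell g M a b true true x h t1).trans (JE.trans ?_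
    (S.compat_cell g (M + (1, 0)) false false a' b' x t2 h'))
  obtain ⟨q, hq, h⟩ := S.hq 0 g (M + (1, 0))
  refine (JE_of_flat 0 (cL (M + (1, 0))) (S.PP_mem g M true true) (PolyLE_mono (by omega) hq)
      (r := r) ?_ ?_).symm
  · intro X
    rw [← h]
    simp only [PP]
    have := S.conv_rel1 g M X
    simp
    linarith
  · simp only [lf]
    simp [cL]
    linarith

lemma compat_top (g : ℤ × ℤ → ℝ) (M : ℤ × ℤ) (a b a' b' : Bool) (x : ℝ × ℝ)
    (h : x ∈ tri 1 M.1 M.2 a b) (h' : x ∈ tri 1 (M + (0, 1)).1 (M + (0, 1)).2 a' b') :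
    JE r (S.PP g M a b) (S.PP g (M + (0, 1)) a' b') x := by
  have k := h
  have k' := h'
  rw [mem_tri_iff] at k k'
  obtain ⟨k1, k2, k3, k4, -, -⟩ := k
  obtain ⟨k1', k2', k3', k4', -, -⟩ := k'
  simp at k1' k2' k3' k4'
  have hx : x.2 = M.2 + 1 := by linarith
  have t1 : x ∈ tri 1 M.1 M.2 false true := by
    rw [mem_tri_iff]
    refine ⟨k1, k2, k3, k4, ?_, ?_⟩ <;> simp <;> linarith
  have t2 : x ∈ tri 1 (M + (0, 1)).1 (M + (0, 1)).2 true false := by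
    rw [mem_tri_iff]
    simp
    refine ⟨k1', k2', k3', k4', ?_, ?_⟩ <;> linarith
  refine (S.compat_cell g M a b false true x h t1).trans (JE.trans ?_
    (S.compat_cell g (M + (0, 1)) true false a' b' x t2 h'))
  obtain ⟨q, hq, h⟩ := S.hq 1 g (M + (1, 1))
  refine (JE_of_flat 1 (cL (M + (1, 1))) (S.PP_mem g M false true) (PolyLE_mono (by omega) hq)
      (r := r) ?_ ?_).symm
  · intro X
    rw [← h]
    simp only [PP]
    have := S.conv_rel2 g M X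
    simp
    linarith
  · simp only [lf]
    simp [cL]
    linarith

/-- some Booleans with `x` in the triangle -/
lemma exists_bool (M : ℤ × ℤ) (x : ℝ × ℝ) (h1 : (M.1 : ℝ) ≤ x.1) (h2 : x.1 ≤ M.1 + 1)
    (h3 : (M.2 : ℝ) ≤ x.2) (h4 : x.2 ≤ M.2 + 1) : ∃ a b, x ∈ tri 1 M.1 M.2 a b := by
  simp only [mem_tri_iff]
  rcases le_total (x.2 - M.2) (x.1 - M.1) with ha | ha
  · rcases le_total (x.1 - M.1 + (x.2 - M.2)) 1 with hb | hb
    · exact ⟨true, false, h1, h2, h3, h4, by simpa using ha, by simpa using hb⟩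
    · exact ⟨true, true, h1, h2, h3, h4, by simpa using ha, by simpa using hb⟩
  · rcases le_total (x.1 - M.1 + (x.2 - M.2)) 1 with hb | hb
    · exact ⟨false, false, h1, h2, h3, h4, by simpa using ha, by simpa using hb⟩
    · exact ⟨false, true, h1, h2, h3, h4, by simpa using ha, by simpa using hb⟩

lemma compat_hor (g : ℤ × ℤ → ℝ) (M M' : ℤ × ℤ) (hM : M.2 = M'.2) (a b a' b' : Bool) (x : ℝ × ℝ)
    (h : x ∈ tri 1 M.1 M.2 a b) (h' : x ∈ tri 1 M'.1 M'.2 a' b') :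
    JE r (S.PP g M a b) (S.PP g M' a' b') x := by
  have k := h
  have k' := h'
  rw [mem_tri_iff] at k k'
  obtain ⟨k1, k2, k3, k4, -, -⟩ := k
  obtain ⟨k1', k2', k3', k4', -, -⟩ := k'
  have e1 : (M.1 : ℝ) ≤ ((M'.1 + 1 : ℤ) : ℝ) := by push_cast; linarith
  have e2 : (M'.1 : ℝ) ≤ ((M.1 + 1 : ℤ) : ℝ) := by push_cast; linarith
  have e1' := Int.cast_le.1 e1
  have e2' := Int.cast_le.1 e2
  have hc : M' = M ∨ M' = M + (1, 0) ∨ M = M' + (1, 0) := by
    rcases lt_trichotomy M.1 M'.1 with hh | hh | hh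
    · right; left
      ext
      · simp; omega
      · simp [hM]
    · left
      ext
      · exact hh.symm
      · exact hM.symm
    · right; right
      ext
      · simp; omega
      · simp [hM]
  rcases hc with rfl | rfl | rfl
  · exact S.compat_cell g _ a b a' b' x h h'
  · exact S.compat_right g M a b a' b' x h h'
  · exact (S.compat_right g M' a' b' a b x h' h).symm

lemma compat_ver (g : ℤ × ℤ → ℝ) (M M' : ℤ × ℤ) (hM : M.1 = M'.1) (a b a' b' : Bool) (x : ℝ × ℝ)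
    (h : x ∈ tri 1 M.1 M.2 a b) (h' : x ∈ tri 1 M'.1 M'.2 a' b') :
    JE r (S.PP g M a b) (S.PP g M' a' b') x := by
  have k := h
  have k' := h'
  rw [mem_tri_iff] at k k'
  obtain ⟨k1, k2, k3, k4, -, -⟩ := k
  obtain ⟨k1', k2', k3', k4', -, -⟩ := k'
  have e1 : (M.2 : ℝ) ≤ ((M'.2 + 1 : ℤ) : ℝ) := by push_cast; linarith
  have e2 : (M'.2 : ℝ) ≤ ((M.2 + 1 : ℤ) : ℝ) := by push_cast; linarith
  have e1' := Int.cast_le.1 e1
  have e2' := Int.cast_le.1 e2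
  have hc : M' = M ∨ M' = M + (0, 1) ∨ M = M' + (0, 1) := by
    rcases lt_trichotomy M.2 M'.2 with hh | hh | hh
    · right; left
      ext
      · simp [hM]
      · simp; omega
    · left
      ext
      · exact hM.symm
      · exact hh.symm
    · right; right
      ext
      · simp [hM]
      · simp; omega
  rcases hc with rfl | rfl | rfl
  · exact S.compat_cell g _ a b a' b' x h h'
  · exact S.compat_top g M a b a' b' x h h'
  · exact (S.compat_top g M' a' b' a b x h' h).symm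

lemma compat (g : ℤ × ℤ → ℝ) (M M' : ℤ × ℤ) (a b a' b' : Bool) (x : ℝ × ℝ)
    (h : x ∈ tri 1 M.1 M.2 a b) (h' : x ∈ tri 1 M'.1 M'.2 a' b') :
    JE r (S.PP g M a b) (S.PP g M' a' b') x := by
  have k := h
  have k' := h'
  rw [mem_tri_iff] at k k'
  obtain ⟨k1, k2, k3, k4, -, -⟩ := k
  obtain ⟨k1', k2', k3', k4', -, -⟩ := k'
  obtain ⟨a'', b'', h''⟩ := exists_bool (M'.1, M.2) x k1' k2' k3 k4
  exact (S.compat_hor g M (M'.1, M.2) rfl a b a'' b'' x h h'').trans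
    (S.compat_ver g (M'.1, M.2) M' rfl a'' b'' a' b' x h'' h')

end Sten

/-- the triangles as an indexed family -/
def triF (i : (ℤ × ℤ) × Bool × Bool) : Set (ℝ × ℝ) := tri 1 i.1.1 i.1.2 i.2.1 i.2.2

lemma triF_closed (i : (ℤ × ℤ) × Bool × Bool) : IsClosed (triF i) := by
  obtain ⟨⟨m1, m2⟩, a, b⟩ := i
  have : triF ((m1, m2), a, b) = {x : ℝ × ℝ | (m1 : ℝ) ≤ x.1} ∩ {x | x.1 ≤ m1 + 1} ∩
      {x | (m2 : ℝ) ≤ x.2} ∩ {x | x.2 ≤ m2 + 1} ∩
      {x | if a then x.2 - m2 ≤ x.1 - m1 else x.1 - m1 ≤ x.2 - m2} ∩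
      {x | if b then 1 ≤ (x.1 - m1) + (x.2 - m2) else (x.1 - m1) + (x.2 - m2) ≤ 1} := by
    ext x
    unfold triF
    rw [Sten.mem_tri_iff]
    simp only [Set.mem_inter_iff, Set.mem_ofPred_eq]
    tauto
  rw [this]
  refine IsClosed.inter (IsClosed.inter (IsClosed.inter (IsClosed.inter (IsClosed.inter ?_ ?_) ?_)
    ?_) ?_) ?_
  · exact isClosed_le (by fun_prop) (by fun_prop)
  · exact isClosed_le (by fun_prop) (by fun_prop)
  · exact isClosed_le (by fun_prop) (by fun_prop)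
  · exact isClosed_le (by fun_prop) (by fun_prop)
  · cases a <;> simp <;> exact isClosed_le (by fun_prop) (by fun_prop)
  · cases b <;> simp <;> exact isClosed_le (by fun_prop) (by fun_prop)

lemma triF_cover : ⋃ i, triF i = univ := by
  rw [Set.eq_univ_iff_forall]
  intro x
  obtain ⟨a, b, h⟩ := Sten.exists_bool (⌊x.1⌋, ⌊x.2⌋) x (Int.floor_le _)
    (Int.lt_floor_add_one _).le (Int.floor_le _) (Int.lt_floor_add_one _).le
  exact Set.mem_iUnion.2 ⟨((⌊x.1⌋, ⌊x.2⌋), a, b), h⟩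

lemma triF_locallyFinite : LocallyFinite triF := by
  intro x
  refine ⟨Set.Ioo (x.1 - 1) (x.1 + 1) ×ˢ Set.Ioo (x.2 - 1) (x.2 + 1), ?_, ?_⟩
  · refine prod_mem_nhds ?_ ?_ <;> exact Ioo_mem_nhds (by linarith) (by linarith)
  · have hfin : (((Set.Icc ⌈x.1 - 2⌉ ⌊x.1 + 1⌋) ×ˢ (Set.Icc ⌈x.2 - 2⌉ ⌊x.2 + 1⌋)) ×ˢ
        (Set.univ : Set (Bool × Bool))).Finite :=
      ((Set.finite_Icc _ _).prod (Set.finite_Icc _ _)).prod Set.finite_univ
    refine hfin.subset ?_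
    rintro ⟨⟨m1, m2⟩, a, b⟩ ⟨y, hy, hy'⟩
    unfold triF at hy
    rw [Sten.mem_tri_iff] at hy
    obtain ⟨k1, k2, k3, k4, -, -⟩ := hy
    simp only [Set.mem_prod, Set.mem_Ioo] at hy'
    obtain ⟨⟨l1, l2⟩, l3, l4⟩ := hy'
    simp only [Set.mem_prod, Set.mem_Icc, Set.mem_univ, and_true]
    simp only at k1 k2 k3 k4
    refine ⟨⟨?_, ?_⟩, ?_, ?_⟩
    · rw [Int.ceil_le]; linarith
    · rw [Int.le_floor]; linarith
    · rw [Int.ceil_le]; linarith
    · rw [Int.le_floor]; linarith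

theorem Sten.exists_spline {m r : ℕ} (S : Sten m r) (g : ℤ × ℤ → ℝ) :
    ∃ s : ℝ × ℝ → ℝ, ContDiff ℝ r s ∧
      ∀ (M : ℤ × ℤ) (a b : Bool), EqOn s (S.PP g M a b) (tri 1 M.1 M.2 a b) := by
  have hmem : ∀ x : ℝ × ℝ, ∃ i, x ∈ triF i := by
    intro x
    have : x ∈ ⋃ i, triF i := by rw [triF_cover]; trivial
    exact Set.mem_iUnion.1 this
  choose idx hidx using hmem
  set P : (ℤ × ℤ) × Bool × Bool → ℝ × ℝ → ℝ := fun i => S.PP g i.1 i.2.1 i.2.2 with hP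
  set s : ℝ × ℝ → ℝ := fun x => P (idx x) x with hs
  have hjet : ∀ i j x, x ∈ triF i → x ∈ triF j → ∀ n ≤ r,
        iteratedFDeriv ℝ n (P i) x = iteratedFDeriv ℝ n (P j) x := by
    intro i j x hi hj
    exact S.compat g i.1 j.1 i.2.1 i.2.2 j.2.1 j.2.2 x hi hj
  have hEq : ∀ i, EqOn s (P i) (triF i) := by
    intro i x hx
    have h0 := hjet (idx x) i x (hidx x) hx 0 (Nat.zero_le _)
    have h1 := congrArg (fun L => L (fun _ => (0 : ℝ × ℝ))) h0
    simpa using h1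
  refine ⟨s, ?_, ?_⟩
  · exact glue_contDiff triF triF_closed triF_locallyFinite triF_cover r P
      (fun i => PolyLE_contDiff (S.PP_mem g i.1 i.2.1 i.2.2)) hjet s hEq
  · intro M a b
    exact hEq (M, a, b)

/-- scaling -/
lemma tri_scale {h : ℝ} (hh : 0 < h) (i j : ℤ) (a b : Bool) {x : ℝ × ℝ}
    (hx : x ∈ tri h i j a b) : (h⁻¹ * x.1, h⁻¹ * x.2) ∈ tri 1 i j a b := by
  obtain ⟨h1, h2, h3, h4, h5, h6⟩ := hx
  have key : ∀ u v : ℝ, u ≤ v → h⁻¹ * u ≤ h⁻¹ * v := fun u v huv =>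
    mul_le_mul_of_nonneg_left huv (inv_nonneg.2 hh.le)
  have e : h⁻¹ * h = 1 := inv_mul_cancel₀ hh.ne'
  have e' : ∀ c : ℝ, h⁻¹ * (c * h) = c := fun c => by field_simp
  have k1 := key _ _ h1
  have k2 := key _ _ h2
  have k3 := key _ _ h3
  have k4 := key _ _ h4
  rw [e'] at k1 k2 k3 k4
  have : ((h⁻¹ * x.1, h⁻¹ * x.2) : ℝ × ℝ) ∈ tri 1 (i, j).1 (i, j).2 a b := by
    rw [Sten.mem_tri_iff]
    refine ⟨k1, k2, k3, k4, ?_, ?_⟩
    · cases a
      · simp only [Bool.false_eq_true, if_false] at h5 ⊢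
        have := key _ _ h5
        rw [mul_sub, mul_sub, e', e'] at this
        exact this
      · simp only [if_true] at h5 ⊢
        have := key _ _ h5
        rw [mul_sub, mul_sub, e', e'] at this
        exact this
    · cases b
      · simp only [Bool.false_eq_true, if_false] at h6 ⊢
        have := key _ _ h6
        rw [mul_add, mul_sub, mul_sub, e', e', e] at this
        exact this
      · simp only [if_true] at h6 ⊢
        have := key _ _ h6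
        rw [mul_add, mul_sub, mul_sub, e', e', e] at this
        exact this
  exact this

theorem Sten.exists_scaled {m r : ℕ} (S : Sten m r) (g : ℤ × ℤ → ℝ) {h : ℝ} (hh : 0 < h) :
    ∃ s ∈ SplineSpace (m + r + 1) r h,
      ∀ (M : ℤ × ℤ) (a b : Bool) (X : ℝ × ℝ), X ∈ tri 1 M.1 M.2 a b →
        s (h * X.1, h * X.2) = S.PP g M a b X := by
  obtain ⟨s, hs, hE⟩ := S.exists_spline g
  refine ⟨fun x => s (h⁻¹ * x.1, h⁻¹ * x.2), ⟨?_, ?_⟩, ?_⟩
  · have : ContDiff ℝ r (fun x : ℝ × ℝ => ((h⁻¹ * x.1, h⁻¹ * x.2) : ℝ × ℝ)) := by fun_prop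
    exact hs.comp this
  · intro i j a b
    refine ⟨fun p => S.PP g (i, j) a b (h⁻¹ * p.1 + 0, h⁻¹ * p.2 + 0),
      comp_affine_mem (S.PP_mem g (i, j) a b) h⁻¹ 0 0, ?_⟩
    intro x hx
    have := hE (i, j) a b (tri_scale hh i j a b hx)
    simpa using this
  · intro M a b X hX
    have e' : ∀ c : ℝ, h⁻¹ * (h * c) = c := fun c => by field_simp
    show s (h⁻¹ * (h * X.1), h⁻¹ * (h * X.2)) = _
    rw [e', e']
    exact hE M a b hX

end Pool.MP_ed6410
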