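import Pool.Agent.Lib.MP_ed6410_an.Act

/-!
# Finitely supported stencils
-/

open Finset

namespace Pool.MP_ed6410

/-! ### convolution with a stencil -/

/-- apply a stencil `F0` to lattice data `g` -/
noncomputable def conv (F0 : ℤ × ℤ → ℝ × ℝ → ℝ) (g : ℤ × ℤ → ℝ) (M : ℤ × ℤ) (X : ℝ × ℝ) : ℝ :=
  ∑' i, g (M - i) * F0 i (X - cL M + cL i)

lemma conv_summable {F0 : ℤ × ℤ → ℝ × ℝ → ℝ} (hF : {i | F0 i ≠ 0}.Finite) (g : ℤ × ℤ → ℝ)
    (M : ℤ × ℤ) (X : ℝ × ℝ) : Summable fun i => g (M - i) * F0 i (X - cL M + cL i) := by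
  apply summable_of_hasFiniteSupport
  refine hF.subset ?_
  intro i hi h
  simp only [Function.mem_support] at hi
  rw [h] at hi
  simp at hi

lemma conv_shift (F0 : ℤ × ℤ → ℝ × ℝ → ℝ) (g : ℤ × ℤ → ℝ) (M e : ℤ × ℤ) (X : ℝ × ℝ) :
    conv F0 g (M + e) (X + cL e) = conv F0 (fun j => g (j + e)) M X := by
  unfold conv
  refine tsum_congr fun i => ?_
  have h1 : M + e - i = M - i + e := by abel
  have h2 : X + cL e - cL (M + e) + cL i = X - cL M + cL i := by
    rw [cL_add]; abel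
  rw [h1, h2]

lemma conv_index (F0 : ℤ × ℤ → ℝ × ℝ → ℝ) (g : ℤ × ℤ → ℝ) (M e : ℤ × ℤ) (X : ℝ × ℝ) :
    conv F0 g (M + e) X = conv (fun i => F0 (i + e)) g M X := by
  unfold conv
  rw [← (Equiv.addRight e).tsum_eq]
  refine tsum_congr fun i => ?_
  simp only [Equiv.coe_addRight]
  have h1 : M + e - (i + e) = M - i := by abel
  have h2 : X - cL (M + e) + cL (i + e) = X - cL M + cL i := by
    rw [cL_add, cL_add]; abel
  rw [h1, h2]

lemma conv_sub {F0 : ℤ × ℤ → ℝ × ℝ → ℝ} (hF : {i | F0 i ≠ 0}.Finite) (g g' : ℤ × ℤ → ℝ)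
    (M : ℤ × ℤ) (X : ℝ × ℝ) :
    conv F0 (fun j => g j - g' j) M X = conv F0 g M X - conv F0 g' M X := by
  unfold conv
  rw [← Summable.tsum_sub (conv_summable hF g M X) (conv_summable hF g' M X)]
  refine tsum_congr fun i => ?_
  ring

lemma conv_add {F0 : ℤ × ℤ → ℝ × ℝ → ℝ} (hF : {i | F0 i ≠ 0}.Finite) (g g' : ℤ × ℤ → ℝ)
    (M : ℤ × ℤ) (X : ℝ × ℝ) :
    conv F0 (fun j => g j + g' j) M X = conv F0 g M X + conv F0 g' M X := by
  unfold conv
  rw [← Summable.tsum_add (conv_summable hF g M X) (conv_summable hF g' M X)]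
  refine tsum_congr fun i => ?_
  ring

lemma conv_zero (F0 : ℤ × ℤ → ℝ × ℝ → ℝ) (M : ℤ × ℤ) (X : ℝ × ℝ) :
    conv F0 (fun _ => 0) M X = 0 := by
  unfold conv
  simp

lemma conv_const_mul (F0 : ℤ × ℤ → ℝ × ℝ → ℝ) (g : ℤ × ℤ → ℝ) (c : ℝ)
    (M : ℤ × ℤ) (X : ℝ × ℝ) :
    conv F0 (fun j => c * g j) M X = c * conv F0 g M X := by
  unfold conv
  rw [← tsum_mul_left]
  refine tsum_congr fun i => ?_
  ring

lemma finite_shift {F0 : ℤ × ℤ → ℝ × ℝ → ℝ} (hF : {i | F0 i ≠ 0}.Finite) (e : ℤ × ℤ) :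
    {i | (fun i => F0 (i + e)) i ≠ 0}.Finite := by
  have : {i | (fun i => F0 (i + e)) i ≠ 0} = (fun i => i + e) ⁻¹' {i | F0 i ≠ 0} := rfl
  rw [this]
  exact hF.preimage (add_left_injective e).injOn

/-- the stencil relation `L(·+e) - L = F1 + F2 + F3` passes to convolutions -/
lemma conv_rel {L F1 F2 F3 : ℤ × ℤ → ℝ × ℝ → ℝ} (hL : {i | L i ≠ 0}.Finite)
    (h1 : {i | F1 i ≠ 0}.Finite) (h2 : {i | F2 i ≠ 0}.Finite) (h3 : {i | F3 i ≠ 0}.Finite)
    (e e1 e2 e3 : ℤ × ℤ) (c : ℝ)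
    (h : ∀ M X, L (M + e) X - L M X = F1 (M + e1) X + F2 (M + e2) X + c * F3 (M + e3) X)
    (g : ℤ × ℤ → ℝ) (M : ℤ × ℤ) (X : ℝ × ℝ) :
    conv L g (M + e) X - conv L g M X =
      conv F1 g (M + e1) X + conv F2 g (M + e2) X + c * conv F3 g (M + e3) X := by
  rw [conv_index, conv_index F1, conv_index F2, conv_index F3]
  have s1 := conv_summable (finite_shift hL e) g M X
  have s2 := conv_summable hL g M X
  have s3 := conv_summable (finite_shift h1 e1) g M X
  have s4 := conv_summable (finite_shift h2 e2) g M X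
  have s5 := conv_summable (finite_shift h3 e3) g M X
  unfold conv
  rw [← Summable.tsum_sub s1 s2, ← tsum_mul_left, ← Summable.tsum_add s3 s4,
    ← Summable.tsum_add (s3.add s4) (s5.mul_left c)]
  refine tsum_congr fun i => ?_
  rw [← mul_sub, h]
  ring

/-! ### potentials -/

lemma sum_Ico_int_succ (f : ℤ → ℝ) {a b : ℤ} (hab : a ≤ b) :
    ∑ i ∈ Ico a (b + 1), f i = ∑ i ∈ Ico a b, f i + f b := by
  have : Ico a (b + 1) = insert b (Ico a b) := by
    ext x
    simp only [Finset.mem_Ico, Finset.mem_insert]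
    omega
  rw [this, Finset.sum_insert (by simp), add_comm]

lemma sum_Ico_int_telescope (f : ℤ → ℝ) {a b : ℤ} (hab : a ≤ b) :
    ∑ i ∈ Ico a b, (f (i + 1) - f i) = f b - f a := by
  induction b, hab using Int.leInduction with
  | base => simp
  | succ b hb ih =>
    rw [sum_Ico_int_succ _ hb, ih]
    ring

theorem potential (A B : ℤ × ℤ → ℝ × ℝ → ℝ) (ρ : ℤ)
    (hA : ∀ M X, ¬ (|M.1| ≤ ρ ∧ |M.2| ≤ ρ) → A M X = 0)
    (hB : ∀ M X, ¬ (|M.1| ≤ ρ ∧ |M.2| ≤ ρ) → B M X = 0)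
    (hcl : ∀ M X, A (M + (0, 1)) X - A M X = B (M + (1, 0)) X - B M X) :
    ∃ L : ℤ × ℤ → ℝ × ℝ → ℝ, {M | L M ≠ 0}.Finite ∧
      (∀ M X, L (M + (1, 0)) X - L M X = A M X) ∧
      (∀ M X, L (M + (0, 1)) X - L M X = B M X) ∧
      (∀ k, (∀ M, A M ∈ PolyLE k) → ∀ M, L M ∈ PolyLE k) := by
  set a : ℤ := -ρ - 1 with ha
  set L : ℤ × ℤ → ℝ × ℝ → ℝ := fun M X => ∑ i ∈ Ico a M.1, A (i, M.2) X with hL
  have habs : ∀ x : ℤ, |x| ≤ ρ ↔ -ρ ≤ x ∧ x ≤ ρ := fun x => abs_le
  have h1 : ∀ M X, L (M + (1, 0)) X - L M X = A M X := by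
    intro M X
    simp only [hL, Prod.fst_add, Prod.snd_add, add_zero]
    by_cases hM : a ≤ M.1
    · rw [sum_Ico_int_succ _ hM]; simp
    · rw [Finset.Ico_eq_empty (by omega), Finset.Ico_eq_empty (by omega)]
      rw [hA M X (by rw [habs]; omega)]
      simp
  have h2 : ∀ M X, L (M + (0, 1)) X - L M X = B M X := by
    intro M X
    simp only [hL, Prod.fst_add, Prod.snd_add, add_zero]
    rw [← Finset.sum_sub_distrib]
    by_cases hM : a ≤ M.1
    · have e1 : ∀ i ∈ Ico a M.1, A (i, M.2 + 1) X - A (i, M.2) X =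
          B (i + 1, M.2) X - B (i, M.2) X := by
        intro i _
        have := hcl (i, M.2) X
        simpa using this
      rw [Finset.sum_congr rfl e1, sum_Ico_int_telescope (fun i => B (i, M.2) X) hM,
        hB (a, M.2) X (by rw [habs]; simp only; omega)]
      simp
    · rw [Finset.Ico_eq_empty (by omega)]
      rw [hB M X (by rw [habs]; omega)]
      simp
  refine ⟨L, ?_, h1, h2, ?_⟩
  · -- support
    have hz : ∀ M : ℤ × ℤ, ¬ (|M.2| ≤ ρ) → ∀ X, L M X = 0 := by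
      intro M hM X
      simp only [hL]
      refine Finset.sum_eq_zero fun i _ => hA _ _ ?_
      intro h; exact hM h.2
    -- the right column
    have hcol : ∀ (X : ℝ × ℝ) (n : ℤ), n ≤ ρ + 1 → L (ρ + 1, n) X = 0 := by
      intro X
      have : ∀ t : ℕ, L (ρ + 1, ρ + 1 - t) X = 0 := by
        intro t
        induction t with
        | zero =>
          apply hz
          simp only [Nat.cast_zero, sub_zero]
          rw [habs]; omega
        | succ t ih =>
          have e1 := h2 (ρ + 1, ρ + 1 - (t + 1 : ℕ)) X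
          have e2 : ((ρ + 1, ρ + 1 - ((t + 1 : ℕ) : ℤ)) : ℤ × ℤ) + (0, 1) =
              (ρ + 1, ρ + 1 - t) := by
            ext
            · simp
            · simp; ring
          rw [e2, ih, hB _ _ (by rw [habs]; simp only; omega)] at e1
          linarith
      intro n hn
      have := this (ρ + 1 - n).toNat
      have e : (((ρ + 1 - n).toNat : ℕ) : ℤ) = ρ + 1 - n := Int.toNat_of_nonneg (by omega)
      rw [e] at this
      have e' : ρ + 1 - (ρ + 1 - n) = n := by ring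
      rwa [e'] at this
    have hright : ∀ (M : ℤ × ℤ) (X : ℝ × ℝ), ρ + 1 ≤ M.1 → L M X = 0 := by
      intro M X hM
      by_cases hM2 : M.2 ≤ ρ + 1
      · have : ∀ t : ℕ, L (ρ + 1 + t, M.2) X = 0 := by
          intro t
          induction t with
          | zero => simpa using hcol X M.2 hM2
          | succ t ih =>
            have e1 := h1 (ρ + 1 + t, M.2) X
            have e2 : ((ρ + 1 + (t : ℤ), M.2) : ℤ × ℤ) + (1, 0) =
                (ρ + 1 + ((t + 1 : ℕ) : ℤ), M.2) := by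
              ext
              · simp; ring
              · simp
            rw [e2, ih, hA _ _ (by rw [habs]; simp only; omega)] at e1
            linarith
        have := this (M.1 - (ρ + 1)).toNat
        have e : (((M.1 - (ρ + 1)).toNat : ℕ) : ℤ) = M.1 - (ρ + 1) :=
          Int.toNat_of_nonneg (by omega)
        rw [e] at this
        have e' : ρ + 1 + (M.1 - (ρ + 1)) = M.1 := by ring
        rwa [e'] at this
      · exact hz M (by rw [habs]; omega) X
    refine ((Finset.Icc (-ρ - 1) (ρ + 1)) ×ˢ (Finset.Icc (-ρ) ρ)).finite_toSet.subset ?_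
    intro M hM
    simp only [Set.mem_ofPred_eq] at hM
    simp only [Finset.coe_product, Set.mem_prod, Finset.mem_coe, Finset.mem_Icc]
    by_contra hcon
    apply hM
    funext X
    by_cases c1 : |M.2| ≤ ρ
    · rw [habs] at c1
      by_cases c2 : ρ + 1 ≤ M.1
      · exact hright M X c2
      · have c3 : M.1 < a := by
          by_contra h; apply hcon; omega
        simp only [hL]
        rw [Finset.Ico_eq_empty (by omega)]
        simp
    · exact hz M c1 X
  · intro k hk M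
    exact sum_mem'' _ _ fun i _ => hk _

end Pool.MP_ed6410
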