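import Pool.Agent.Lib.MP_ed6410_an.Stencil
import Pool.Agent.Lib.MP_ed6410_an.Nec1

/-!
# The stencil coming from the exact solution of the vertex equation
-/

open Finset
open scoped fwdDiff

namespace Pool.MP_ed6410

/-- the four lattice directions -/
def dz (e : Fin 4) : ℤ × ℤ := (![(0, 1), (-1, 0), (-1, 1), (1, 1)] : Fin 4 → ℤ × ℤ) e

/-- the four linear forms -/
def lf (e : Fin 4) (Y : ℝ × ℝ) : ℝ := (![Y.1, Y.2, Y.1 + Y.2, Y.1 - Y.2] : Fin 4 → ℝ) e

/-! ### polynomials restricted to the lattice -/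

lemma pow_diff_mem (a : ℝ) (i : ℕ) :
    (fun p : ℝ × ℝ => p.1 ^ (i + 1) - (p.1 - a) ^ (i + 1)) ∈ PolyLE i := by
  induction i with
  | zero =>
    have : (fun p : ℝ × ℝ => p.1 ^ (0 + 1) - (p.1 - a) ^ (0 + 1)) = fun _ => a := by
      funext p; ring
    rw [this]
    exact const_mem _ _
  | succ i ih =>
    have h1 := mul_mem' (lin_mem 1 0 0) ih
    have h2 := const_mul_mem (linpow_mem 1 0 (-a) (i + 1)) a
    have := (PolyLE (i + 1)).add_mem (PolyLE_mono (by omega) h1) h2
    convert this using 1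
    funext p
    simp only [Pi.add_apply]
    ring

lemma mono_diff_mem (i j k : ℕ) (h : i + j ≤ k + 1) (v : ℝ × ℝ) :
    (fun p : ℝ × ℝ => p.1 ^ i * p.2 ^ j - (p - v).1 ^ i * (p - v).2 ^ j) ∈ PolyLE k := by
  have h1 : (fun p : ℝ × ℝ => (p.1 ^ i - (p.1 - v.1) ^ i) * p.2 ^ j) ∈ PolyLE k := by
    cases i with
    | zero =>
      have : (fun p : ℝ × ℝ => (p.1 ^ 0 - (p.1 - v.1) ^ 0) * p.2 ^ j) = 0 := by
        funext p; simp
      rw [this]; exact (PolyLE k).zero_mem
    | succ i =>
      have := mul_mem' (pow_diff_mem v.1 i) (linpow_mem 0 1 0 j)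
      refine PolyLE_mono (by omega) ?_ (a := i + j)
      simpa using this
  have h2 : (fun p : ℝ × ℝ => (p.1 - v.1) ^ i * (p.2 ^ j - (p.2 - v.2) ^ j)) ∈ PolyLE k := by
    cases j with
    | zero =>
      have : (fun p : ℝ × ℝ => (p.1 - v.1) ^ i * (p.2 ^ 0 - (p.2 - v.2) ^ 0)) = 0 := by
        funext p; simp
      rw [this]; exact (PolyLE k).zero_mem
    | succ j =>
      have := mul_mem' (linpow_mem 1 0 (-v.1) i) (swap_mem (pow_diff_mem v.2 j))
      refine PolyLE_mono (by omega) ?_ (a := i + j)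
      simpa [sub_eq_add_neg] using this
  have := (PolyLE k).add_mem h1 h2
  convert this using 1
  funext p
  simp only [Pi.add_apply, Prod.fst_sub, Prod.snd_sub]
  ring

lemma diff_mem {k : ℕ} {f : ℝ × ℝ → ℝ} (hf : f ∈ PolyLE (k + 1)) (v : ℝ × ℝ) :
    (fun p => f p - f (p - v)) ∈ PolyLE k := by
  unfold PolyLE at hf
  induction hf using Submodule.span_induction with
  | mem f hf =>
    obtain ⟨i, j, hij, rfl⟩ := hf
    exact mono_diff_mem i j k hij v
  | zero =>
    have : (fun p : ℝ × ℝ => (0 : ℝ × ℝ → ℝ) p - (0 : ℝ × ℝ → ℝ) (p - v)) = 0 := by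
      funext p; simp
    rw [this]; exact (PolyLE k).zero_mem
  | add x y _ _ hx hy =>
    have := (PolyLE k).add_mem hx hy
    convert this using 1
    funext p
    simp only [Pi.add_apply]; ring
  | smul c x _ hx =>
    have := (PolyLE k).smul_mem c hx
    convert this using 1
    funext p
    simp only [Pi.smul_apply, smul_eq_mul]; ring

lemma polyLE_zero_const {f : ℝ × ℝ → ℝ} (hf : f ∈ PolyLE 0) : ∃ c, ∀ p, f p = c := by
  obtain ⟨c, hc, hc'⟩ := exists_coeff hf
  refine ⟨c 0 0, fun p => ?_⟩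
  rw [hc']
  simp

lemma poly_Dn {k : ℕ} {f : ℝ × ℝ → ℝ} (hf : f ∈ PolyLE k) :
    (fun j : ℤ × ℤ => f (cL j)) ∈ Dn (k + 1) := by
  induction k generalizing f with
  | zero =>
    intro e
    obtain ⟨c, hc⟩ := polyLE_zero_const hf
    show (fun M => f (cL M) - f (cL (M - e))) = fun _ => 0
    funext M
    rw [hc, hc, sub_self]
  | succ k ih =>
    intro e
    have := ih (diff_mem hf (cL e))
    simpa only [cL_sub] using this

/-- the action of `(X₁ - 1)^n` is the `n`-th forward difference in the first coordinate -/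
lemma act_X1_pow (n : ℕ) (ψ : ℝ → ℝ) (M : ℤ × ℤ) :
    act (fun j => ψ (j.1 : ℝ)) M ((MvPolynomial.X 1 - 1) ^ n) = Δ_[(1 : ℝ)] ^[n] ψ (M.1 : ℝ) := by
  induction n generalizing ψ with
  | zero =>
    have : (1 : RR) = MvPolynomial.monomial 0 1 := rfl
    rw [pow_zero, this, act_mono1]
    have : sh 0 = 0 := by simp [sh]
    rw [this]; simp
  | succ n ih =>
    rw [pow_succ', sub_mul, one_mul, map_sub, act_X_mul, Function.iterate_succ_apply, ← ih]
    have h1 : act (fun j => ψ (j.1 : ℝ)) (M - bvec 1) ((MvPolynomial.X 1 - 1) ^ n) =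
        act (fun j => ψ ((j.1 : ℝ) + 1)) M ((MvPolynomial.X 1 - 1) ^ n) := by
      have := act_shift (fun j => ψ (j.1 : ℝ)) M (1, 0) ((MvPolynomial.X 1 - 1) ^ n)
      have h2 : M - bvec 1 = M + (1, 0) := by
        simp [bvec]
        ext <;> simp
      rw [h2, ← this]
      congr 2
      funext j
      simp
    rw [h1, ← act_sub]
    rfl

/-! ### top coefficients -/

section top

open Polynomial

lemma tc0_poly {k : ℕ} {P : ℝ × ℝ → ℝ} {p : ℝ[X]} (hp : p.natDegree ≤ k)
    (h : ∀ t, P (t, 0) = p.eval t) : tc k 0 P = p.coeff k := by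
  unfold tc mixd
  have h1 : Δ_[((1, 0) : ℝ × ℝ)] ^[k - 0] (Δ_[((0, 1) : ℝ × ℝ)] ^[0] P) 0 =
      Δ_[(1 : ℝ)] ^[k] (fun x => p.eval x) 0 := by
    rw [fwdDiff_iter_eq_sum_shift, fwdDiff_iter_eq_sum_shift, Nat.sub_zero]
    refine Finset.sum_congr rfl fun i _ => ?_
    congr 1
    simp only [Function.iterate_zero, id_eq, zero_add, nsmul_eq_mul, mul_one]
    rw [← h]
    congr 1
    ext <;> simp
  rw [h1]
  have h2 : Δ_[(1 : ℝ)] ^[k] (fun x => p.eval x) 0 = k.factorial * p.coeff k := by
    rcases hp.lt_or_eq with h3 | h3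
    · have := congrFun (Polynomial.fwdDiff_iter_eq_zero_of_degree_lt h3) 0
      rw [coeff_eq_zero_of_natDegree_lt h3, mul_zero]
      exact this
    · have := congrFun (Polynomial.fwdDiff_iter_degree_eq_factorial p) 0
      rw [h3] at this
      rw [leadingCoeff, h3] at this
      rw [this]
      simp [mul_comm]
  rw [h2]
  have : (k.factorial : ℝ) ≠ 0 := by exact_mod_cast k.factorial_ne_zero
  simp only [Nat.sub_zero, Nat.factorial_zero, Nat.cast_one, mul_one]
  field_simp

/-- the `x^m`-coefficient of `L (pev m c (· - v))` along the `x`-axis -/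
lemma tc0_pev {B : Type*} [AddCommGroup B] [Module ℝ B] (L : B →ₗ[ℝ] ℝ) (m r : ℕ)
    (c : ℕ → ℕ → B) (v : ℝ × ℝ) (a b κ : ℝ) :
    tc (m + r + 1) 0 (fun X => κ * (a * (X - v).1 + b * (X - v).2) ^ (r + 1) *
      L (pev m c (X - v))) = κ * a ^ (r + 1) * L (c m 0) := by
  set p1 : ℝ[X] := (C a * X + C (-a * v.1 - b * v.2)) ^ (r + 1) with hp1
  set p2 : ℝ[X] := ∑ i ∈ range (m + 1), ∑ j ∈ range (m + 1 - i),
    C ((-v.2) ^ j * L (c i j)) * (X - C v.1) ^ i with hp2
  have hd1 : p1.natDegree ≤ r + 1 := by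
    have := natDegree_pow_le_of_le (r + 1) (natDegree_linear_le (a := a) (b := -a * v.1 - b * v.2))
    rw [mul_one] at this
    exact this
  have hd2 : p2.natDegree ≤ m := by
    rw [hp2]
    refine natDegree_sum_le_of_forall_le _ _ fun i hi => natDegree_sum_le_of_forall_le _ _
      fun j hj => ?_
    rw [Finset.mem_range] at hi
    refine (natDegree_C_mul_le _ _).trans ?_
    have := natDegree_pow_le_of_le i (natDegree_X_sub_C v.1).le
    omega
  have hd : (C κ * (p1 * p2)).natDegree ≤ m + r + 1 := by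
    refine (natDegree_C_mul_le _ _).trans (natDegree_mul_le.trans ?_)
    omega
  rw [tc0_poly hd]
  · rw [coeff_C_mul]
    have e1 : m + r + 1 = (r + 1) + m := by ring
    rw [e1, coeff_mul_add_eq_of_natDegree_le hd1 hd2]
    have e2 : p1.coeff (r + 1) = a ^ (r + 1) := by
      have := coeff_pow_of_natDegree_le (natDegree_linear_le (a := a) (b := -a * v.1 - b * v.2))
        (m := r + 1)
      rw [mul_one] at this
      rw [hp1, this]
      congr 1
      rw [coeff_add, coeff_C_mul, coeff_X_one, coeff_C_succ]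
      ring
    have e3 : p2.coeff m = L (c m 0) := by
      rw [hp2, finsetSum_coeff, Finset.sum_eq_single m]
      · have : m + 1 - m = 1 := by omega
        rw [this, Finset.sum_range_one, coeff_C_mul]
        have h4 : ((X - C v.1) ^ m : ℝ[X]).coeff m = 1 := by
          have := coeff_X_add_C_pow (-v.1) m m
          simpa [sub_eq_add_neg] using this
        rw [h4]; simp
      · intro i hi hne
        rw [Finset.mem_range] at hi
        rw [finsetSum_coeff]
        refine Finset.sum_eq_zero fun j _ => ?_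
        apply coeff_eq_zero_of_natDegree_lt
        refine (natDegree_C_mul_le _ _).trans_lt ?_
        have := natDegree_pow_le_of_le i (natDegree_X_sub_C v.1).le
        omega
      · intro h; exact absurd (Finset.mem_range.2 (by omega)) h
    rw [e2, e3]; ring
  · intro t
    have h1 : L (pev m c ((t, 0) - v)) = p2.eval t := by
      rw [pev_map, hp2, eval_finsetSum]
      unfold pev
      refine Finset.sum_congr rfl fun i _ => ?_
      rw [eval_finsetSum]
      refine Finset.sum_congr rfl fun j _ => ?_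
      simp only [Prod.fst_sub, Prod.snd_sub, smul_eq_mul, eval_mul, eval_C, eval_pow, eval_sub,
        eval_X, zero_sub]
      ring
    rw [h1]
    simp only [eval_mul, eval_C, hp1, eval_pow, eval_add, eval_X, Prod.fst_sub, Prod.snd_sub]
    ring

end top

end Pool.MP_ed6410
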