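import Pool.Agent.Lib.MP_ed6410_an.Stencil2

/-!
# Existence of the stencil
-/

open Finset
open scoped fwdDiff

namespace Pool.MP_ed6410

section field

variable (m r : ℕ) (c : Fin 4 → ℕ → ℕ → RR) (κ : ℝ)

/-- the cofactor fields for lattice data `g` -/
noncomputable def fdg (g : ℤ × ℤ → ℝ) (e : Fin 4) (M : ℤ × ℤ) (X : ℝ × ℝ) : ℝ :=
  κ * (lf e (X - cL M)) ^ (r + 1) * act g M (pev m (c e) (X - cL M))

lemma fdg_conv (g : ℤ × ℤ → ℝ) (e : Fin 4) (M : ℤ × ℤ) (X : ℝ × ℝ) :
    conv (fdg m r c κ dl e) g M X = fdg m r c κ g e M X := by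
  unfold conv fdg
  rw [act_eq_tsum g M, ← tsum_mul_left]
  refine tsum_congr fun i => ?_
  rw [add_sub_cancel_right]
  ring

lemma fdg_finite (e : Fin 4) : {i | fdg m r c κ dl e i ≠ 0}.Finite := by
  have h1 : {i | fdg m r c κ dl e i ≠ 0} ⊆
      ⋃ a ∈ (range (m + 1) : Finset ℕ), ⋃ b ∈ (range (m + 1) : Finset ℕ),
        {i | act dl i (c e a b) ≠ 0} := by
    intro i hi
    by_contra hcon
    simp only [Set.mem_iUnion, Set.mem_ofPred_eq, not_exists, not_not] at hcon
    apply hi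
    funext Y
    unfold fdg
    have h2 : act dl i (pev m (c e) (Y - cL i)) = 0 := by
      rw [pev_map]
      unfold pev
      refine Finset.sum_eq_zero fun a ha => Finset.sum_eq_zero fun b hb => ?_
      beta_reduce
      rw [hcon a ha b (by rw [Finset.mem_range] at *; omega), smul_zero]
    rw [h2, mul_zero]
    rfl
  refine Set.Finite.subset ?_ h1
  refine Set.Finite.biUnion (Finset.finite_toSet _) fun a _ => ?_
  exact Set.Finite.biUnion (Finset.finite_toSet _) fun b _ => act_dl_finite _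

lemma fdg_vertex (hc : ∀ X, vtx r (MvPolynomial.X 0) (MvPolynomial.X 1) (fun e => pev m (c e)) X = 0)
    (g : ℤ × ℤ → ℝ) (M : ℤ × ℤ) (X : ℝ × ℝ) :
    ∑ e, (fdg m r c κ g e M X - fdg m r c κ g e (M - dz e) X) = 0 := by
  set Y : ℝ × ℝ := X - cL M with hY
  have h0 := congrArg (act g M) (hc Y)
  rw [map_zero] at h0
  unfold vtx at h0
  simp only [map_add, map_smul, map_sub, smul_eq_mul] at h0
  have x0 : ∀ s : RR, act g M (MvPolynomial.X 0 * MvPolynomial.X 1 * s) =
      act g (M - dz 0) s := by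
    intro s
    rw [mul_assoc, act_X_mul, act_X_mul]
    congr 2
    simp only [bvec, dz]
    ext <;> simp
  have x1 : ∀ s : RR, act g M (MvPolynomial.X 1 * s) = act g (M - dz 1) s := by
    intro s
    rw [act_X_mul]
    congr 2
  have x2 : ∀ s : RR, act g M (MvPolynomial.X 0 * MvPolynomial.X 1 ^ 2 * s) =
      act g (M - dz 2) s := by
    intro s
    rw [mul_assoc, pow_two, mul_assoc, act_X_mul, act_X_mul, act_X_mul]
    congr 2
    simp only [bvec, dz]
    ext
    · simp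
    · simp
  have x3 : ∀ s : RR, act g M (MvPolynomial.X 0 * s) = act g (M - dz 3) s := by
    intro s
    rw [act_X_mul]
    congr 2
  rw [x0, x1, x2, x3] at h0
  have y : ∀ e, X - cL (M - dz e) = Y + cL (dz e) := by
    intro e
    rw [cL_sub, hY]; abel
  have c0 : cL (dz 0) = (0, 1) := by simp [cL, dz]
  have c1 : cL (dz 1) = (-1, 0) := by simp [cL, dz]
  have c2 : cL (dz 2) = (-1, 1) := by simp [cL, dz]
  have c3 : cL (dz 3) = (1, 1) := by simp [cL, dz]
  rw [Fin.sum_univ_four]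
  unfold fdg
  rw [y 0, y 1, y 2, y 3, c0, c1, c2, c3, ← hY]
  simp only [lf, Matrix.cons_val_zero, Matrix.cons_val_one, Matrix.cons_val, Prod.fst_add,
    Prod.snd_add, add_zero]
  have z2 : Y.1 + -1 + (Y.2 + 1) = Y.1 + Y.2 := by ring
  have z3 : Y.1 + 1 - (Y.2 + 1) = Y.1 - Y.2 := by ring
  rw [z2, z3]
  linear_combination κ * h0

end field

lemma exists_radius {F : Fin 4 → ℤ × ℤ → ℝ × ℝ → ℝ} (h : ∀ e, {i | F e i ≠ 0}.Finite) :
    ∃ ρ : ℤ, ∀ e i, F e i ≠ 0 → |i.1| ≤ ρ ∧ |i.2| ≤ ρ := by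
  have h1 : (⋃ e, {i | F e i ≠ 0}).Finite := Set.finite_iUnion h
  have h2 := (h1.image (fun i : ℤ × ℤ => |i.1| + |i.2|)).bddAbove
  obtain ⟨ρ, hρ⟩ := h2
  refine ⟨ρ, fun e i hi => ?_⟩
  have h3 : |i.1| + |i.2| ≤ ρ := hρ ⟨i, Set.mem_iUnion.2 ⟨e, hi⟩, rfl⟩
  constructor
  · have := abs_nonneg i.2; omega
  · have := abs_nonneg i.1; omega

/-- the test data -/
noncomputable def g0 (n : ℕ) : ℤ × ℤ → ℝ := fun j => (j.1 : ℝ) ^ n

lemma g0_mem (n : ℕ) : g0 n ∈ Dn (n + 1) := by
  have := poly_Dn (linpow_mem 1 0 0 n)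
  convert this using 1
  funext j
  simp [g0, cL]

theorem exists_stencil {m r : ℕ} (hN1 : N1 m r) :
    ∃ (f : Fin 4 → ℤ × ℤ → ℝ × ℝ → ℝ) (L : ℤ × ℤ → ℝ × ℝ → ℝ),
      (∀ e, {i | f e i ≠ 0}.Finite) ∧ {i | L i ≠ 0}.Finite ∧
      (∀ (e : Fin 4) (g : ℤ × ℤ → ℝ) (M : ℤ × ℤ), ∃ q ∈ PolyLE m, ∀ X,
        conv (f e) g M X = (lf e (X - cL M)) ^ (r + 1) * q X) ∧
      (∀ i, L i ∈ PolyLE (m + r + 1)) ∧
      (∀ M X, L (M + (1, 0)) X - L M X = f 3 M X + f 2 (M + (1, 0)) X + f 0 (M + (1, 0)) X) ∧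
      (∀ M X, L (M + (0, 1)) X - L M X =
        f 2 (M + (1, 0)) X + f 1 (M + (1, 1)) X - f 3 (M + (0, 1)) X) ∧
      (∀ (e : Fin 4) (g : ℤ × ℤ → ℝ), g ∈ Dn (m + r + 2) → ∀ M X, conv (f e) g M X = 0) ∧
      (∀ M, tc (m + r + 1) 0 (fun X => conv (f 3) (g0 (m + r + 2)) M X
          + conv (f 2) (g0 (m + r + 2)) (M + (1, 0)) X
          + conv (f 0) (g0 (m + r + 2)) (M + (1, 0)) X) = (m + r + 2 : ℕ)) := by
  obtain ⟨c, hc1, hc2, hc3⟩ := exists_exact hN1
  set k := m + r + 1 with hk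
  set κ : ℝ := 1 / (k.factorial : ℝ) with hκ
  set f : Fin 4 → ℤ × ℤ → ℝ × ℝ → ℝ := fdg m r c κ dl with hf
  have hfin : ∀ e, {i | f e i ≠ 0}.Finite := fun e => fdg_finite m r c κ e
  have hconv : ∀ g e M X, conv (f e) g M X = fdg m r c κ g e M X := fun g e M X =>
    fdg_conv m r c κ g e M X
  obtain ⟨ρ, hρ⟩ := exists_radius hfin
  have hz : ∀ e i, ¬ (|i.1| ≤ ρ ∧ |i.2| ≤ ρ) → ∀ X, f e i X = 0 := by
    intro e i hi X
    by_contra h
    apply hi
    apply hρ e i
    intro h2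
    rw [h2] at h
    exact h rfl
  have habs : ∀ x y : ℤ, |x| ≤ y ↔ -y ≤ x ∧ x ≤ y := fun x y => abs_le
  have hcl : ∀ M X, (f 3 (M + (0, 1)) X + f 2 (M + (0, 1) + (1, 0)) X
      + f 0 (M + (0, 1) + (1, 0)) X) - (f 3 M X + f 2 (M + (1, 0)) X + f 0 (M + (1, 0)) X) =
      (f 2 (M + (1, 0) + (1, 0)) X + f 1 (M + (1, 0) + (1, 1)) X - f 3 (M + (1, 0) + (0, 1)) X)
      - (f 2 (M + (1, 0)) X + f 1 (M + (1, 1)) X - f 3 (M + (0, 1)) X) := by
    intro M X
    have h1 := fdg_vertex m r c κ hc3 dl (M + (1, 1)) X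
    rw [Fin.sum_univ_four] at h1
    have e0 : M + (1, 1) - dz 0 = M + (1, 0) := by
      simp only [dz]; ext <;> simp
    have e1 : M + (1, 1) - dz 1 = M + (1, 0) + (1, 1) := by
      simp only [dz]
      ext
      · simp
      · simp
    have e2 : M + (1, 1) - dz 2 = M + (1, 0) + (1, 0) := by
      simp only [dz]
      ext
      · simp
      · simp
    have e3 : M + (1, 1) - dz 3 = M := by
      simp only [dz]; ext <;> simp
    have e4 : M + (0, 1) + (1, 0) = M + (1, 1) := by ext <;> simp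
    have e5 : M + (1, 0) + (0, 1) = M + (1, 1) := by ext <;> simp
    rw [e0, e1, e2, e3] at h1
    rw [e4, e5]
    simp only [hf]
    linarith
  obtain ⟨L, hL1, hL2, hL3, hL4⟩ := potential
    (fun M X => f 3 M X + f 2 (M + (1, 0)) X + f 0 (M + (1, 0)) X)
    (fun M X => f 2 (M + (1, 0)) X + f 1 (M + (1, 1)) X - f 3 (M + (0, 1)) X) (ρ + 1)
    (by
      intro M X hM
      rw [hz 3 M, hz 2, hz 0]
      · simp
      all_goals
        intro h
        apply hM
        simp only [habs, Prod.fst_add, Prod.snd_add] at h ⊢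
        omega)
    (by
      intro M X hM
      rw [hz 2, hz 1, hz 3]
      · simp
      all_goals
        intro h
        apply hM
        simp only [habs, Prod.fst_add, Prod.snd_add] at h ⊢
        omega) hcl
  have hlfmem : ∀ (e : Fin 4) (M : ℤ × ℤ), (fun X => (lf e (X - cL M)) ^ (r + 1)) ∈
      PolyLE (r + 1) := by
    intro e M
    have key : ∀ a b : ℝ, (fun X : ℝ × ℝ => (a * (X - cL M).1 + b * (X - cL M).2) ^ (r + 1)) ∈
        PolyLE (r + 1) := by
      intro a b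
      have := comp_sub_mem (linpow_mem a b 0 (r + 1)) (cL M)
      simpa using this
    fin_cases e
    · simpa [lf] using key 1 0
    · simpa [lf] using key 0 1
    · simpa [lf] using key 1 1
    · simpa [lf, sub_eq_add_neg] using key 1 (-1)
  have hq : ∀ (e : Fin 4) (g : ℤ × ℤ → ℝ) (M : ℤ × ℤ), ∃ q ∈ PolyLE m, ∀ X,
        conv (f e) g M X = (lf e (X - cL M)) ^ (r + 1) * q X := by
    intro e g M
    refine ⟨fun X => κ * act g M (pev m (c e) (X - cL M)), ?_, ?_⟩
    · exact const_mul_mem (comp_sub_mem (pev_mem (act g M) m (c e)) (cL M)) κ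
    · intro X
      rw [hconv]
      unfold fdg
      ring
  have hfmem : ∀ e i, f e i ∈ PolyLE k := by
    intro e i
    have h1 : f e i = fun X => (lf e (X - cL i)) ^ (r + 1) *
        (κ * act dl i (pev m (c e) (X - cL i))) := by
      funext X
      simp only [hf, fdg]
      ring
    rw [h1]
    have h2 := mul_mem' (hlfmem e i)
      (const_mul_mem (comp_sub_mem (pev_mem (act dl i) m (c e)) (cL i)) κ)
    exact PolyLE_mono (by omega) h2
  refine ⟨f, L, hfin, hL1, hq, ?_, hL2, hL3, ?_, ?_⟩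
  · apply hL4
    intro M
    exact (PolyLE k).add_mem ((PolyLE k).add_mem (hfmem _ _) (hfmem _ _)) (hfmem _ _)
  · intro e g hg M X
    rw [hconv]
    unfold fdg
    have : act g M (pev m (c e) (X - cL M)) = 0 := by
      rw [pev_map]
      unfold pev
      refine Finset.sum_eq_zero fun a ha => Finset.sum_eq_zero fun b hb => ?_
      beta_reduce
      rw [act_kills (hc1 e a b) hg, smul_zero]
    rw [this, mul_zero]
  · intro M
    set G := g0 (m + r + 2) with hG
    have hGD : G ∈ Dn (m + r + 2 + 1) := g0_mem _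
    have h1 : (fun X => conv (f 3) G M X + conv (f 2) G (M + (1, 0)) X
          + conv (f 0) G (M + (1, 0)) X) =
        (fun X => κ * (1 * (X - cL M).1 + (-1) * (X - cL M).2) ^ (r + 1) *
          act G M (pev m (c 3) (X - cL M))) +
        (fun X => κ * (1 * (X - cL (M + (1, 0))).1 + 1 * (X - cL (M + (1, 0))).2) ^ (r + 1) *
          act G (M + (1, 0)) (pev m (c 2) (X - cL (M + (1, 0))))) +
        (fun X => κ * (1 * (X - cL (M + (1, 0))).1 + 0 * (X - cL (M + (1, 0))).2) ^ (r + 1) *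
          act G (M + (1, 0)) (pev m (c 0) (X - cL (M + (1, 0))))) := by
      funext X
      simp only [hconv, fdg, Pi.add_apply, lf, Matrix.cons_val_zero, Matrix.cons_val]
      ring
    rw [h1, tc_add, tc_add, tc0_pev, tc0_pev, tc0_pev]
    have hsh : ∀ s ∈ II ^ (m + r + 2), act G (M + (1, 0)) s = act G M s := by
      intro s hs
      have h2 := hGD (-(1, 0))
      have h3 := act_kills hs h2 M
      rw [act_sub] at h3
      have h4 : (fun j => G (j - -(1, 0))) = fun j => G (j + (1, 0)) := by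
        funext j; rw [sub_neg_eq_add]
      rw [h4, act_shift] at h3
      linarith
    rw [hsh _ (hc1 2 m 0), hsh _ (hc1 0 m 0)]
    have h5 : act G M (c 0 m 0 + c 2 m 0 + c 3 m 0) = ((m + r + 2).factorial : ℝ) := by
      have h6 := act_kills hc2 hGD M
      rw [map_sub, sub_eq_zero] at h6
      rw [h6]
      have h7 := act_X1_pow (m + r + 2) (fun t => t ^ (m + r + 2)) M
      have h8 : (fun j : ℤ × ℤ => (fun t : ℝ => t ^ (m + r + 2)) (j.1 : ℝ)) = G := rfl
      rw [h8] at h7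
      rw [h7, fwdDiff_iter_eq_factorial]
      simp
    rw [map_add, map_add] at h5
    have h9 : (k.factorial : ℝ) ≠ 0 := by exact_mod_cast k.factorial_ne_zero
    have h10 : ((m + r + 2).factorial : ℝ) = ((m + r + 2 : ℕ) : ℝ) * (k.factorial : ℝ) := by
      have : m + r + 2 = k + 1 := by omega
      rw [this, Nat.factorial_succ]; push_cast; ring
    rw [h10] at h5
    simp only [one_pow, mul_one]
    have h11 : κ * act G M (c 3 m 0) + κ * act G M (c 2 m 0) + κ * act G M (c 0 m 0) =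
        κ * (act G M (c 0 m 0) + act G M (c 2 m 0) + act G M (c 3 m 0)) := by ring
    rw [h11, h5, hκ]
    field_simp

end Pool.MP_ed6410
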