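import Pool.Agent.Lib.MP_ed6410_an.Err
import Pool.Agent.Lib.MP_ed6410_an.Nec

/-!
# Sufficiency, and the characterisation
-/

open MeasureTheory Filter
open scoped ENNReal Topology ContDiff

namespace Pool.MP_ed6410

theorem Sten.approxOrderFor {m r : ℕ} (S : Sten m r) :
    ApproxOrderFor (m + r + 1 + 1 : ℕ) (m + r + 1) r (m + r + 1 + 1) := by
  obtain ⟨K, hK, hS⟩ := S.approx
  intro G hGo _ hG f hf
  obtain ⟨R, hR0, hR⟩ : ∃ R : ℝ, 0 < R ∧ G ⊆ Metric.closedBall (0 : ℝ × ℝ) R := by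
    obtain ⟨R, hR⟩ := hG.subset_closedBall (0 : ℝ × ℝ)
    exact ⟨max R 1, lt_max_of_lt_right one_pos,
      hR.trans (Metric.closedBall_subset_closedBall (le_max_left _ _))⟩
  let χ : ContDiffBump (0 : ℝ × ℝ) := ⟨R, R + 1, hR0, by linarith⟩
  set F : ℝ × ℝ → ℝ := fun x => χ x * f x with hF
  have hFc : ContDiff ℝ (m + r + 1 + 1 : ℕ) F := χ.contDiff.mul hf
  have hFs : HasCompactSupport F := χ.hasCompactSupport.mul_right
  obtain ⟨C, hC⟩ : ∃ C, ∀ x, ‖iteratedFDeriv ℝ (m + r + 1 + 1) F x‖ ≤ C := by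
    have h1 : Continuous (iteratedFDeriv ℝ (m + r + 1 + 1) F) :=
      hFc.continuous_iteratedFDeriv le_rfl
    have h2 : HasCompactSupport (iteratedFDeriv ℝ (m + r + 1 + 1) F) := hFs.iteratedFDeriv _
    exact h2.exists_bound_of_continuous h1
  refine ⟨K * C, ?_⟩
  filter_upwards [self_mem_nhdsWithin] with h hh
  obtain ⟨s, hs, hsE⟩ := hS F C hFc hC h hh
  unfold distLinf
  refine (iInf₂_le s hs).trans ?_
  rw [eLpNorm_exponent_top]
  refine eLpNormEssSup_le_of_ae_bound ?_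
  filter_upwards [ae_restrict_mem hGo.measurableSet] with x hxG
  have h1 : F x = f x := by
    have : χ x = 1 := χ.one_of_mem_closedBall (hR hxG)
    simp only [hF, this, one_mul]
  have h2 := hsE x
  rw [h1] at h2
  rw [Pi.sub_apply, Real.norm_eq_abs]
  calc _ ≤ _ := h2
    _ = _ := by ring

lemma ApproxOrderFor.mono {N N' : ℕ∞} (hN : N ≤ N') {k r m : ℕ} (h : ApproxOrderFor N k r m) :
    ApproxOrderFor N' k r m :=
  fun G h1 h2 h3 f hf => h G h1 h2 h3 f (hf.of_le (by exact_mod_cast hN))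

theorem approxOrderFor_of_cond {k r : ℕ} (h : r < k)
    (hk : r ≤ 1 ∨ 2 * r + 2 ≤ k ∨ (k = 2 * r + 1 ∧ Odd r)) :
    ApproxOrderFor (k + 1 : ℕ) k r (k + 1) := by
  obtain ⟨m, rfl⟩ : ∃ m, k = m + r + 1 := ⟨k - r - 1, by omega⟩
  have hN1 : N1 m r := by
    apply N1_good
    rcases hk with hk | hk | ⟨hk, hodd⟩
    · left; exact hk
    · right; left; omega
    · right; right; exact ⟨by omega, hodd⟩
  obtain ⟨S⟩ := exists_Sten hN1
  exact S.approxOrderFor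

theorem cond_of_approxOrderFor {k r : ℕ} (h : r < k) {N : ℕ∞}
    (hk : ApproxOrderFor N k r (k + 1)) :
    r ≤ 1 ∨ 2 * r + 2 ≤ k ∨ (k = 2 * r + 1 ∧ Odd r) := by
  by_contra hcon
  push Not at hcon
  obtain ⟨h1, h2, h3⟩ := hcon
  refine not_optimal h (by omega) ?_ N hk
  by_cases h4 : k = 2 * r + 1
  · right
    exact ⟨h4, Nat.not_odd_iff_even.1 (h3 h4)⟩
  · left; omega

/-- the characterisation -/
theorem hasApproxOrder_iff (k r : ℕ) (h : r < k) :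
    (HasApproxOrder k r (k + 1) ↔ (r ≤ 1 ∨ 2 * r + 2 ≤ k ∨ (k = 2 * r + 1 ∧ Odd r))) ∧
    (∀ N : ℕ∞, (k + 1 : ℕ) ≤ N →
      (ApproxOrderFor N k r (k + 1) ↔ (r ≤ 1 ∨ 2 * r + 2 ≤ k ∨ (k = 2 * r + 1 ∧ Odd r)))) := by
  refine ⟨⟨?_, ?_⟩, fun N hN => ⟨?_, ?_⟩⟩
  · rintro ⟨N, hN⟩
    exact cond_of_approxOrderFor h hN
  · intro hk
    exact ⟨k + 1, approxOrderFor_of_cond h hk⟩
  · intro hk
    exact cond_of_approxOrderFor h hk
  · intro hk
    exact (approxOrderFor_of_cond h hk).mono hN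

end Pool.MP_ed6410
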